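import Mathlib
import Pool.Agent.Lib.H99JetCalc.Calc

/-!
# A zero-torsion third-order geometric system without nondegenerate conservation laws

Problem MP_027f17_mp, question Q1, asks whether every zero-torsion system
`u^i_t = u^i_xxx + 3 α^i_jk u^j_x u^k_xx + (∂_j α^i_km + 2 α^i_jr α^r_km - α^i_rj α^r_km + β^i_jkm) u^j_x u^k_x u^m_x`
satisfying (C1)-(C5) has infinitely many higher symmetries and infinitely many nondegenerate local
conservation laws. We show that the answer is negative: the three-component system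

  `u_t = u_xxx + (u_x)^3,  v_t = v_xxx + 3 (u_x)^2 v_x,  w_t = w_xxx + 3 (u_x)^2 w_x`

(the potential modified KdV equation together with two copies of its linearisation; equivalently
the potential mKdV equation `U_t = U_xxx + (U_x)^3` over the commutative algebra
`𝕜[x, y]/(x, y)^2`) has zero torsion and satisfies (C1)-(C5), but it has no nondegenerate local
conservation law of any order `k ≥ 1`, over `ℝ` and over `ℂ`.
-/

set_option autoImplicit false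

namespace Pool.Agent.Results.MP_027f17_mp.Counterexample

open Pool.Agent.Lib.H99JetCalc

variable {𝕜 : Type} [RCLike 𝕜] {N : ℕ}

/-! ## Third-order geometric systems -/

/-- The coefficients `α^i_{jk}(u)`, `β^i_{jkm}(u)` of a system
`u^i_t = u^i_xxx + 3 α^i_jk u^j_x u^k_xx
  + (∂_j α^i_km + 2 α^i_jr α^r_km - α^i_rj α^r_km + β^i_jkm) u^j_x u^k_x u^m_x`
on a nonempty open set `dom` of `𝕜^N`; the first index is the upper one,
`α u i j k = α^i_{jk}(u)`, and `β` is totally symmetric in its lower indices. -/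
structure GeometricSystem (𝕜 : Type) [RCLike 𝕜] (N : ℕ) where
  /-- the domain of the coefficients -/
  dom : Set (Fin N → 𝕜)
  isOpen_dom : IsOpen dom
  nonempty_dom : dom.Nonempty
  /-- the connection coefficients `α^i_{jk}` -/
  α : (Fin N → 𝕜) → Fin N → Fin N → Fin N → 𝕜
  /-- the tensor `β^i_{jkm}` -/
  β : (Fin N → 𝕜) → Fin N → Fin N → Fin N → Fin N → 𝕜
  analytic_α : ∀ i j k, AnalyticOnNhd 𝕜 (fun u => α u i j k) dom
  analytic_β : ∀ i j k m, AnalyticOnNhd 𝕜 (fun u => β u i j k m) dom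
  symm_β : ∀ u ∈ dom, ∀ i j k m, β u i j k m = β u i k j m ∧ β u i j k m = β u i j m k

namespace GeometricSystem

/-- `∂_j g (u)` for a scalar function `g` on `𝕜^N`. -/
noncomputable def pdu (j : Fin N) (g : (Fin N → 𝕜) → 𝕜) (u : Fin N → 𝕜) : 𝕜 :=
  fderiv 𝕜 g u (Pi.single j 1)

/-- The right-hand side of the system as a function of jets. -/
noncomputable def rhs (S : GeometricSystem 𝕜 N) (j : Jet 𝕜 N) (i : Fin N) : 𝕜 :=
  j 3 i + 3 * ∑ p, ∑ q, S.α (j 0) i p q * j 1 p * j 2 q +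
    ∑ p, ∑ q, ∑ r, (pdu p (fun u => S.α u i q r) (j 0) + 2 * ∑ s, S.α (j 0) i p s * S.α (j 0) s q r
      - ∑ s, S.α (j 0) i s p * S.α (j 0) s q r + S.β (j 0) i p q r) * j 1 p * j 1 q * j 1 r

/-- Zero torsion: `α^i_{jk} = α^i_{kj}`. -/
def ZeroTorsion (S : GeometricSystem 𝕜 N) : Prop :=
  ∀ u ∈ S.dom, ∀ i j k, S.α u i j k = S.α u i k j

/-- `R^i_{jkl} = ∂_k α^i_{jl} - ∂_l α^i_{jk} + α^i_{sk} α^s_{jl} - α^i_{sl} α^s_{jk}`. -/
noncomputable def curvComp (S : GeometricSystem 𝕜 N) (u : Fin N → 𝕜) (i j k l : Fin N) : 𝕜 :=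
  pdu k (fun u => S.α u i j l) u - pdu l (fun u => S.α u i j k) u +
    ∑ s, S.α u i s k * S.α u s j l - ∑ s, S.α u i s l * S.α u s j k

/-- The vector `R(X,Y,Z)^i = R^i_{jkl} X^j Y^k Z^l`. -/
noncomputable def R (S : GeometricSystem 𝕜 N) (u X Y Z : Fin N → 𝕜) : Fin N → 𝕜 :=
  fun i => ∑ j, ∑ k, ∑ l, S.curvComp u i j k l * X j * Y k * Z l

/-- The vector `β(X,Y,Z)^i = β^i_{jkl} X^j Y^k Z^l`. -/
noncomputable def betaVec (S : GeometricSystem 𝕜 N) (u X Y Z : Fin N → 𝕜) : Fin N → 𝕜 :=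
  fun i => ∑ j, ∑ k, ∑ l, S.β u i j k l * X j * Y k * Z l

/-- `σ(X,Y,Z) = β(X,Y,Z) - (1/3) R(X,Y,Z) + (1/3) R(Z,X,Y)`. -/
noncomputable def σ (S : GeometricSystem 𝕜 N) (u X Y Z : Fin N → 𝕜) : Fin N → 𝕜 :=
  S.betaVec u X Y Z - (1 / 3 : 𝕜) • S.R u X Y Z + (1 / 3 : 𝕜) • S.R u Z X Y

/-- The components `T^i_{jkl}(u)` of a field of trilinear operations. -/
def comp (T : (Fin N → 𝕜) → (Fin N → 𝕜) → (Fin N → 𝕜) → (Fin N → 𝕜) → (Fin N → 𝕜))
    (i j k l : Fin N) (u : Fin N → 𝕜) : 𝕜 :=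
  T u (Pi.single j 1) (Pi.single k 1) (Pi.single l 1) i

/-- The covariant derivative of a field of trilinear operations with respect to the connection
`α`: `∇_m T^i_{jkl} = ∂_m T^i_{jkl} + α^i_{ms} T^s_{jkl} - α^s_{mj} T^i_{skl} - α^s_{mk} T^i_{jsl}
- α^s_{ml} T^i_{jks}`. -/
noncomputable def covDeriv (S : GeometricSystem 𝕜 N)
    (T : (Fin N → 𝕜) → (Fin N → 𝕜) → (Fin N → 𝕜) → (Fin N → 𝕜) → (Fin N → 𝕜))
    (m i j k l : Fin N) (u : Fin N → 𝕜) : 𝕜 :=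
  pdu m (comp T i j k l) u + ∑ s, (S.α u i m s * comp T s j k l u - S.α u s m j * comp T i s k l u
    - S.α u s m k * comp T i j s l u - S.α u s m l * comp T i j k s u)

/-- (C1) `∇R = 0`. -/
def C1 (S : GeometricSystem 𝕜 N) : Prop := ∀ u ∈ S.dom, ∀ m i j k l, S.covDeriv S.R m i j k l u = 0

/-- (C2) `∇σ = 0`. -/
def C2 (S : GeometricSystem 𝕜 N) : Prop := ∀ u ∈ S.dom, ∀ m i j k l, S.covDeriv S.σ m i j k l u = 0

/-- (C3) `R(X,Y,Z) = σ(X,Z,Y) - σ(X,Y,Z)`. -/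
def C3 (S : GeometricSystem 𝕜 N) : Prop :=
  ∀ u ∈ S.dom, ∀ X Y Z, S.R u X Y Z = S.σ u X Z Y - S.σ u X Y Z

/-- (C4) `σ(X,Y,Z) = σ(Z,Y,X)`. -/
def C4 (S : GeometricSystem 𝕜 N) : Prop := ∀ u ∈ S.dom, ∀ X Y Z, S.σ u X Y Z = S.σ u Z Y X

/-- (C5) `σ(X,σ(Y,Z,V),W) - σ(W,V,σ(X,Y,Z)) + σ(Z,Y,σ(X,V,W)) - σ(X,V,σ(Z,Y,W)) = 0`. -/
def C5 (S : GeometricSystem 𝕜 N) : Prop :=
  ∀ u ∈ S.dom, ∀ X Y Z V W, S.σ u X (S.σ u Y Z V) W - S.σ u W V (S.σ u X Y Z)
    + S.σ u Z Y (S.σ u X V W) - S.σ u X V (S.σ u Z Y W) = 0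

/-- The system has a nondegenerate local conservation law of order `k`: on some open set `Ω` of
jets (lying over the domain of the system) there are a density `ρ(u, …, u_k)` and a flux
`θ(u, …, u_m)`, both analytic, with `D_t ρ = D_x θ` on `Ω`, such that the matrix
`∂²ρ/∂u^a_k ∂u^b_k` is nonsingular at some point of `Ω`.
(Neither minimality of `k` nor nondegeneracy at every point is asked for, so that this is the
widest reading of the notion and its negation is the strongest.) -/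
def HasNondegenerateLaw (S : GeometricSystem 𝕜 N) (k : ℕ) : Prop :=
  ∃ (Ω : Set (Jet 𝕜 N)) (ρ θ : Jet 𝕜 N → 𝕜) (m : ℕ),
    IsOpen Ω ∧ (∀ j ∈ Ω, j 0 ∈ S.dom) ∧
    IsDifferentialFunction k Ω ρ ∧ IsDifferentialFunction m Ω θ ∧
    (∀ j ∈ Ω, evolDeriv S.rhs ρ j = totalDeriv θ j) ∧
    ∃ j ∈ Ω, (topHessian k ρ j).det ≠ 0

end GeometricSystem

/-! ## The example -/

/-- The structure constants of the example: `σ(X,Y,Z) = XYZ` in the commutative algebra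
`𝕜[x, y]/(x, y)^2` with basis `1, x, y`.  So `β^0_{000} = 1` and, for `i = 1, 2`,
`β^i_{i00} = β^i_{0i0} = β^i_{00i} = 1`; all others are `0`. -/
def exβ (𝕜 : Type) [RCLike 𝕜] (i p q r : Fin 3) : 𝕜 :=
  if (p, q, r) = (i, 0, 0) ∨ (p, q, r) = (0, i, 0) ∨ (p, q, r) = (0, 0, i) then 1 else 0

/-- The system `u_t = u_xxx + (u_x)^3, v_t = v_xxx + 3 (u_x)^2 v_x, w_t = w_xxx + 3 (u_x)^2 w_x`. -/
def exSystem (𝕜 : Type) [RCLike 𝕜] : GeometricSystem 𝕜 3 where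
  dom := Set.univ
  isOpen_dom := isOpen_univ
  nonempty_dom := Set.univ_nonempty
  α := fun _ _ _ _ => 0
  β := fun _ i p q r => exβ 𝕜 i p q r
  analytic_α := fun _ _ _ _ _ => analyticAt_const
  analytic_β := fun _ _ _ _ _ _ => analyticAt_const
  symm_β := by
    intro u _ i j k m
    fin_cases i <;> fin_cases j <;> fin_cases k <;> fin_cases m <;> simp [exβ]

lemma exBeta_formula (u X Y Z : Fin 3 → 𝕜) :
    (exSystem 𝕜).betaVec u X Y Z =
      ![X 0 * Y 0 * Z 0, X 1 * Y 0 * Z 0 + X 0 * Y 1 * Z 0 + X 0 * Y 0 * Z 1,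
        X 2 * Y 0 * Z 0 + X 0 * Y 2 * Z 0 + X 0 * Y 0 * Z 2] := by
  funext i
  fin_cases i
  · simp [GeometricSystem.betaVec, exSystem, exβ, Fin.sum_univ_three]
  · simp [GeometricSystem.betaVec, exSystem, exβ, Fin.sum_univ_three]
    ring
  · simp [GeometricSystem.betaVec, exSystem, exβ, Fin.sum_univ_three]
    ring

lemma exR_eq_zero (u X Y Z : Fin 3 → 𝕜) : (exSystem 𝕜).R u X Y Z = 0 := by
  funext i
  simp [GeometricSystem.R, GeometricSystem.curvComp, GeometricSystem.pdu, exSystem]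

lemma exσ_formula (u X Y Z : Fin 3 → 𝕜) :
    (exSystem 𝕜).σ u X Y Z =
      ![X 0 * Y 0 * Z 0, X 1 * Y 0 * Z 0 + X 0 * Y 1 * Z 0 + X 0 * Y 0 * Z 1,
        X 2 * Y 0 * Z 0 + X 0 * Y 2 * Z 0 + X 0 * Y 0 * Z 2] := by
  simp [GeometricSystem.σ, exR_eq_zero, exBeta_formula]

lemma exRhs (j : Jet 𝕜 3) : (exSystem 𝕜).rhs j 0 = j 3 0 + j 1 0 ^ 3 ∧
    (exSystem 𝕜).rhs j 1 = j 3 1 + 3 * j 1 0 ^ 2 * j 1 1 ∧
    (exSystem 𝕜).rhs j 2 = j 3 2 + 3 * j 1 0 ^ 2 * j 1 2 := by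
  refine ⟨?_, ?_, ?_⟩ <;>
  · simp [GeometricSystem.rhs, GeometricSystem.pdu, exSystem, exβ, Fin.sum_univ_three]
    ring

/-- The nonlinearities `((u_1)^3, 3 (u_1)^2 v_1, 3 (u_1)^2 w_1)` as differential functions. -/
noncomputable def exφ (Ω : Set (Jet 𝕜 3)) : Fin 3 → diffAlg Ω :=
  ![X Ω 1 0 * X Ω 1 0 * X Ω 1 0, 3 * (X Ω 1 0 * X Ω 1 0 * X Ω 1 1),
    3 * (X Ω 1 0 * X Ω 1 0 * X Ω 1 2)]

lemma exφ_zero (Ω : Set (Jet 𝕜 3)) : exφ Ω 0 = X Ω 1 0 * X Ω 1 0 * X Ω 1 0 := rfl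
lemma exφ_one (Ω : Set (Jet 𝕜 3)) : exφ Ω 1 = 3 * (X Ω 1 0 * X Ω 1 0 * X Ω 1 1) := rfl
lemma exφ_two (Ω : Set (Jet 𝕜 3)) : exφ Ω 2 = 3 * (X Ω 1 0 * X Ω 1 0 * X Ω 1 2) := rfl

lemma exK (Ω : Set (Jet 𝕜 3)) (j : Ω) (i : Fin 3) :
    (exSystem 𝕜).rhs j i = (X Ω 3 i + exφ Ω i).1 j := by
  obtain ⟨h0, h1, h2⟩ := exRhs (𝕜 := 𝕜) j
  fin_cases i
  · simp only [Fin.zero_eta, Fin.isValue, h0, exφ_zero]
    show j.1 3 0 + j.1 1 0 ^ 3 = j.1 3 0 + (j.1 1 0 * j.1 1 0 * j.1 1 0)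
    ring
  · simp only [Fin.mk_one, Fin.isValue, h1, exφ_one]
    show j.1 3 1 + 3 * j.1 1 0 ^ 2 * j.1 1 1 = j.1 3 1 + 3 * (j.1 1 0 * j.1 1 0 * j.1 1 1)
    ring
  · simp only [Fin.reduceFinMk, Fin.isValue, h2, exφ_two]
    show j.1 3 2 + 3 * j.1 1 0 ^ 2 * j.1 1 2 = j.1 3 2 + 3 * (j.1 1 0 * j.1 1 0 * j.1 1 2)
    ring

lemma pd_three {Ω : Set (Jet 𝕜 3)} (hΩ : IsOpen Ω) (n : ℕ) (i : Fin 3) :
    (jetCalc hΩ).pd n i (3 : diffAlg Ω) = 0 := by
  have e : (3 : diffAlg Ω) = ((3 : ℕ) : diffAlg Ω) := Nat.cast_ofNat.symm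
  rw [e]
  exact Derivation.map_natCast _ _

lemma ex_pdX {Ω : Set (Jet 𝕜 3)} (hΩ : IsOpen Ω) (n : ℕ) (i : Fin 3) (m : ℕ) (l : Fin 3) :
    (jetCalc hΩ).pd n i (X Ω m l) = if n = m ∧ i = l then 1 else 0 :=
  (jetCalc hΩ).pd_X n i m l

lemma pd_mul {Ω : Set (Jet 𝕜 3)} (hΩ : IsOpen Ω) (n : ℕ) (i : Fin 3) (F G : diffAlg Ω) :
    (jetCalc hΩ).pd n i (F * G) = (jetCalc hΩ).pd n i F * G + F * (jetCalc hΩ).pd n i G := by
  rw [Derivation.leibniz, smul_eq_mul, smul_eq_mul]; ring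

/-- The block of the top Hessian of a conserved density belonging to `v, w` vanishes. -/
lemma ex_block {Ω : Set (Jet 𝕜 3)} (hΩ : IsOpen Ω) {K : ℕ} {ρ θ : diffAlg Ω}
    (hρ : ∀ n, K + 1 < n → ∀ i, (jetCalc hΩ).pd n i ρ = 0)
    (h : (jetCalc hΩ).Dt (exφ Ω) (K + 1) ρ = (jetCalc hΩ).D θ) (a b : Fin 3) (ha : a ≠ 0)
    (hb : b ≠ 0) (j : Ω) :
    ((jetCalc hΩ).pd (K + 1) a ((jetCalc hΩ).pd (K + 1) b ρ)).1 j = 0 := by
  have hf : ∀ i, ∀ n, n ≠ 1 → ∀ a, (jetCalc hΩ).pd n a (exφ Ω i) = 0 := by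
    intro i n hn a
    fin_cases i
    · simp only [Fin.zero_eta, Fin.isValue, exφ_zero, pd_mul, ex_pdX]
      simp [hn]
    · simp only [Fin.mk_one, Fin.isValue, exφ_one, pd_mul, ex_pdX, pd_three]
      simp [hn]
    · simp only [Fin.reduceFinMk, Fin.isValue, exφ_two, pd_mul, ex_pdX, pd_three]
      simp [hn]
  have key := (jetCalc hΩ).main hf hρ h b 0 a 0
  have h6 : (6 : 𝕜) ≠ 0 := by norm_num
  have fin6 : ∀ z : diffAlg Ω, 6 * z = 0 → z.1 j = 0 := by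
    intro z hz
    have h1 : (6 * z).1 j = 0 := by rw [hz]; rfl
    have h2 : (6 * z).1 j = 6 * z.1 j := rfl
    rw [h2] at h1
    exact (mul_eq_zero.mp h1).resolve_left h6
  apply fin6
  have e01 : ((0 : Fin 3) = 1) = False := by simp
  have e02 : ((0 : Fin 3) = 2) = False := by simp
  have e12 : ((1 : Fin 3) = 2) = False := by simp
  have e10 : ((1 : Fin 3) = 0) = False := by simp
  have e20 : ((2 : Fin 3) = 0) = False := by simp
  have e21 : ((2 : Fin 3) = 1) = False := by simp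
  simp only [Fin.sum_univ_three, exφ_zero, exφ_one, exφ_two, pd_mul, ex_pdX, pd_three, map_add,
    e01, e02, e10, e20, and_false, if_false, and_self, if_true, mul_zero, zero_mul,
    add_zero, zero_add, mul_one, one_mul, map_zero, Derivation.map_one_eq_zero] at key
  fin_cases a <;> fin_cases b <;>
    first
    | exact absurd rfl ha
    | exact absurd rfl hb
    | (simp only [Fin.mk_one, Fin.isValue, Fin.reduceFinMk, e12, e10, e20, e21, and_false, if_false,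
        and_self, if_true, mul_zero, zero_mul, add_zero, zero_add, mul_one, one_mul, map_zero,
        pd_mul, pd_three, ex_pdX, Derivation.map_one_eq_zero, map_add, e01, e02] at key ⊢
       linear_combination -key)

lemma exNoLaw (k : ℕ) (hk : 1 ≤ k) : ¬ (exSystem 𝕜).HasNondegenerateLaw k := by
  rintro ⟨Ω, ρ, θ, m, hΩ, -, ⟨f, hf⟩, ⟨g, hg⟩, hcons, j, hj, hdet⟩
  obtain ⟨K, rfl⟩ : ∃ K, k = K + 1 := ⟨k - 1, by omega⟩
  apply hdet
  set r : diffAlg Ω := ⟨fun j => ρ j, K + 1, f, fun j => hf j j.2⟩ with hr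
  set t : diffAlg Ω := ⟨fun j => θ j, m, g, fun j => hg j j.2⟩ with ht
  have hrep : Rep Ω (K + 1) f r.1 := fun j => hf j j.2
  have hrρ : ∀ j : Ω, ρ j = r.1 j := fun _ => rfl
  have htθ : ∀ j : Ω, θ j = t.1 j := fun _ => rfl
  have hord : ∀ n, K + 1 < n → ∀ i, (jetCalc hΩ).pd n i r = 0 := by
    intro n hn i
    apply Subtype.ext
    funext j
    show (along hΩ (pdV Ω n i) r).1 j = 0
    rw [along_apply hΩ _ hrep]
    have : trunc (K + 1) (fun m l => (pdV Ω n i m l).1 j) = 0 := by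
      funext m l
      show (eJet n i : Jet 𝕜 3) m l = 0
      unfold eJet
      have : (Pi.single n (Pi.single i 1) : Jet 𝕜 3) m = 0 := by
        rw [Pi.single_apply, if_neg]; omega
      rw [this]; rfl
    rw [this, map_zero]
  have hconv : (jetCalc hΩ).Dt (exφ Ω) (K + 1) r = (jetCalc hΩ).D t := by
    apply Subtype.ext
    funext j
    rw [← evolDeriv_eq hΩ (exSystem 𝕜).rhs (exφ Ω) (exK Ω) hrep ρ hrρ j,
      ← totalDeriv_eq hΩ t θ htθ j]
    exact hcons j j.2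
  have hblock : ∀ a b : Fin 3, a ≠ 0 → b ≠ 0 → topHessian (K + 1) ρ j a b = 0 := by
    intro a b ha hb
    show jetDeriv (K + 1) a (jetDeriv (K + 1) b ρ) j = 0
    have h1 : ∀ j : Ω, jetDeriv (K + 1) b ρ j = ((jetCalc hΩ).pd (K + 1) b r).1 j :=
      fun j => jetDeriv_eq hΩ r ρ hrρ (K + 1) b j
    have h2 := jetDeriv_eq hΩ ((jetCalc hΩ).pd (K + 1) b r) (jetDeriv (K + 1) b ρ) h1 (K + 1) a
      ⟨j, hj⟩
    rw [show jetDeriv (K + 1) a (jetDeriv (K + 1) b ρ) j = _ from h2]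
    exact ex_block hΩ hord hconv a b ha hb ⟨j, hj⟩
  rw [Matrix.det_fin_three, hblock 1 1 (by simp) (by simp), hblock 1 2 (by simp) (by simp),
    hblock 2 1 (by simp) (by simp), hblock 2 2 (by simp) (by simp)]
  ring

/-- **Question Q1 has a negative answer.**  Over `𝕜 = ℝ` and over `𝕜 = ℂ` there is a system of the
form considered with three components (explicitly
`u_t = u_xxx + (u_x)^3, v_t = v_xxx + 3 (u_x)^2 v_x, w_t = w_xxx + 3 (u_x)^2 w_x`), with zero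
torsion and satisfying (C1)-(C5), which has no nondegenerate local conservation law of any order
`k ≥ 1`; in particular it does not have infinitely many of them (that is, of unboundedly high
order). -/
theorem result (𝕜 : Type) [RCLike 𝕜] :
    ∃ S : GeometricSystem 𝕜 3,
      (∀ j : Jet 𝕜 3, S.rhs j 0 = j 3 0 + j 1 0 ^ 3 ∧
        S.rhs j 1 = j 3 1 + 3 * j 1 0 ^ 2 * j 1 1 ∧
        S.rhs j 2 = j 3 2 + 3 * j 1 0 ^ 2 * j 1 2) ∧
      S.ZeroTorsion ∧ S.C1 ∧ S.C2 ∧ S.C3 ∧ S.C4 ∧ S.C5 ∧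
      ∀ k, 1 ≤ k → ¬ S.HasNondegenerateLaw k := by
  refine ⟨exSystem 𝕜, exRhs, ?_, ?_, ?_, ?_, ?_, ?_, exNoLaw⟩
  · intro u _ i j k; rfl
  · intro u _ m i j k l
    have h1 : ∀ i j k l, GeometricSystem.comp (exSystem 𝕜).R i j k l = fun _ => 0 := by
      intro i j k l; funext u; simp [GeometricSystem.comp, exR_eq_zero]
    simp [GeometricSystem.covDeriv, h1, GeometricSystem.pdu]
  · intro u _ m i j k l
    have h1 : ∀ i j k l, ∃ c : 𝕜, GeometricSystem.comp (exSystem 𝕜).σ i j k l = fun _ => c := by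
      intro i j k l
      refine ⟨GeometricSystem.comp (exSystem 𝕜).σ i j k l 0, ?_⟩
      funext u
      simp only [GeometricSystem.comp, exσ_formula]
    obtain ⟨c, hc⟩ := h1 i j k l
    have h2 : ∀ i j k, (exSystem 𝕜).α u i j k = 0 := fun _ _ _ => rfl
    simp [GeometricSystem.covDeriv, hc, h2, GeometricSystem.pdu]
  · intro u _ X Y Z
    rw [exR_eq_zero, exσ_formula, exσ_formula]
    funext i
    fin_cases i <;> simp <;> ring
  · intro u _ X Y Z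
    rw [exσ_formula, exσ_formula]
    funext i
    fin_cases i <;> simp <;> ring
  · intro u _ X Y Z V W
    simp only [exσ_formula]
    funext i
    fin_cases i <;> simp <;> ring

end Pool.Agent.Results.MP_027f17_mp.Counterexample
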