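import Pool.Agent.Lib.H85S.GlueM

/-!
# The density hypothesis for `SL_n(ℤ)` in the spectral aspect

All `n ≥ 2`, all primes `p`: among pairwise orthogonal Maass cusp forms for `SL_n(ℤ)` with Laplace eigenvalue at most `T ^ 2`,
those whose Satake parameter at `p` is non-tempered, at distance `ν` from the tempered spectrum, are at most
`C p ^ (n (n - 1)) T ^ (D (1 - 2 ν / (n - 1)) + ε)` in number, where `D = (n - 1) (n + 2) / 2` is the dimension of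
`SL_n(ℝ) / SO(n)`.
-/

namespace Pool.Agent.Lib.Retired.SpectralDensity

open MeasureTheory NumberField IsDedekindDomain
open Pool.Agent.Lib.H89N Pool.Agent.Lib.H85S

/-- Let `n ≥ 2`, `μ` a Haar measure on `SL_n(ℝ)` and `ε > 0`. There is `C` such that for all fundamental domains `F` of `SL_n(ℤ)`,
all finite places `v` of `ℚ` (norm `p`), all `T ≥ 1` and all `0 ≤ ν ≤ (n - 1) / 2`: nonzero, pairwise orthogonal Maass cusp
forms `f i` for `SL_n(ℤ)` with Laplace eigenvalues at most `T ^ 2` which have Satake parameters `α` at `v` with `|α i| ≥ p ^ ν`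
for some `i` (`FarFromTempered`) are at most `C p ^ (n (n - 1)) T ^ ((n - 1) (n + 2) / 2 * (1 - 2 ν / (n - 1)) + ε)` in number. -/
theorem result (n : ℕ) (hn : 2 ≤ n) (μ : Measure (GG n ℚ)) [μ.IsHaarMeasure] (ε : ℝ) (hε : 0 < ε) :
    ∃ C : ℝ, ∀ F : Set (GG n ℚ), IsFundamentalDomain (Gamma n (⊤ : Ideal (𝓞 ℚ))) F μ →
    ∀ (v : HeightOneSpectrum (𝓞 ℚ)) (T : ℝ), 1 ≤ T → ∀ ν : ℝ, 0 ≤ ν → ν ≤ ((n : ℝ) - 1) / 2 →
    ∀ (m : ℕ) (f : Fin m → GG n ℚ → ℂ) (lam : Fin m → ℝ), (∀ i, f i ≠ 0) →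
    (∀ i k, i ≠ k → ∫ x in F, star (f i x) * f k x ∂μ = 0) →
    (∀ i, Maass μ (lam i) (f i)) → (∀ i, lam i ≤ T ^ 2) →
    (∀ i, FarFromTempered (⊤ : Ideal (𝓞 ℚ)) v ν (f i)) →
    (m : ℝ) ≤ C * (Ideal.absNorm v.asIdeal : ℝ) ^ (n * (n - 1)) *
      T ^ (((n : ℝ) - 1) * (n + 2) / 2 * (1 - 2 * ν / ((n : ℝ) - 1)) + ε) :=
  maass_all n hn μ ε hε

end Pool.Agent.Lib.Retired.SpectralDensity
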