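import Mathlib
import Pool.Agent.Lib.H59M.M1.D_H59_SchinzelDefs
import Pool.Agent.Lib.H59M.M1.M087

/-!
# Schinzel's asymptotic formula for almost all constant terms

`G` and `P_1, …, P_g` are fixed polynomials of any degrees `d_i ≥ 1`, `F_i = P_i + h_i`, and `h` varies in a box with sides of
the order of magnitude `X^(d_i)`.

(1) If `G` is linear: for EVERY large `N` the formula Q1 holds for almost all `h`.
(2) For every `G` it holds for almost all pairs `(N, h)`.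
(3) The same with an additional fixed linear polynomial `F_0`.
-/

open Finset Polynomial Pool.Agent.Lib.H59

namespace Pool.Agent.Results.MP_0bf1d2_nt.AlmostAllShifts

/-- The system `P_1 + h_1, …, P_g + h_g`. -/
noncomputable def family {g : ℕ} (P : Fin g → ℤ[X]) (h : Fin g → ℕ) : Fin g → ℤ[X] :=
  fun i => P i + C (h i : ℤ)

/-- The main term `X/(log X)^(g+1) (h_0 h_1 ⋯ h_g)⁻¹ S_z(N)` of Schinzel's formula, `S_z(N)` being the product over the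
primes `p < z` of the factors of `𝔖(N)`. -/
noncomputable def mainTerm {g : ℕ} (F : Fin g → ℤ[X]) (G : ℤ[X]) (N z : ℕ) : ℝ :=
  (argCount G N : ℝ) / Real.log (argCount G N) ^ (g + 1) *
    ((G.natDegree : ℝ) * ∏ i, ((F i).natDegree : ℝ))⁻¹ * seriesTrunc F G N z

/-- `N` is admissible for `F, G`, and `Q_1(N)` differs from the main term by more than `ε` times the main term. -/
def Fails {g : ℕ} (ε : ℝ) (F : Fin g → ℤ[X]) (G : ℤ[X]) (N z : ℕ) : Prop :=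
  Admissible F G N ∧ ε * mainTerm F G N z < |(primeCount F G N : ℝ) - mainTerm F G N z|

/-- The box of the `h` with `1 ≤ h_i ≤ H_i`. -/
def box {g : ℕ} (H : Fin g → ℕ) : Set (Fin g → ℕ) := {h | ∀ i, 1 ≤ h i ∧ h i ≤ H i}

/-- The sides `H_i` of the box are between `X^(d_i)/c` and `c X^(d_i)`, `d_i = deg P_i`. -/
def Sides {g : ℕ} (c : ℝ) (X : ℕ) (P : Fin g → ℤ[X]) (H : Fin g → ℕ) : Prop :=
  ∀ i, (X : ℝ) ^ (P i).natDegree ≤ c * H i ∧ (H i : ℝ) ≤ c * (X : ℝ) ^ (P i).natDegree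

theorem box_eq {g : ℕ} (H : Fin g → ℕ) : box H = (Pool.Agent.Lib.H59X.Box H : Set (Fin g → ℕ)) := by
  ext h
  unfold box Pool.Agent.Lib.H59X.Box
  simp only [Set.mem_ofPred_eq, mem_coe, Fintype.mem_piFinset, mem_Icc]

theorem box_card {g : ℕ} (H : Fin g → ℕ) : ((box H).ncard : ℝ) = Pool.Agent.Lib.H59X.vol H := by
  rw [box_eq, Set.ncard_coe_finset]
  unfold Pool.Agent.Lib.H59X.Box Pool.Agent.Lib.H59X.vol
  rw [Fintype.card_piFinset]
  push_cast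
  refine prod_congr rfl fun i _ => ?_
  rw [Nat.card_Icc, Nat.add_sub_cancel]

theorem fails_iff {g : ℕ} (ε : ℝ) (F : Fin g → ℤ[X]) (G : ℤ[X]) (N z : ℕ) :
    Fails ε F G N z ↔ (Admissible F G N ∧
      ε * (Pool.Agent.Lib.H33B.mainT F G N * seriesTrunc F G N z) <
        |(primeCount F G N : ℝ) - Pool.Agent.Lib.H33B.mainT F G N * seriesTrunc F G N z|) :=
  Iff.rfl

theorem fit {g : ℕ} {c : ℝ} {X : ℕ} {P : Fin g → ℤ[X]} {H : Fin g → ℕ} (h : Sides c X P H) :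
    Pool.Agent.Lib.H59X.Fit c X P H := ⟨fun i => (h i).1, fun i => (h i).2⟩

open Classical in
theorem pairs_card {g : ℕ} (Y : ℕ) (H : Fin g → ℕ) (Q : ℕ × (Fin g → ℕ) → Prop) :
    {x : ℕ × (Fin g → ℕ) | (1 ≤ x.1 ∧ x.1 ≤ Y) ∧ x.2 ∈ box H ∧ Q x}.ncard =
      ((Icc 1 Y ×ˢ Pool.Agent.Lib.H59X.Box H).filter Q).card := by
  rw [← Set.ncard_coe_finset]
  apply congrArg Set.ncard
  ext x
  rw [box_eq]
  simp only [Set.mem_ofPred_eq, coe_filter, mem_product, mem_Icc, mem_coe]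
  tauto

/-- **The main theorem.** -/
theorem result {g : ℕ} (G : ℤ[X]) (hG : 1 ≤ G.natDegree) (hG0 : 0 < G.leadingCoeff)
    (P : Fin g → ℤ[X]) (hP : ∀ i, 1 ≤ (P i).natDegree ∧ 0 < (P i).leadingCoeff)
    (c ε : ℝ) (hc : 1 ≤ c) (hε : 0 < ε) :
    (G.natDegree = 1 → ∃ z₀ N₀ : ℕ, ∀ z N : ℕ, z₀ ≤ z → N₀ ≤ N → z ^ 3 ≤ argCount G N →
      ∀ H : Fin g → ℕ, Sides c (argCount G N) P H →
        ({h | h ∈ box H ∧ Fails ε (family P h) G N z}.ncard : ℝ) ≤ ε * (box H).ncard) ∧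
    (∃ z₀ Y₀ : ℕ, ∀ z Y : ℕ, z₀ ≤ z → Y₀ ≤ Y → z ^ 3 ≤ argCount G Y →
      ∀ H : Fin g → ℕ, Sides c (argCount G Y) P H →
        ({x : ℕ × (Fin g → ℕ) | (1 ≤ x.1 ∧ x.1 ≤ Y) ∧ x.2 ∈ box H ∧
          Fails ε (family P x.2) G x.1 z}.ncard : ℝ) ≤ ε * (Y * (box H).ncard)) ∧
    ∀ F₀ : ℤ[X], F₀.natDegree = 1 → 0 < F₀.leadingCoeff →
      ∃ z₀ Y₀ : ℕ, ∀ z Y : ℕ, z₀ ≤ z → Y₀ ≤ Y → z ^ 3 ≤ argCount G Y →
      ∀ H : Fin g → ℕ, Sides c (argCount G Y) P H →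
        ({x : ℕ × (Fin g → ℕ) | (1 ≤ x.1 ∧ x.1 ≤ Y) ∧ x.2 ∈ box H ∧
          Fails ε (Fin.cons F₀ (family P x.2) : Fin (g + 1) → ℤ[X]) G x.1 z}.ncard : ℝ) ≤
            ε * (Y * (box H).ncard) := by
  classical
  refine ⟨fun hG1 => ?_, ?_, fun F₀ hF hF0 => ?_⟩
  · obtain ⟨z₀, N₀, h⟩ := Pool.Agent.Lib.H59X.exc_fix_z G hG1 hG0 P (fun i => (hP i).1)
      (fun i => (hP i).2) c hc ε hε
    refine ⟨z₀, N₀, fun z N hz hN hzX H hH => ?_⟩
    rw [box_card]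
    refine (le_of_eq ?_).trans (h z N hz hN hzX H (fit hH))
    rw [← Set.ncard_coe_finset]
    apply congrArg (fun s : Set (Fin g → ℕ) => ((s.ncard : ℕ) : ℝ))
    ext x
    rw [box_eq]
    simp only [Set.mem_ofPred_eq, coe_filter, mem_coe, fails_iff]
    rfl
  · obtain ⟨z₀, Y₀, h⟩ := Pool.Agent.Lib.H59X.all_random_z G hG hG0 P (fun i => (hP i).1)
      (fun i => (hP i).2) c hc ε hε
    refine ⟨z₀, Y₀, fun z Y hz hY hzX H hH => ?_⟩
    rw [box_card, pairs_card, ← mul_assoc]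
    refine (le_of_eq ?_).trans (h z Y hz hY hzX H (fit hH))
    congr!
  · obtain ⟨z₀, Y₀, h⟩ := Pool.Agent.Lib.H59X.one_fixed_z G hG hG0 F₀ hF hF0 P
      (fun i => (hP i).1) (fun i => (hP i).2) c hc ε hε
    refine ⟨z₀, Y₀, fun z Y hz hY hzX H hH => ?_⟩
    rw [box_card, pairs_card, ← mul_assoc]
    refine (le_of_eq ?_).trans (h z Y hz hY hzX H (fit hH))
    congr!

end Pool.Agent.Results.MP_0bf1d2_nt.AlmostAllShifts
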