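import Pool.Agent.Lib.H33C.FIN
import Pool.Agent.Lib.H33B.FA2
import Pool.Agent.Lib.H33B.UN

/-!
# Schinzel's formula for almost all `N`: the exact criterion for every pair `(F, G)`

(1) For a system `F = (F_1, …, F_g)` without fixed prime divisor and any single polynomial `G` of degree
`≥ 1`, Schinzel's formula for `(F, G)` holds for almost all admissible `N` (singular series cut off at `z`,
`z → ∞` after `N`; for `deg G ≤ 2` also with the full singular series) if and only if for every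
squarefree `q` the `n` with all `F_i(n)` prime are distributed over the classes `G(n) ≡ c (mod q)` as
predicted by the Bateman–Horn conjecture.
(2) Consequence for a fixed `F`: equivalence of Bateman–Horn for `F` in residue classes, Schinzel's
formula for almost all `N` with `G = x`, with all `G` of degree `≤ 2`, with all `G`.
(3) Consequence for a fixed `G`: Schinzel's formula for `(F, G)`, for all `F` and almost all `N`, is the
Bateman–Horn conjecture.
(4) For `deg G ≤ 2`, Schinzel's formula for the single pair `(F, G)` implies Bateman–Horn for `F`.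
(5) The unconditional theorem behind this: for all `F`, `G` and almost all `N` the number of
representations is the one predicted by the distribution of the prime values of `F` in the
residue classes to small moduli.
-/

open Finset Polynomial
open Pool.Agent.Lib.H59 (primeCount)
open Pool.Agent.Lib.H33B Pool.Agent.Lib.H33C

namespace Pool.Agent.Results.MP_0bf1d2_nt.BatemanHornCriterion

/-- `BHPush` at level one is the Bateman–Horn conjecture for `F`. -/
theorem class_one {g : ℕ} (F : Fin g → ℤ[X]) (G : ℤ[X]) (h : BHPush F G 1) : BHClass F 1 := by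
  classical
  intro b _
  have h1 := h 0
  have h2 : resG F G 1 0 = 1 := by
    unfold resG
    rw [filter_true_of_mem]
    · simp
    · intro b _
      rw [Nat.cast_one]
      exact ⟨isCoprime_one_right, one_dvd _⟩
  have h3 : ∀ x : ℕ, cntG F G 1 0 x = cntF F 1 b x := by
    intro x
    unfold cntG cntF
    rw [filter_true_of_mem, filter_true_of_mem]
    · intro n _
      exact Nat.modEq_one
    · intro n _
      simp
  have h4 : ((1 : ℕ) : ℝ) * (bhConst F 1 / (((1 : ℕ) : ℝ) * ∏ i, ((F i).natDegree : ℝ))) =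
      bhConst F 1 / (((1 : ℕ) : ℝ) * ∏ i, ((F i).natDegree : ℝ)) := by
    rw [Nat.cast_one, one_mul]
  rw [h2, h4] at h1
  refine h1.congr fun x => ?_
  rw [h3]

/-- with a fixed prime divisor no `N` is admissible -/
theorem aaT_fixed {g : ℕ} (F : Fin g → ℤ[X]) (hN : ¬ NoFix F) (G : ℤ[X]) : AlmostAllT F G := by
  classical
  unfold NoFix at hN
  push Not at hN
  obtain ⟨p, hp, hall⟩ := hN
  intro ε hε
  refine ⟨0, fun z _ => ⟨0, fun Y _ => ?_⟩⟩
  rw [filter_false_of_mem]
  · simp only [card_empty, Nat.cast_zero]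
    positivity
  · rintro N _ ⟨hadm, _⟩
    refine hadm.2 p hp fun n => ?_
    rw [eval_mul]
    exact (hall n).mul_right _

theorem result :
    (∀ (g : ℕ) (F : Fin g → ℤ[X]), Sys F → NoFix F → ∀ G : ℤ[X], 1 ≤ G.natDegree →
      0 < G.leadingCoeff →
      (AlmostAllT F G ↔ ∀ q : ℕ, Squarefree q → BHPush F G q) ∧
      (G.natDegree ≤ 2 → (AlmostAll F G ↔ ∀ q : ℕ, Squarefree q → BHPush F G q))) ∧
    (∀ (g : ℕ) (F : Fin g → ℤ[X]), Sys F → NoFix F →
      [∀ q : ℕ, Squarefree q → BHClass F q,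
        AlmostAll F X,
        ∀ G : ℤ[X], 1 ≤ G.natDegree → G.natDegree ≤ 2 → 0 < G.leadingCoeff → AlmostAll F G,
        ∀ G : ℤ[X], 1 ≤ G.natDegree → 0 < G.leadingCoeff → AlmostAllT F G].TFAE) ∧
    (∀ G : ℤ[X], 1 ≤ G.natDegree → 0 < G.leadingCoeff →
      ((∀ (g : ℕ) (F : Fin g → ℤ[X]), Sys F → AlmostAllT F G) ↔
        ∀ (g : ℕ) (F : Fin g → ℤ[X]), Sys F → BHClass F 1) ∧
      (G.natDegree ≤ 2 → ((∀ (g : ℕ) (F : Fin g → ℤ[X]), Sys F → AlmostAll F G) ↔
        ∀ (g : ℕ) (F : Fin g → ℤ[X]), Sys F → BHClass F 1))) ∧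
    (∀ (g : ℕ) (F : Fin g → ℤ[X]), Sys F → ∀ G : ℤ[X], 1 ≤ G.natDegree → G.natDegree ≤ 2 →
      0 < G.leadingCoeff → Q1For F G → BHClass F 1) ∧
    (∀ (g : ℕ) (F : Fin g → ℤ[X]), Sys F → NoFix F → ∀ G : ℤ[X], 1 ≤ G.natDegree →
      0 < G.leadingCoeff → ∀ ε : ℝ, 0 < ε → ∃ w₀ : ℕ, ∀ w : ℕ, w₀ ≤ w → ∃ Y₀ : ℕ, ∀ Y : ℕ, Y₀ ≤ Y →
      ∑ N ∈ Icc 1 Y, |(primeCount F G N : ℝ) * Real.log Y - Mw F G w N| ≤
        ε * Y * dens G g Y) := by
  have kT := fun (g : ℕ) (F : Fin g → ℤ[X]) (hF : Sys F) (hN : NoFix F) (G : ℤ[X])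
    (hk : 1 ≤ G.natDegree) (hl : 0 < G.leadingCoeff) => pair_iff F hF hN G hk hl
  have k2 := fun (g : ℕ) (F : Fin g → ℤ[X]) (hF : Sys F) (hN : NoFix F) (G : ℤ[X])
    (hk : 1 ≤ G.natDegree) (h2 : G.natDegree ≤ 2) (hl : 0 < G.leadingCoeff) =>
    pair_iff_two F hF hN G hk h2 hl
  have hsub : (∀ (g : ℕ) (F : Fin g → ℤ[X]), Sys F → BHClass F 1) → ∀ (g : ℕ) (F : Fin g → ℤ[X]),
      Sys F → NoFix F → ∀ (G : ℤ[X]) (q : ℕ), Squarefree q → BHPush F G q :=
    fun h g F hF hN G q hq => push_of_class F hF G q (Nat.pos_of_ne_zero hq.ne_zero)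
      (bh_sub h g F hF hN q hq)
  refine ⟨fun g F hF hN G hk hl => ⟨kT g F hF hN G hk hl, fun h2 => k2 g F hF hN G hk h2 hl⟩,
    ?_, ?_, ?_, fun g F hF hN G hk hl ε hε => prime_model F hF hN G hk hl ε hε⟩
  · intro g F hF hN
    tfae_have 1 → 4 := fun h G hk hl => (kT g F hF hN G hk hl).2 fun q hq =>
      push_of_class F hF G q (Nat.pos_of_ne_zero hq.ne_zero) (h q hq)
    tfae_have 4 → 3 := fun h G hk h2 hl =>
      (k2 g F hF hN G hk h2 hl).2 ((kT g F hF hN G hk hl).1 (h G hk hl))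
    tfae_have 3 → 2 := fun h => h X (by simp) (by simp) (by simp)
    tfae_have 2 → 1 := (bh_iff F hF hN).2
    tfae_finish
  · intro G hk hl
    refine ⟨⟨fun h g F hF => ?_, fun h g F hF => ?_⟩, fun h2 => ⟨fun h g F hF => ?_,
      fun h g F hF => ?_⟩⟩
    · by_cases hN : NoFix F
      · exact class_one F G ((kT g F hF hN G hk hl).1 (h g F hF) 1 squarefree_one)
      · exact bh_fixed F hF hN
    · by_cases hN : NoFix F
      · exact (kT g F hF hN G hk hl).2 fun q hq => hsub h g F hF hN G q hq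
      · exact aaT_fixed F hN G
    · by_cases hN : NoFix F
      · exact class_one F G ((k2 g F hF hN G hk h2 hl).1 (h g F hF) 1 squarefree_one)
      · exact bh_fixed F hF hN
    · by_cases hN : NoFix F
      · exact (k2 g F hF hN G hk h2 hl).2 fun q hq => hsub h g F hF hN G q hq
      · exact aa_fixed F hN G
  · intro g F hF G hk h2 hl h
    by_cases hN : NoFix F
    · exact class_one F G ((k2 g F hF hN G hk h2 hl).1 (aa_of_Q1 F G h) 1 squarefree_one)
    · exact bh_fixed F hF hN

end Pool.Agent.Results.MP_0bf1d2_nt.BatemanHornCriterion
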