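import Pool.Agent.Lib.H33B.FA2
import Pool.Agent.Lib.H33B.FB
import Pool.Agent.Lib.H33B.FC2
import Pool.Agent.Lib.H33B.UN

/-!
# The almost-all form of Schinzel's conjecture is the Bateman–Horn conjecture

(1) For a system `F = (F_1, …, F_g)` without fixed prime divisor the following are equivalent: the
Bateman–Horn asymptotic formula for `F` in the residue classes to squarefree moduli; Schinzel's
formula for `(F, x)` for almost all admissible `N`; the same for `(F, G)`, every linear `G`; the same for
`(F, G)`, every polynomial `G` of any degree (with the singular series cut off at `z → ∞`).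
(2) So the Bateman–Horn conjecture for all systems is Schinzel's formula with `G = x` for almost all `N`.
(3) The unconditional theorem behind this: for all `F`, `G` and almost all `N` the number of
representations is the one predicted by the distribution of the prime values of `F` in the
residue classes to small moduli.
-/

open Finset Polynomial
open Pool.Agent.Lib.H59 (primeCount)
open Pool.Agent.Lib.H33B

namespace Pool.Agent.Results.MP_0bf1d2_nt.BatemanHornEquivalence

theorem result :
    (∀ (g : ℕ) (F : Fin g → ℤ[X]), Sys F → NoFix F →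
      [∀ q : ℕ, Squarefree q → BHClass F q,
        AlmostAll F X,
        ∀ G : ℤ[X], G.natDegree = 1 → 0 < G.leadingCoeff → AlmostAll F G,
        ∀ G : ℤ[X], 1 ≤ G.natDegree → 0 < G.leadingCoeff → AlmostAllT F G].TFAE) ∧
    ((∀ (g : ℕ) (F : Fin g → ℤ[X]), Sys F → BHClass F 1) ↔
      ∀ (g : ℕ) (F : Fin g → ℤ[X]), Sys F → AlmostAll F X) ∧
    (∀ (g : ℕ) (F : Fin g → ℤ[X]), Sys F → NoFix F → ∀ G : ℤ[X], 1 ≤ G.natDegree →
      0 < G.leadingCoeff → ∀ ε : ℝ, 0 < ε → ∃ w₀ : ℕ, ∀ w : ℕ, w₀ ≤ w → ∃ Y₀ : ℕ, ∀ Y : ℕ, Y₀ ≤ Y →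
      ∑ N ∈ Icc 1 Y, |(primeCount F G N : ℝ) * Real.log Y - Mw F G w N| ≤
        ε * Y * dens G g Y) := by
  have key : ∀ (g : ℕ) (F : Fin g → ℤ[X]), Sys F → NoFix F →
      [∀ q : ℕ, Squarefree q → BHClass F q,
        AlmostAll F X,
        ∀ G : ℤ[X], G.natDegree = 1 → 0 < G.leadingCoeff → AlmostAll F G,
        ∀ G : ℤ[X], 1 ≤ G.natDegree → 0 < G.leadingCoeff → AlmostAllT F G].TFAE := by
    intro g F hF hN
    tfae_have 1 → 4 := fun h G hG hl => aaT_of_bh F hF hN h G hG hl
    tfae_have 4 → 3 := fun h G hG hl => aa_of_aaT F hF hN G hG hl (h G hG.ge hl)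
    tfae_have 3 → 2 := fun h => h X natDegree_X (by simp)
    tfae_have 2 → 1 := fun h q hq => bh_of_aa F hF hN h q hq
    tfae_finish
  refine ⟨key, ⟨fun h g F hF => ?_, fun h g F hF => ?_⟩, fun g F hF hN G hk hl ε hε =>
    prime_model F hF hN G hk hl ε hε⟩
  · by_cases hN : NoFix F
    · exact ((key g F hF hN).out 0 1).mp (fun q hq => bh_sub h g F hF hN q hq)
    · exact aa_fixed F hN X
  · by_cases hN : NoFix F
    · have h1 : ∀ q : ℕ, Squarefree q → BHClass F q :=
        ((key g F hF hN).out 1 0).mp (h g F hF)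
      exact h1 1 squarefree_one
    · exact bh_fixed F hF hN

end Pool.Agent.Results.MP_0bf1d2_nt.BatemanHornEquivalence
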