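import Pool.Agent.Lib.H68G.ST
import Pool.Agent.Lib.H68G.SO
import Pool.Agent.Lib.H68G.CO

/-!
# The quantitative hypothesis of Schinzel for one pair excludes Landau-Siegel zeros

If the lower half of the asymptotic formula of Q1 holds for one pair `(F, a x^(2k))`, then the real
primitive characters `χ` with `χ(-a) = 1` have no Landau-Siegel zeros; Q1 implies that there are
no Landau-Siegel zeros at all.
-/

open Finset Polynomial Filter Pool.Agent.Lib.H59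

namespace Pool.Agent.Results.MP_0bf1d2_nt.LandauSiegel

/-- The main term of Q1, with the singular series cut at `z`:
`X/log^(g+1) X · (h_0 h_1 ⋯ h_g)⁻¹ · ∏_{p < z} (1 - ω_N(p)/p) (1 - 1/p)^(-g-1)`. -/
noncomputable def mainTerm {g : ℕ} (F : Fin g → ℤ[X]) (G : ℤ[X]) (N z : ℕ) : ℝ :=
  (argCount G N : ℝ) / (Real.log (argCount G N)) ^ (g + 1) *
    ((G.natDegree : ℝ) * ∏ i, ((F i).natDegree : ℝ))⁻¹ * seriesTrunc F G N z

/-- The asymptotic formula of Q1 for the pair `(F, G)`. -/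
def Formula {g : ℕ} (F : Fin g → ℤ[X]) (G : ℤ[X]) : Prop :=
  ∀ ε : ℝ, 0 < ε → ∃ N₀ : ℕ, ∀ N : ℕ, N₀ ≤ N → Admissible F G N →
    ∀ᶠ z : ℕ in atTop, |(primeCount F G N : ℝ) - mainTerm F G N z| ≤ ε * mainTerm F G N z

/-- The lower half of it, with any positive constant in place of `1`. -/
def LowerHalf {g : ℕ} (F : Fin g → ℤ[X]) (G : ℤ[X]) : Prop :=
  ∃ δ : ℝ, 0 < δ ∧ ∃ N₀ : ℕ, ∀ N : ℕ, N₀ ≤ N → Admissible F G N →
    ∀ᶠ z : ℕ in atTop, δ * mainTerm F G N z ≤ (primeCount F G N : ℝ)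

/-- The statement Q1. -/
def SchinzelQ1 : Prop :=
  ∀ (g : ℕ) (F : Fin g → ℤ[X]) (G : ℤ[X]), 1 ≤ g → (∀ i, Irreducible (F i)) →
    (∀ i, 1 ≤ (F i).natDegree ∧ 0 < (F i).leadingCoeff) → Function.Injective F →
    1 ≤ G.natDegree → 0 < G.leadingCoeff → Formula F G

/-- There is `c > 0` such that all real primitive characters `χ ≠ 1` modulo `r` in the given family
have `L(1,χ) ≥ c/log r` and no real zero of `L(s,χ)` in `[1 - c/log r, 1]`. -/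
def NoLandauSiegel (P : ∀ r : ℕ, DirichletCharacter ℂ r → Prop) : Prop :=
  ∃ c : ℝ, 0 < c ∧ ∀ (r : ℕ) [NeZero r] (χ : DirichletCharacter ℂ r), χ.IsPrimitive → χ ≠ 1 →
    χ ^ 2 = 1 → P r χ → c / Real.log r ≤ ‖χ.LFunction 1‖ ∧
      ∀ σ : ℝ, 1 - c / Real.log r ≤ σ → σ ≤ 1 → χ.LFunction (σ : ℂ) ≠ 0

theorem formula_lower {g : ℕ} {F : Fin g → ℤ[X]} {G : ℤ[X]} (h : Formula F G) :
    LowerHalf F G := by
  obtain ⟨N₀, hN₀⟩ := h (1 / 2) (by norm_num)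
  refine ⟨1 / 2, by norm_num, N₀, fun N hN hA => ?_⟩
  filter_upwards [hN₀ N hN hA] with z hz
  have := (abs_le.1 hz).1
  linarith

theorem two_le {r : ℕ} [NeZero r] {χ : DirichletCharacter ℂ r} (h : χ ≠ 1) : 2 ≤ r := by
  have h0 : r ≠ 0 := NeZero.ne r
  have h1 : r ≠ 1 := by
    rintro rfl
    exact h (DirichletCharacter.level_one χ)
  omega

theorem assemble (P : ∀ r : ℕ, DirichletCharacter ℂ r → Prop) (C : ℝ) (hC : 0 < C) (r₀ : ℕ)
    (H : ∀ (r : ℕ) [NeZero r] (χ : DirichletCharacter ℂ r), r₀ ≤ r → Pool.Agent.Lib.H68G.RP χ →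
      P r χ → Pool.Agent.Lib.H68G.Star C χ) : NoLandauSiegel P := by
  obtain ⟨c₁, hc₁, r₁, h₁⟩ := Pool.Agent.Lib.H68G.star_concl C hC
  obtain ⟨c₂, hc₂, h₂⟩ := Pool.Agent.Lib.H68G.small_concl (max r₀ r₁)
  refine ⟨min c₁ c₂, lt_min hc₁ hc₂, fun r _ χ hp h1 h2 hP => ?_⟩
  have hr : 2 ≤ r := two_le h1
  have key : Pool.Agent.Lib.H68G.Concl (min c₁ c₂) χ := by
    rcases lt_or_ge r (max r₀ r₁) with h | h
    · exact Pool.Agent.Lib.H68G.Concl.mono (by omega) (h₂ r χ h hr h1) (min_le_right _ _)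
    · exact Pool.Agent.Lib.H68G.Concl.mono (by omega)
        (h₁ r χ ((le_max_right _ _).trans h) ⟨hp, h1, h2⟩
          (H r χ ((le_max_left _ _).trans h) ⟨hp, h1, h2⟩ hP)) (min_le_left _ _)
  exact key

theorem even_case (g : ℕ) (F : Fin g → ℤ[X]) (a k : ℕ) (hF : ∀ i, Irreducible (F i))
    (hFd : ∀ i, 1 ≤ (F i).natDegree)
    (hfix : ∀ p : ℕ, p.Prime → ∃ n : ℤ, ¬ (p : ℤ) ∣ (X * ∏ i, F i : ℤ[X]).eval n)
    (ha : 1 ≤ a) (hk : 1 ≤ k) (h : LowerHalf F (C (a : ℤ) * X ^ (2 * k))) :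
    NoLandauSiegel fun r χ => χ (-(a : ZMod r)) = 1 := by
  obtain ⟨C, hC, r₀, H⟩ := Pool.Agent.Lib.H68G.star_even F ⟨hF, hFd, hfix⟩ a (2 * k) ha
    (by omega) ⟨k, by ring⟩ h
  exact assemble _ C hC r₀ H

theorem odd_case (a k : ℕ) (ha : 1 ≤ a)
    (h : LowerHalf (fun _ : Fin 1 => (X : ℤ[X])) (C (a : ℤ) * X ^ (2 * k + 1))) :
    NoLandauSiegel fun r χ => χ (-(a : ZMod r)) = -1 := by
  obtain ⟨C, hC, r₀, H⟩ := Pool.Agent.Lib.H68G.star_odd a (2 * k + 1) ha ⟨k, rfl⟩ h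
  exact assemble _ C hC r₀ H

theorem q1_case (h : SchinzelQ1) : NoLandauSiegel fun _ _ => True := by
  have hX : ∀ i : Fin 1, Irreducible ((fun _ : Fin 1 => (X : ℤ[X])) i) := fun _ => irreducible_X
  have hXd : ∀ i : Fin 1, 1 ≤ ((fun _ : Fin 1 => (X : ℤ[X])) i).natDegree ∧
      0 < ((fun _ : Fin 1 => (X : ℤ[X])) i).leadingCoeff := fun _ => by simp
  have hG : ∀ m : ℕ, 1 ≤ m → 1 ≤ (C ((1 : ℕ) : ℤ) * X ^ m : ℤ[X]).natDegree ∧
      0 < (C ((1 : ℕ) : ℤ) * X ^ m : ℤ[X]).leadingCoeff := fun m hm => by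
    simp [hm]
  have hf : ∀ m : ℕ, 1 ≤ m → LowerHalf (fun _ : Fin 1 => (X : ℤ[X])) (C ((1 : ℕ) : ℤ) * X ^ m) :=
    fun m hm => formula_lower (h 1 _ _ le_rfl hX hXd (fun i j _ => Subsingleton.elim i j)
      (hG m hm).1 (hG m hm).2)
  obtain ⟨c₁, hc₁, h₁⟩ := even_case 1 (fun _ => X) 1 1 hX (fun i => (hXd i).1)
    Pool.Agent.Lib.H68G.sys_x.fix le_rfl le_rfl (hf 2 (by omega))
  obtain ⟨c₂, hc₂, h₂⟩ := odd_case 1 0 le_rfl (hf 1 (by omega))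
  refine ⟨min c₁ c₂, lt_min hc₁ hc₂, fun r _ χ hp h1 h2 _ => ?_⟩
  have hr : 1 ≤ r := by have := two_le h1; omega
  have hpm : χ (-((1 : ℕ) : ZMod r)) = 1 ∨ χ (-((1 : ℕ) : ZMod r)) = -1 := by
    have h3 : χ (-((1 : ℕ) : ZMod r)) ^ 2 = 1 := by
      rw [← map_pow]
      simp
    rw [sq] at h3
    exact mul_self_eq_one_iff.1 h3
  have key : Pool.Agent.Lib.H68G.Concl (min c₁ c₂) χ := by
    rcases hpm with h | h
    · exact Pool.Agent.Lib.H68G.Concl.mono hr (h₁ r χ hp h1 h2 h) (min_le_left _ _)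
    · exact Pool.Agent.Lib.H68G.Concl.mono hr (h₂ r χ hp h1 h2 h) (min_le_right _ _)
  exact key

/-- **Theorem.** (1) Let `F = (F_1, …, F_g)` be irreducible polynomials of positive degree such that
`x F_1 ⋯ F_g` has no fixed prime divisor, and `a, k ≥ 1`. If the lower half of the formula of Q1
holds for the single pair `(F, a x^(2k))`, then there are no Landau-Siegel zeros for the real
primitive characters with `χ(-a) = 1`. (2) The same for `(x, a x^(2k+1))` and `χ(-a) = -1`.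
(3) Q1 implies that there are no Landau-Siegel zeros. -/
theorem result :
    (∀ (g : ℕ) (F : Fin g → ℤ[X]) (a k : ℕ), (∀ i, Irreducible (F i)) →
      (∀ i, 1 ≤ (F i).natDegree) →
      (∀ p : ℕ, p.Prime → ∃ n : ℤ, ¬ (p : ℤ) ∣ (X * ∏ i, F i : ℤ[X]).eval n) →
      1 ≤ a → 1 ≤ k → LowerHalf F (C (a : ℤ) * X ^ (2 * k)) →
      NoLandauSiegel fun r χ => χ (-(a : ZMod r)) = 1) ∧
    (∀ a k : ℕ, 1 ≤ a →
      LowerHalf (fun _ : Fin 1 => (X : ℤ[X])) (C (a : ℤ) * X ^ (2 * k + 1)) →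
      NoLandauSiegel fun r χ => χ (-(a : ZMod r)) = -1) ∧
    (SchinzelQ1 → NoLandauSiegel fun _ _ => True) :=
  ⟨even_case, odd_case, q1_case⟩

end Pool.Agent.Results.MP_0bf1d2_nt.LandauSiegel
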