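import Mathlib
import Pool.Agent.Lib.H59.SchinzelDefs
import Pool.Agent.Lib.H59W.Fin
import Pool.Agent.Lib.H59W.FinP
import Pool.Agent.Lib.H59W.U1
import Pool.Agent.Lib.H57M.Q5
import Pool.Agent.Lib.H57M.Q6
import Pool.Agent.Lib.H57M.EngA

/-!
# Prime tuples for almost all `N`, lower bounds of the right order

(1) The Maynard–Tao theorem for the `n` with `N - G(n)` prime, for almost all `N`, with a lower bound of the right order.
(2) All `g + 1` values prime, a lower bound of the right order on average over the shifts `h_i ≤ λ log X`.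
(3) All `g + 1` values prime, for a positive proportion of the tuples `h_1 < ⋯ < h_g`, a positive upper density of the `N`.
-/

open Finset Polynomial Pool.Agent.Lib.H59

namespace Pool.Agent.Results.MP_0bf1d2_nt.MaynardRightOrder

/-- The system `x + h`, `h ∈ H` (in increasing order). -/
noncomputable def translates (H : Finset ℕ) : Fin H.card → ℤ[X] :=
  fun i => X + C ((H.orderEmbOfFin rfl i : ℕ) : ℤ)

/-- The main term `X/(log X)^(g+1) (h_0 h_1 ⋯ h_g)⁻¹ S_z(N)` of Schinzel's formula, `S_z(N)` being the product over the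
primes `p < z` of the factors of `𝔖(N)`. -/
noncomputable def mainTerm {g : ℕ} (F : Fin g → ℤ[X]) (G : ℤ[X]) (N z : ℕ) : ℝ :=
  (argCount G N : ℝ) / Real.log (argCount G N) ^ (g + 1) *
    ((G.natDegree : ℝ) * ∏ i, ((F i).natDegree : ℝ))⁻¹ * seriesTrunc F G N z

/-- The number of the `n` with `N - G(n)` prime and `A(n)`. -/
noncomputable def count (A : ℕ → Prop) (G : ℤ[X]) (N : ℕ) : ℕ :=
  {n : ℕ | n ∈ argSet G N ∧ (∃ q : ℕ, q.Prime ∧ (N : ℤ) - G.eval (n : ℤ) = q) ∧ A n}.ncard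

/-- The number of the `N ∈ S` with `1 ≤ N ≤ Y`. -/
noncomputable def upTo (S : Set ℕ) (Y : ℕ) : ℕ := {N : ℕ | N ∈ S ∧ 1 ≤ N ∧ N ≤ Y}.ncard

/-- `S` has positive upper density. -/
def PosUpperDensity (S : Set ℕ) : Prop :=
  ∃ δ : ℝ, 0 < δ ∧ ∀ Y₁ : ℕ, ∃ Y : ℕ, Y₁ ≤ Y ∧ δ * Y ≤ upTo S Y

/-- All the `n + h`, `h ∈ H`, are free of prime factors `≤ t`, and at least `g` of them are primes. -/
def Tuple (H : Finset ℕ) (g : ℕ) (t : ℝ) (n : ℕ) : Prop :=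
  (∀ h ∈ H, ∀ p : ℕ, p.Prime → p ∣ n + h → t < p) ∧
    g ≤ (H.filter (fun h => (n + h).Prime)).card

/-- The system `a x + h_1, …, a x + h_g`. -/
noncomputable def shifts {g : ℕ} (a : ℕ) (h : Fin g → ℕ) : Fin g → ℤ[X] :=
  fun i => C (a : ℤ) * X + C (h i : ℤ)

open Classical in
/-- The tuples `0 ≤ h_1 < ⋯ < h_g ≤ t` for which `N` is admissible. -/
noncomputable def tuples (g a : ℕ) (t : ℝ) (G : ℤ[X]) (N : ℕ) : Finset (Fin g → ℕ) :=
  (Fintype.piFinset fun _ => Icc 0 ⌊t⌋₊).filter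
    (fun h => StrictMono h ∧ Admissible (shifts a h) G N)

theorem upTo_eq (P : ℕ → Prop) (Y : ℕ) : upTo {N | P N} Y = Pool.Agent.Lib.H59W.cnt P Y := by
  classical
  unfold upTo Pool.Agent.Lib.H59W.cnt
  rw [← Set.ncard_coe_finset]
  apply congrArg Set.ncard
  ext N
  simp only [Set.mem_ofPred_eq, coe_filter, mem_Icc]
  tauto

theorem finite_args (G : ℤ[X]) (N Y : ℕ) (hN : N ≤ Y)
    (hY : ∀ n : ℕ, n ∈ argSet G Y ↔ 1 ≤ n ∧ n ≤ argCount G Y) : (argSet G N).Finite := by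
  refine (Set.finite_Icc 1 (argCount G Y)).subset fun n hn => ?_
  have h4 : n ∈ argSet G Y := by
    obtain ⟨h5, h6⟩ := hn
    refine ⟨h5, ?_⟩
    have : (N : ℤ) ≤ Y := by exact_mod_cast hN
    omega
  exact Set.mem_Icc.2 ((hY n).1 h4)

theorem cnt_le_count (G : ℤ[X]) (N Y : ℕ) (hN : N ≤ Y)
    (hY : ∀ n : ℕ, n ∈ argSet G Y ↔ 1 ≤ n ∧ n ≤ argCount G Y) (A B : ℕ → Prop)
    (hAB : ∀ n, A n → B n) (x : ℕ) :
    Pool.Agent.Lib.H59W.cnt (fun n => A n ∧ Pool.Agent.Lib.H59W.PG G N n) x ≤ count B G N := by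
  classical
  unfold Pool.Agent.Lib.H59W.cnt count
  rw [← Set.ncard_coe_finset]
  refine Set.ncard_le_ncard (fun n hn => ?_)
    ((finite_args G N Y hN hY).subset fun n hn => hn.1)
  simp only [coe_filter, mem_Icc, Set.mem_ofPred_eq] at hn
  obtain ⟨⟨h4, h5⟩, h6, q, hq, h7⟩ := hn
  refine ⟨⟨h4, ?_⟩, ⟨q, hq, h7⟩, hAB _ h6⟩
  rw [h7]
  exact_mod_cast hq.pos

theorem natDegree_shift (a k : ℕ) (ha : 1 ≤ a) : (C (a : ℤ) * X + C (k : ℤ)).natDegree = 1 :=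
  natDegree_linear (by exact_mod_cast (by omega : a ≠ 0))

theorem tuples_eq (g a : ℕ) (lam : ℝ) (G : ℤ[X]) (N : ℕ) :
    tuples g a (lam * Real.log (argCount G N)) G N =
      Pool.Agent.Lib.H59W.AdmTup g a lam G N := by
  classical
  unfold tuples Pool.Agent.Lib.H59W.AdmTup Pool.Agent.Lib.H59W.Tup
  ext h
  simp only [mem_filter, Fintype.mem_piFinset, mem_Icc, mem_range]
  constructor
  · rintro ⟨h1, h2, h3⟩
    exact ⟨⟨fun i => by have := (h1 i).2; omega, h2⟩, h3⟩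
  · rintro ⟨⟨h1, h2⟩, h3⟩
    exact ⟨fun i => ⟨Nat.zero_le _, by have := h1 i; omega⟩, h2, h3⟩

theorem mainTerm_shifts {g : ℕ} (a : ℕ) (ha : 1 ≤ a) (h : Fin g → ℕ) (G : ℤ[X]) (N z : ℕ) :
    mainTerm (shifts a h) G N z = Pool.Agent.Lib.H59W.mt a h G N z := by
  unfold mainTerm Pool.Agent.Lib.H59W.mt
  have h1 : ∀ i, (shifts a h i).natDegree = 1 := fun i => natDegree_shift a (h i) ha
  simp only [h1, Nat.cast_one, prod_const_one, mul_one]
  rfl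

theorem shifts_one {g : ℕ} (h : Fin g → ℕ) : shifts 1 h = Pool.Agent.Lib.H57M.sysF h := by
  funext i
  unfold shifts Pool.Agent.Lib.H57M.sysF
  simp

theorem card_cnt (P : ℕ → Prop) (i : DecidablePred P) (Y : ℕ) :
    ((@Finset.filter ℕ P i (Icc 1 Y)).card : ℝ) = Pool.Agent.Lib.H59W.cnt P Y := by
  classical
  unfold Pool.Agent.Lib.H59W.cnt
  congr!

/-- **The main theorem.** -/
theorem result (g : ℕ) (hg : 1 ≤ g) :
    (∃ K : ℕ, ∀ H : Finset ℕ, K ≤ H.card → ∃ δ : ℝ, 0 < δ ∧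
      ∀ G : ℤ[X], 1 ≤ G.natDegree → 0 < G.leadingCoeff → ∃ c : ℝ, 0 < c ∧ ∀ ε : ℝ, 0 < ε →
      ∃ z₀ Y₀ : ℕ, ∀ z Y : ℕ, z₀ ≤ z → Y₀ ≤ Y → z ^ 3 ≤ argCount G Y →
        (upTo {N | Admissible (translates H) G N ∧
          (count (Tuple H g ((argCount G N : ℝ) ^ δ)) G N : ℝ) <
            c * mainTerm (translates H) G N z} Y : ℝ) ≤ ε * Y) ∧
    (∀ (a : ℕ) (G : ℤ[X]) (lam : ℝ), 1 ≤ a → 1 ≤ G.natDegree → 0 < G.leadingCoeff →
      0 < lam → ∃ c : ℝ, 0 < c ∧ ∀ ε : ℝ, 0 < ε → ∃ z₀ : ℕ, ∀ z : ℕ, z₀ ≤ z → ∃ Y₀ : ℕ,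
      ∀ Y : ℕ, Y₀ ≤ Y →
        (upTo {N |
          ∑ h ∈ tuples g a (lam * Real.log (argCount G N)) G N,
              (primeCount (shifts a h) G N : ℝ) <
            c * ∑ h ∈ tuples g a (lam * Real.log (argCount G N)) G N,
              mainTerm (shifts a h) G N z} Y : ℝ) ≤ ε * Y) ∧
    ∃ (B c : ℝ) (T₀ : ℕ), 0 < B ∧ 0 < c ∧ ∀ G : ℤ[X], 1 ≤ G.natDegree → 0 < G.leadingCoeff →
      ∀ T : ℕ, T₀ ≤ T → c * (T : ℝ) ^ g ≤
        {h : Fin g → ℕ | StrictMono h ∧ (∀ i, h i < T) ∧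
          PosUpperDensity {N | Admissible (shifts 1 h) G N ∧
            (argCount G N : ℝ) / Real.log (argCount G N) ^ B ≤
              primeCount (shifts 1 h) G N}}.ncard := by
  classical
  refine ⟨?_, fun a G lam ha hG hl hlam => ?_, ?_⟩
  · obtain ⟨K, hK⟩ := Pool.Agent.Lib.H59W.maynard_values g hg
    refine ⟨max K 1, fun H hH => ?_⟩
    obtain ⟨δ, hδ, h0⟩ := hK H ((le_max_left _ _).trans hH)
    refine ⟨δ, hδ, fun G hG hl => ?_⟩
    obtain ⟨c, hc, h1⟩ := Pool.Agent.Lib.H59W.range_z (Pool.Agent.Lib.H59W.FH H)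
      (Pool.Agent.Lib.H59W.FH_sys H ((le_max_right _ _).trans hH)) G hG hl _ (h0 G hG hl)
    refine ⟨c, hc, fun ε hε => ?_⟩
    obtain ⟨z0, Y0, h2⟩ := h1 ε hε
    obtain ⟨Y1, hY1⟩ := Pool.Agent.Lib.H57M.argSet_eq G hG hl
    refine ⟨z0, max Y0 Y1, fun z Y hz hY hzX => ?_⟩
    refine le_trans ?_ (h2 z Y hz ((le_max_left _ _).trans hY) hzX)
    rw [upTo_eq]
    refine Nat.cast_le.2 (Pool.Agent.Lib.H59W.cnt_mono fun N _ hN hN2 => ⟨hN2.1, ?_⟩)
    refine lt_of_le_of_lt ?_ hN2.2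
    exact Nat.cast_le.2 (cnt_le_count G N Y hN (hY1 Y ((le_max_right _ _).trans hY)) _ _
      (fun n h => h) _)
  · obtain ⟨c, hc, h1⟩ := Pool.Agent.Lib.H59W.average G hG hl g a hg ha lam hlam
    refine ⟨c, hc, fun ε hε => ?_⟩
    obtain ⟨z0, h2⟩ := h1 ε hε
    refine ⟨z0, fun z hz => ?_⟩
    obtain ⟨Y0, h3⟩ := h2 z hz
    refine ⟨Y0, fun Y hY => ?_⟩
    refine le_trans ?_ (h3 Y hY)
    rw [upTo_eq]
    refine Nat.cast_le.2 (Pool.Agent.Lib.H59W.cnt_mono fun N _ _ hN => ?_)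
    rw [tuples_eq] at hN
    refine lt_of_lt_of_eq hN ?_
    congr 1
    exact sum_congr rfl fun h _ => mainTerm_shifts a ha h G N z
  · obtain ⟨K, hK1, B, hB, hK⟩ := Pool.Agent.Lib.H57M.almost_all' g hg
    obtain ⟨c, hc, T₀, hT⟩ := Pool.Agent.Lib.H57M.many_tuples g (max K g) (le_max_right _ _)
    refine ⟨B, c, T₀, hB, hc, fun G hG hl T hTT => ?_⟩
    have hE := Pool.Agent.Lib.H57M.engine_all G hG hl
    have h3 := hT (fun h => PosUpperDensity {N | Admissible (shifts 1 h) G N ∧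
        (argCount G N : ℝ) / Real.log (argCount G N) ^ B ≤ primeCount (shifts 1 h) G N})
      (fun H hH hA => by
        obtain ⟨h, h1, h2, δ, hδ, h3⟩ := Pool.Agent.Lib.H57M.fixed_system' g K B hK H
          ((le_max_left _ _).trans hH) hA G hG hl hE
        refine ⟨h, h1, h2, δ, hδ, fun Y₁ => ?_⟩
        obtain ⟨Y, hY, h4⟩ := h3 Y₁
        refine ⟨Y, hY, h4.trans (le_of_eq ?_)⟩
        rw [shifts_one, upTo_eq]
        exact card_cnt _ _ Y) T hTT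
    refine h3.trans (le_of_eq ?_)
    rw [← Set.ncard_coe_finset]
    apply congrArg (fun s : Set (Fin g → ℕ) => ((s.ncard : ℕ) : ℝ))
    ext h
    simp only [Set.mem_ofPred_eq, coe_filter, Fintype.mem_piFinset, mem_range]
    tauto

end Pool.Agent.Results.MP_0bf1d2_nt.MaynardRightOrder
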