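import Mathlib
import Pool.Agent.Lib.H59.SchinzelDefs
import Pool.Agent.Lib.H57M.Q5
import Pool.Agent.Lib.H57M.Q6
import Pool.Agent.Lib.H57M.EngA

/-!
# Prime values of `x + h_1, …, x + h_g, N - G(x)` for almost all `N`

For every `g` there are `K` and `B` such that, for every polynomial `G` and every set `H` of at least
`K` natural numbers, almost all `N` for which `∏_{h ∈ H} (x + h) (N - G)` has no fixed prime divisor
satisfy `Q_1(N) ≥ X/(log X)^B` for one of the systems `F_i = x + h_i` with `h_1 < ⋯ < h_g` in `H`.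
-/

open Finset Polynomial Pool.Agent.Lib.H59

namespace Pool.Agent.Results.MP_0bf1d2_nt.MaynardTuples

/-- The system `F_i = x + h_i`. -/
noncomputable def shifts {g : ℕ} (h : Fin g → ℕ) : Fin g → ℤ[X] := fun i => X + C (h i : ℤ)

/-- `N` is admissible for the system `x + h_1, …, x + h_g` and `G`, and
`Q_1(N) ≥ X/(log X)^B`. -/
def Rep {g : ℕ} (B : ℝ) (G : ℤ[X]) (h : Fin g → ℕ) (N : ℕ) : Prop :=
  Admissible (shifts h) G N ∧
    (argCount G N : ℝ) / Real.log (argCount G N) ^ B ≤ primeCount (shifts h) G N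

/-- The polynomial `∏_{h ∈ H} (x + h) · (N - G)` has no fixed prime divisor. -/
def NoFixed (H : Finset ℕ) (G : ℤ[X]) (N : ℕ) : Prop :=
  ∀ p : ℕ, p.Prime → ¬ ∀ n : ℤ, (p : ℤ) ∣ ((∏ h ∈ H, (X + C (h : ℤ))) * (C (N : ℤ) - G)).eval n

/-- The polynomial `∏_{h ∈ H} (x + h)` has no fixed prime divisor. -/
def Adm (H : Finset ℕ) : Prop :=
  ∀ p : ℕ, p.Prime → ¬ ∀ n : ℤ, (p : ℤ) ∣ (∏ h ∈ H, (X + C (h : ℤ))).eval n

/-- The number of the `N ∈ S` with `1 ≤ N ≤ Y`. -/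
noncomputable def count (S : Set ℕ) (Y : ℕ) : ℕ := {N : ℕ | N ∈ S ∧ 1 ≤ N ∧ N ≤ Y}.ncard

/-- `S` has natural density zero. -/
def DensityZero (S : Set ℕ) : Prop :=
  ∀ ε : ℝ, 0 < ε → ∃ Y₀ : ℕ, ∀ Y : ℕ, Y₀ ≤ Y → (count S Y : ℝ) ≤ ε * Y

/-- `S` has positive upper density. -/
def PosUpperDensity (S : Set ℕ) : Prop :=
  ∃ δ : ℝ, 0 < δ ∧ ∀ Y₁ : ℕ, ∃ Y : ℕ, Y₁ ≤ Y ∧ δ * Y ≤ count S Y

open Classical in
theorem count_eq (P : ℕ → Prop) (Y : ℕ) :
    count {N | P N} Y = ((Icc 1 Y).filter (fun N => P N)).card := by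
  unfold count
  rw [← Set.ncard_coe_finset]
  apply congrArg Set.ncard
  ext N
  simp only [Set.mem_ofPred_eq, coe_filter, mem_Icc]
  tauto

theorem card_inst (P Q : ℕ → Prop) (h : ∀ N, P N ↔ Q N) (i1 : DecidablePred P)
    (i2 : DecidablePred Q) (s : Finset ℕ) :
    ((@Finset.filter ℕ P i1 s).card : ℝ) = (@Finset.filter ℕ Q i2 s).card := by
  apply congrArg (fun t : Finset ℕ => ((t.card : ℕ) : ℝ))
  ext N
  rw [mem_filter, mem_filter, h N]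

theorem adm_of (H : Finset ℕ) (h : Adm H) : Pool.Agent.Lib.H57M.Adm H := by
  intro p hp
  by_contra hcon
  push Not at hcon
  apply h p hp
  intro n
  have hp0 : (0 : ℤ) < p := by exact_mod_cast hp.pos
  obtain ⟨v, hv⟩ : ∃ v : ℕ, (v : ℤ) = n % p :=
    ⟨(n % p).toNat, Int.toNat_of_nonneg (Int.emod_nonneg _ hp0.ne')⟩
  have h1 := hcon v
  have h2 : (p : ℤ) ∣ ∏ k ∈ H, ((v : ℤ) + (k : ℤ)) := by
    have : ((p : ℕ) : ℤ) ∣ ((∏ k ∈ H, (v + k) : ℕ) : ℤ) := by exact_mod_cast h1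
    push_cast at this
    exact this
  have hpp : Prime (p : ℤ) := Nat.prime_iff_prime_int.1 hp
  obtain ⟨k, hk, h3⟩ := hpp.exists_mem_finset_dvd h2
  rw [eval_prod]
  refine Dvd.dvd.trans ?_ (Finset.dvd_prod_of_mem _ hk)
  rw [eval_add, eval_X, eval_C]
  have h4 : n + (k : ℤ) = ((v : ℤ) + k) + p * (n / p) := by
    rw [hv]
    have := Int.emod_add_mul_ediv n p
    linarith
  rw [h4]
  exact dvd_add h3 (dvd_mul_right _ _)

theorem of_adm (H : Finset ℕ) (h : Pool.Agent.Lib.H57M.Adm H) : Adm H := by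
  intro p hp hall
  obtain ⟨v, hv⟩ := h p hp
  apply hv
  have h1 := hall v
  rw [eval_prod] at h1
  have h2 : ((p : ℕ) : ℤ) ∣ ((∏ k ∈ H, (v + k) : ℕ) : ℤ) := by
    push_cast
    simpa using h1
  exact_mod_cast h2

/-- The main theorem. -/
theorem result (g : ℕ) (hg : 1 ≤ g) : ∃ (K : ℕ) (B c : ℝ) (T₀ : ℕ), 0 < B ∧ 0 < c ∧
    ∀ G : ℤ[X], 1 ≤ G.natDegree → 0 < G.leadingCoeff →
      (∀ H : Finset ℕ, K ≤ H.card →
        DensityZero {N | NoFixed H G N ∧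
          ¬ ∃ h : Fin g → ℕ, StrictMono h ∧ (∀ i, h i ∈ H) ∧ Rep B G h N}) ∧
      (∀ H : Finset ℕ, K ≤ H.card → Adm H →
        ∃ h : Fin g → ℕ, StrictMono h ∧ (∀ i, h i ∈ H) ∧ PosUpperDensity {N | Rep B G h N}) ∧
      ∀ T : ℕ, T₀ ≤ T → c * (T : ℝ) ^ g ≤
        {h : Fin g → ℕ | StrictMono h ∧ (∀ i, h i < T) ∧
          PosUpperDensity {N | Rep B G h N}}.ncard := by
  classical
  obtain ⟨K, hK1, B, hB, hK⟩ := Pool.Agent.Lib.H57M.almost_all' g hg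
  obtain ⟨c, hc, T₀, hT⟩ := Pool.Agent.Lib.H57M.many_tuples g (max K g) (le_max_right _ _)
  refine ⟨K, B, c, T₀, hB, hc, fun G hG hl => ?_⟩
  have hE := Pool.Agent.Lib.H57M.engine_all G hG hl
  have h2 : ∀ H : Finset ℕ, K ≤ H.card → Adm H →
      ∃ h : Fin g → ℕ, StrictMono h ∧ (∀ i, h i ∈ H) ∧ PosUpperDensity {N | Rep B G h N} := by
    intro H hH hA
    obtain ⟨h, h1, h2, δ, hδ, h3⟩ := Pool.Agent.Lib.H57M.fixed_system' g K B hK H hH
      (adm_of H hA) G hG hl hE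
    refine ⟨h, h1, h2, δ, hδ, fun Y₁ => ?_⟩
    obtain ⟨Y, hY, h4⟩ := h3 Y₁
    refine ⟨Y, hY, ?_⟩
    rw [count_eq]
    exact h4.trans (le_of_eq (card_inst _ _ (fun N => Iff.rfl) _ _ _))
  refine ⟨fun H hH ε hε => ?_, h2, fun T hTT => ?_⟩
  · obtain ⟨Y₀, hY₀⟩ := hK H hH G hG hl hE ε hε
    refine ⟨Y₀, fun Y hY => ?_⟩
    rw [count_eq]
    exact (le_of_eq (card_inst _ _ (fun N => Iff.rfl) _ _ _)).trans (hY₀ Y hY)
  · have h3 := hT (fun h => PosUpperDensity {N | Rep B G h N}) (fun H hH hA =>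
      h2 H ((le_max_left _ _).trans hH) (of_adm H hA)) T hTT
    refine h3.trans (le_of_eq ?_)
    rw [← Set.ncard_coe_finset]
    apply congrArg (fun s : Set (Fin g → ℕ) => ((s.ncard : ℕ) : ℝ))
    ext h
    simp only [Set.mem_ofPred_eq, coe_filter, Fintype.mem_piFinset, mem_range]
    tauto

end Pool.Agent.Results.MP_0bf1d2_nt.MaynardTuples
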