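import Mathlib
import Pool.Agent.Lib.H59.SchinzelDefs
import Pool.Agent.Lib.H24P.FC
import Pool.Agent.Lib.H24P.K5

/-!
# Schinzel's problem with varying constant terms: power-saving exceptional sets

`G` and `P_1, …, P_g` are fixed polynomials of any degrees `d_i ≥ 1`, `F_i = P_i + h_i`, and `h` varies in a box with sides of
the order of magnitude `X^(d_i)`.

(1) If `G` is linear: for EVERY large `N`, for all `h` in the box outside a set of a proportion at most `X^(-δ)`, `N` is not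
admissible or `Q_1(N) ≥ X^(1-ε)`.
(2) For every `G` the same holds for the pairs `(N, h)`.
(3) The same with an additional fixed linear polynomial `F_0`.
-/

open Finset Polynomial Pool.Agent.Lib.H59

namespace Pool.Agent.Results.MP_0bf1d2_nt.PowerSavingShifts

/-- The system `P_1 + h_1, …, P_g + h_g`. -/
noncomputable def family {g : ℕ} (P : Fin g → ℤ[X]) (h : Fin g → ℕ) : Fin g → ℤ[X] :=
  fun i => P i + C (h i : ℤ)

/-- `N` is admissible for `F, G`, and `Q_1(N) < T`. -/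
def Few {g : ℕ} (T : ℝ) (F : Fin g → ℤ[X]) (G : ℤ[X]) (N : ℕ) : Prop :=
  Admissible F G N ∧ (primeCount F G N : ℝ) < T

/-- The box of the `h` with `1 ≤ h_i ≤ H_i`. -/
def box {g : ℕ} (H : Fin g → ℕ) : Set (Fin g → ℕ) := {h | ∀ i, 1 ≤ h i ∧ h i ≤ H i}

/-- The sides `H_i` of the box are between `X^(d_i)/c` and `c X^(d_i)`, `d_i = deg P_i`. -/
def Sides {g : ℕ} (c : ℝ) (X : ℕ) (P : Fin g → ℤ[X]) (H : Fin g → ℕ) : Prop :=
  ∀ i, (X : ℝ) ^ (P i).natDegree ≤ c * H i ∧ (H i : ℝ) ≤ c * (X : ℝ) ^ (P i).natDegree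

theorem box_eq {g : ℕ} (H : Fin g → ℕ) : box H = (Pool.Agent.Lib.H24P.BoxH H : Set (Fin g → ℕ)) := by
  ext h
  unfold box Pool.Agent.Lib.H24P.BoxH
  simp only [Set.mem_ofPred_eq, mem_coe, Fintype.mem_piFinset, mem_Icc]

theorem box_card {g : ℕ} (H : Fin g → ℕ) : ((box H).ncard : ℝ) = Pool.Agent.Lib.H24P.vol H := by
  rw [box_eq, Set.ncard_coe_finset]
  unfold Pool.Agent.Lib.H24P.BoxH Pool.Agent.Lib.H24P.vol
  rw [Fintype.card_piFinset]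
  push_cast
  refine prod_congr rfl fun i _ => ?_
  rw [Nat.card_Icc, Nat.add_sub_cancel]

theorem box_le {g : ℕ} {H : Fin g → ℕ} {Q R : (Fin g → ℕ) → Prop} {_ : DecidablePred R} {b : ℝ}
    (hQ : ∀ h, Q h → R h) (hb : (((Pool.Agent.Lib.H24P.BoxH H).filter R).card : ℝ) ≤ b) :
    ({h | h ∈ box H ∧ Q h}.ncard : ℝ) ≤ b := by
  refine le_trans (Nat.cast_le.2 ?_) hb
  rw [← Set.ncard_coe_finset]
  refine Set.ncard_le_ncard ?_ (Finset.finite_toSet _)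
  rintro h ⟨h1, h2⟩
  rw [box_eq] at h1
  exact mem_coe.2 (mem_filter.2 ⟨h1, hQ h h2⟩)

theorem pairs_le {g : ℕ} {Y : ℕ} {H : Fin g → ℕ} {Q R : ℕ × (Fin g → ℕ) → Prop} {_ : DecidablePred R}
    {b : ℝ} (hQ : ∀ x, Q x → R x)
    (hb : (((Icc 1 Y ×ˢ Pool.Agent.Lib.H24P.BoxH H).filter R).card : ℝ) ≤ b) :
    ({x : ℕ × (Fin g → ℕ) | (1 ≤ x.1 ∧ x.1 ≤ Y) ∧ x.2 ∈ box H ∧ Q x}.ncard : ℝ) ≤ b := by
  refine le_trans (Nat.cast_le.2 ?_) hb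
  rw [← Set.ncard_coe_finset]
  refine Set.ncard_le_ncard ?_ (Finset.finite_toSet _)
  rintro x ⟨h1, h2, h3⟩
  rw [box_eq] at h2
  exact mem_coe.2 (mem_filter.2 ⟨mem_product.2 ⟨mem_Icc.2 h1, h2⟩, hQ x h3⟩)

/-- **The main theorem.** -/
theorem result {g : ℕ} (G : ℤ[X]) (hG : 1 ≤ G.natDegree) (hG0 : 0 < G.leadingCoeff)
    (P : Fin g → ℤ[X]) (hP : ∀ i, 1 ≤ (P i).natDegree ∧ 0 < (P i).leadingCoeff)
    (c ε : ℝ) (hε : 0 < ε) :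
    (G.natDegree = 1 →
      ∃ δ : ℝ, 0 < δ ∧ ∃ N₀ : ℕ, ∀ N : ℕ, N₀ ≤ N → ∀ H : Fin g → ℕ, Sides c (argCount G N) P H →
        ({h | h ∈ box H ∧ Few ((argCount G N : ℝ) ^ (1 - ε)) (family P h) G N}.ncard : ℝ) ≤
          (argCount G N : ℝ) ^ (-δ) * (box H).ncard) ∧
    (∃ δ : ℝ, 0 < δ ∧ ∃ Y₀ : ℕ, ∀ Y : ℕ, Y₀ ≤ Y → ∀ H : Fin g → ℕ, Sides c (argCount G Y) P H →
        ({x : ℕ × (Fin g → ℕ) | (1 ≤ x.1 ∧ x.1 ≤ Y) ∧ x.2 ∈ box H ∧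
          Few ((argCount G Y : ℝ) ^ (1 - ε)) (family P x.2) G x.1}.ncard : ℝ) ≤
            (argCount G Y : ℝ) ^ (-δ) * (Y * (box H).ncard)) ∧
    ∀ F₀ : ℤ[X], F₀.natDegree = 1 → 0 < F₀.leadingCoeff →
      ∃ δ : ℝ, 0 < δ ∧ ∃ Y₀ : ℕ, ∀ Y : ℕ, Y₀ ≤ Y → ∀ H : Fin g → ℕ, Sides c (argCount G Y) P H →
        ({x : ℕ × (Fin g → ℕ) | (1 ≤ x.1 ∧ x.1 ≤ Y) ∧ x.2 ∈ box H ∧
          Few ((argCount G Y : ℝ) ^ (1 - ε))
            (Fin.cons F₀ (family P x.2) : Fin (g + 1) → ℤ[X]) G x.1}.ncard : ℝ) ≤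
              (argCount G Y : ℝ) ^ (-δ) * (Y * (box H).ncard) := by
  refine ⟨fun hG1 => ?_, ?_, fun F₀ hF hF0 => ?_⟩
  · obtain ⟨δ, hδ, N₀, h⟩ := Pool.Agent.Lib.H24P.F_fix Pool.Agent.Lib.H24P.core G hG1 hG0 P
      (fun i => (hP i).1) c ε hε
    refine ⟨δ, hδ, N₀, fun N hN H hH => ?_⟩
    rw [box_card]
    exact box_le (R := _) (hb := h N hN H hH) fun x hx => hx
  · obtain ⟨δ, hδ, Y₀, h⟩ := Pool.Agent.Lib.H24P.F_any Pool.Agent.Lib.H24P.core G hG hG0 P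
      (fun i => (hP i).1) c ε hε
    refine ⟨δ, hδ, Y₀, fun Y hY H hH => ?_⟩
    rw [box_card]
    exact pairs_le (R := _) (hb := h Y hY H hH) fun x hx => hx
  · obtain ⟨δ, hδ, Y₀, h⟩ := Pool.Agent.Lib.H24P.F_one Pool.Agent.Lib.H24P.core G hG hG0 P
      (fun i => (hP i).1) F₀ hF hF0 c ε hε
    refine ⟨δ, hδ, Y₀, fun Y hY H hH => ?_⟩
    rw [box_card]
    exact pairs_le (R := _) (hb := h Y hY H hH) fun x hx => hx

end Pool.Agent.Results.MP_0bf1d2_nt.PowerSavingShifts
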