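import Mathlib
import Pool.Agent.Lib.H59.SchinzelDefs
import Pool.Agent.Lib.H59W.U1
import Pool.Agent.Lib.H59W.FinD

/-!
# Lower bounds of the order of magnitude of Schinzel's formula, for almost all `N`

For every system `F_1, …, F_g` and every `G`, almost all admissible `N` satisfy a lower bound of the order of
magnitude of the main term of Schinzel's formula for the number of the `n` with `N - G(n)` a prime and
(a) all `F_i(n)` almost primes, (b) moreover `F_i(n)` a prime, if `F_i` is linear, (c) `F_1(n)` a prime and `F_2(n)` a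
prime or a product of two primes, if `g = 2` and `F_1, F_2` are linear.
-/

open Finset Polynomial Pool.Agent.Lib.H59

namespace Pool.Agent.Results.MP_0bf1d2_nt.RightOrder

/-- The hypotheses of the problem on `F_1, …, F_g`. -/
structure Hyp {g : ℕ} (F : Fin g → ℤ[X]) : Prop where
  pos : 1 ≤ g
  inj : Function.Injective F
  irr : ∀ i, Irreducible (F i)
  deg : ∀ i, 1 ≤ (F i).natDegree
  lead : ∀ i, 0 < (F i).leadingCoeff

/-- The main term `X/(log X)^(g+1) (h_0 h_1 ⋯ h_g)⁻¹ S_z(N)` of Schinzel's formula, `S_z(N)` being the product over the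
primes `p < z` of the factors of `𝔖(N)`. -/
noncomputable def mainTerm {g : ℕ} (F : Fin g → ℤ[X]) (G : ℤ[X]) (N z : ℕ) : ℝ :=
  (argCount G N : ℝ) / Real.log (argCount G N) ^ (g + 1) *
    ((G.natDegree : ℝ) * ∏ i, ((F i).natDegree : ℝ))⁻¹ * seriesTrunc F G N z

/-- `m` is a (positive) prime. -/
def IsPrime (m : ℤ) : Prop := ∃ q : ℕ, q.Prime ∧ m = q

/-- `m` is a prime or a product of two primes. -/
def IsPrimeOrTwo (m : ℤ) : Prop :=
  ∃ k : ℕ, (k.Prime ∨ ∃ r s : ℕ, r.Prime ∧ s.Prime ∧ k = r * s) ∧ m = k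

/-- All prime factors of `m` are larger than `t`. -/
def Rough (t : ℝ) (m : ℤ) : Prop := ∀ p : ℕ, p.Prime → (p : ℤ) ∣ m → t < p

/-- The number of the `n` with `N - G(n)` prime and `A(X(N), n)`. -/
noncomputable def count (A : ℕ → ℕ → Prop) (G : ℤ[X]) (N : ℕ) : ℕ :=
  {n : ℕ | n ∈ argSet G N ∧ IsPrime ((N : ℤ) - G.eval (n : ℤ)) ∧ A (argCount G N) n}.ncard

/-- The number of the `N ∈ S` with `1 ≤ N ≤ Y`. -/
noncomputable def upTo (S : Set ℕ) (Y : ℕ) : ℕ := {N : ℕ | N ∈ S ∧ 1 ≤ N ∧ N ≤ Y}.ncard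

/-- For some `c > 0`: for all `ε > 0`, all large `Y` and all `z` with `z₀(ε) ≤ z ≤ X(Y)^(1/3)`, at most `ε Y` of the
`N ≤ Y` are admissible and have less than `c · (main term)` of the `n` with `N - G(n)` prime and `A(X(N), n)`. -/
def AlmostAllLower {g : ℕ} (F : Fin g → ℤ[X]) (G : ℤ[X]) (A : ℕ → ℕ → Prop) : Prop :=
  ∃ c : ℝ, 0 < c ∧ ∀ ε : ℝ, 0 < ε → ∃ z₀ Y₀ : ℕ, ∀ z Y : ℕ, z₀ ≤ z → Y₀ ≤ Y →
    z ^ 3 ≤ argCount G Y →
    (upTo {N | Admissible F G N ∧ (count A G N : ℝ) < c * mainTerm F G N z} Y : ℝ) ≤ ε * Y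

theorem upTo_eq (P : ℕ → Prop) (Y : ℕ) : upTo {N | P N} Y = Pool.Agent.Lib.H59W.cnt P Y := by
  classical
  unfold upTo Pool.Agent.Lib.H59W.cnt
  rw [← Set.ncard_coe_finset]
  apply congrArg Set.ncard
  ext N
  simp only [Set.mem_ofPred_eq, coe_filter, mem_Icc]
  tauto

theorem sys_of {g : ℕ} {F : Fin g → ℤ[X]} (h : Hyp F) : Pool.Agent.Lib.H33B.Sys F :=
  ⟨h.pos, h.irr, h.deg, h.lead, h.inj⟩

/-- From the counting functions of the library to those of this file. -/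
theorem of_cnt {g : ℕ} (F : Fin g → ℤ[X]) (hF : Hyp F) (G : ℤ[X]) (hG : 1 ≤ G.natDegree)
    (hl : 0 < G.leadingCoeff) (A B : ℕ → ℕ → Prop) (hAB : ∀ x n, A x n → B x n)
    (h : ∃ c' : ℝ, 0 < c' ∧ ∀ ε : ℝ, 0 < ε → ∃ z0 : ℕ, ∀ z : ℕ, z0 ≤ z → ∃ Y0 : ℕ, ∀ Y : ℕ,
      Y0 ≤ Y → (Pool.Agent.Lib.H59W.cnt (fun N => Admissible F G N ∧
        (Pool.Agent.Lib.H59W.cnt (fun n => A (argCount G N) n ∧
          Pool.Agent.Lib.H59W.PG G N n) (argCount G N) : ℝ) <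
          c' * (Pool.Agent.Lib.H33B.mainT F G N * seriesTrunc F G N z)) Y : ℝ) ≤ ε * Y) :
    AlmostAllLower F G B := by
  obtain ⟨c, hc, h1⟩ := Pool.Agent.Lib.H59W.range_z F (sys_of hF) G hG hl _ h
  refine ⟨c, hc, fun ε hε => ?_⟩
  obtain ⟨z0, Y0, h2⟩ := h1 ε hε
  obtain ⟨Y1, hY1⟩ := Pool.Agent.Lib.H57M.argSet_eq G hG hl
  refine ⟨z0, max Y0 Y1, fun z Y hz hY hzX => ?_⟩
  refine le_trans ?_ (h2 z Y hz ((le_max_left _ _).trans hY) hzX)
  rw [upTo_eq]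
  refine Nat.cast_le.2 (Pool.Agent.Lib.H59W.cnt_mono fun N _ hN hN2 => ⟨hN2.1, ?_⟩)
  refine lt_of_le_of_lt ?_ hN2.2
  have hfin : (argSet G N).Finite := by
    refine (Set.finite_Icc 1 (argCount G Y)).subset fun n hn => ?_
    have h4 : n ∈ argSet G Y := by
      obtain ⟨h5, h6⟩ := hn
      refine ⟨h5, ?_⟩
      have : (N : ℤ) ≤ Y := by exact_mod_cast hN
      omega
    exact Set.mem_Icc.2 ((hY1 Y ((le_max_right _ _).trans hY) n).1 h4)
  refine Nat.cast_le.2 ?_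
  classical
  unfold Pool.Agent.Lib.H59W.cnt count
  rw [← Set.ncard_coe_finset]
  refine Set.ncard_le_ncard (fun n hn => ?_) (hfin.subset fun n hn => hn.1)
  simp only [coe_filter, mem_Icc, Set.mem_ofPred_eq] at hn
  obtain ⟨⟨h4, h5⟩, h6, q, hq, h7⟩ := hn
  refine ⟨⟨h4, ?_⟩, ⟨q, hq, h7⟩, hAB _ _ h6⟩
  rw [h7]
  exact_mod_cast hq.pos

/-- **The main theorem.** -/
theorem result :
    (∀ (g : ℕ) (F : Fin g → ℤ[X]) (G : ℤ[X]), Hyp F → 1 ≤ G.natDegree →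
      0 < G.leadingCoeff → ∀ δ : ℝ, 0 < δ → δ < 1 / (200 * ∑ i, ((F i).natDegree : ℝ) + 50) →
        AlmostAllLower F G (fun x n => ∀ j, Rough ((x : ℝ) ^ δ) ((F j).eval (n : ℤ))) ∧
        ∀ i, (F i).natDegree = 1 → AlmostAllLower F G (fun x n =>
          IsPrime ((F i).eval (n : ℤ)) ∧ ∀ j, Rough ((x : ℝ) ^ δ) ((F j).eval (n : ℤ)))) ∧
    ∀ (F : Fin 2 → ℤ[X]) (G : ℤ[X]), Hyp F → (∀ i, (F i).natDegree = 1) → 1 ≤ G.natDegree →
      0 < G.leadingCoeff → ∀ δ : ℝ, 0 < δ → δ < 1 / 10 →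
        AlmostAllLower F G (fun x n => IsPrime ((F 0).eval (n : ℤ)) ∧
          IsPrimeOrTwo ((F 1).eval (n : ℤ)) ∧
          ∀ j, Rough ((x : ℝ) ^ δ) ((F j).eval (n : ℤ))) := by
  refine ⟨fun g F G hF hG hl δ hδ0 hδ => ?_, fun F G hF hdeg hG hl δ hδ0 hδ => ?_⟩
  · have hd : δ < Pool.Agent.Lib.H59W.dl F := by
      unfold Pool.Agent.Lib.H59W.dl Pool.Agent.Lib.H33B.FS_D
      push_cast
      exact hδ
    refine ⟨of_cnt F hF G hG hl _ _ (fun x n h => h)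
      (Pool.Agent.Lib.H59W.rough_values F (sys_of hF) G hG hl δ hδ0 hd), fun i hi => ?_⟩
    exact of_cnt F hF G hG hl _ _ (fun x n h => h)
      (Pool.Agent.Lib.H59W.prime_rough_values F (sys_of hF) i hi G hG hl δ hδ0 hd)
  · exact of_cnt F hF G hG hl _ _ (fun x n h => h)
      (Pool.Agent.Lib.H59W.chen_values F (sys_of hF) (hdeg 0) (hdeg 1) G hG hl δ hδ0 hδ)

end Pool.Agent.Results.MP_0bf1d2_nt.RightOrder
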