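import Pool.Agent.Lib.H93A.F3

/-!
# Graphs with `O(D^(4/3))` vertices have acyclic chromatic number `o(D^(4/3))`

For every `A` and every `ε > 0`: if `D` is large enough, then every graph of maximum degree at most
`D` with at most `A D^(4/3)` vertices has an acyclic colouring with at most `ε D^(4/3)` colours.
A complete proof in words is in `Pool/Agent/Lib/H93A/PROOF.md`.
-/

set_option autoImplicit false

namespace Pool.Agent.Lib.Retired.DenseGraphs12b0

/-- An acyclic colouring: a proper vertex colouring in which the union of any two colour classes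
induces a forest. -/
def IsAcyclicColouring {V : Type*} (G : SimpleGraph V) {α : Type*} (C : V → α) : Prop :=
  (∀ u v : V, G.Adj u v → C u ≠ C v) ∧
    ∀ a b : α, (G.induce {v : V | C v = a ∨ C v = b}).IsAcyclic

/-- The acyclic chromatic number: the least number of colours of an acyclic colouring. -/
noncomputable def acyclicChromatic {V : Type*} (G : SimpleGraph V) : ℕ :=
  sInf {k : ℕ | ∃ C : V → Fin k, IsAcyclicColouring G C}

/-- For all real `A, ε > 0` there is `D0` such that for every natural number `D ≥ D0`, every finite
graph in which all degrees are at most `D` and which has at most `A D^(4/3)` vertices has acyclic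
chromatic number at most `ε D^(4/3)`. -/
theorem result (A ε : ℝ) (hA : 0 < A) (hε : 0 < ε) :
    ∃ D0 : ℕ, ∀ D : ℕ, D0 ≤ D → ∀ (V : Type) [Finite V] (G : SimpleGraph V),
      (∀ v, (G.neighborSet v).ncard ≤ D) → (Nat.card V : ℝ) ≤ A * (D : ℝ) ^ (4 / 3 : ℝ) →
      (acyclicChromatic G : ℝ) ≤ ε * (D : ℝ) ^ (4 / 3 : ℝ) :=
  Pool.Agent.Lib.H93A.main A ε hA hε

end Pool.Agent.Lib.Retired.DenseGraphs12b0
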