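import Pool.Agent.Lib.H49B.Gen

set_option autoImplicit false

/-!
Entire curves in varieties with a finite morphism to projective space which is weakly ramified over
a generic hypersurface: they are pseudo-Brody hyperbolic, and Brody hyperbolic if the given form
vanishes only over the hypersurface.
-/

open MvPolynomial

namespace Pool.Agent.Results.MP_2a5ae2_ag.GenericBranching

/-- `P` holds for all forms of degree `k` in `n + 1` variables outside a proper algebraic subset:
there is a polynomial `Θ` in the coefficients, not vanishing at all forms of degree `k`, such that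
`P` holds for the forms of degree `k` at which `Θ` does not vanish. -/
def ForGenericForm (n k : ℕ) (P : MvPolynomial (Fin (n + 1)) ℂ → Prop) : Prop :=
  ∃ Θ : MvPolynomial (Fin (n + 1) →₀ ℕ) ℂ,
    (∃ F : MvPolynomial (Fin (n + 1)) ℂ, F.IsHomogeneous k ∧
      eval (fun d => coeff d F) Θ ≠ 0) ∧
    ∀ F : MvPolynomial (Fin (n + 1)) ℂ, F.IsHomogeneous k →
      eval (fun d => coeff d F) Θ ≠ 0 → P F

/-- The action of `ℂˣ` with weights `w`. -/
def action {m : ℕ} (w : Fin m → ℕ) (t : ℂ) (x : Fin m → ℂ) : Fin m → ℂ :=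
  fun i => t ^ w i * x i

/-- The cone without its vertex over the closed subset defined by `J`. -/
def cone {m : ℕ} (J : Ideal (MvPolynomial (Fin m) ℂ)) : Set (Fin m → ℂ) :=
  {x | x ≠ 0 ∧ ∀ F ∈ J, eval x F = 0}

/-- `J` is the ideal of a projective variety `X = cone J / ℂˣ` in a weighted projective space,
on whose cone `ℂˣ` acts freely. (Any projective variety in projective space: all weights `1`.) -/
structure IsWeightedProjective {m : ℕ} (w : Fin m → ℕ) (J : Ideal (MvPolynomial (Fin m) ℂ)) :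
    Prop where
  weights : ∀ i, 1 ≤ w i
  prime : J.IsPrime
  homogeneous : ∀ F ∈ J, ∀ d, weightedHomogeneousComponent w d F ∈ J
  nonempty : (cone J).Nonempty
  free : ∀ x ∈ cone J, ∀ t : ℂ, action w t x = x → t = 1

/-- The forms `f j` of degree `D ≥ 1` have no common zero on `X`, i.e. they define a finite
morphism from `X` to `ℙⁿ` (`X` may have any dimension at most `n`). -/
structure IsFiniteMorphism {m n : ℕ} (w : Fin m → ℕ) (J : Ideal (MvPolynomial (Fin m) ℂ))
    (D : ℕ) (f : Fin (n + 1) → MvPolynomial (Fin m) ℂ) : Prop where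
  pos : 1 ≤ D
  homogeneous : ∀ j, (f j).IsWeightedHomogeneous w D
  base_point_free : ∀ x ∈ cone J, ∃ j, eval x (f j) ≠ 0

/-- In the local ring at `x` of the cone over `X`, the form `R` lies in the `a`-th power of the
maximal ideal. -/
def MultiplicityAtLeast {m : ℕ} (J : Ideal (MvPolynomial (Fin m) ℂ)) (x : Fin m → ℂ) (a : ℕ)
    (R : MvPolynomial (Fin m) ℂ) : Prop :=
  ∃ S : MvPolynomial (Fin m) ℂ, eval x S ≠ 0 ∧ S * R ∈ J ⊔ RingHom.ker (eval x) ^ a

/-- `u` gives an entire curve in `X / ℂˣ`: a nonconstant holomorphic map from `ℂ`. (The action on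
`X` is free, so all entire curves lift to `X`.) -/
structure IsEntireCurve {m : ℕ} (w : Fin m → ℕ) (X : Set (Fin m → ℂ)) (u : ℂ → Fin m → ℂ) :
    Prop where
  holomorphic : ∀ i, Differentiable ℂ fun z => u z i
  mem : ∀ z, u z ∈ X
  nonconstant : ∃ z z', ∀ t : ℂ, u z' ≠ action w t (u z)

/-- A proper closed subset of `X / ℂˣ` contains all entire curves. -/
def PseudoBrody {m : ℕ} (w : Fin m → ℕ) (X : Set (Fin m → ℂ)) : Prop :=
  ∃ T : Set (MvPolynomial (Fin m) ℂ), (∀ g ∈ T, ∃ d, g.IsWeightedHomogeneous w d) ∧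
    (∃ x ∈ X, ∃ g ∈ T, eval x g ≠ 0) ∧
    ∀ u, IsEntireCurve w X u → ∀ z, ∀ g ∈ T, eval (u z) g = 0

/-- For `n ≥ 1` and `0 < ε < 1` there is a `k₀` such that for all `k ≥ k₀` and the generic form `F`
of degree `k` in `n + 1` variables: let `f : X → ℙⁿ` be any finite morphism from a projective
variety, given by forms of degree `D`, and let `R` be a form on `X` of degree at most
`e (1 - ε) k D`, not vanishing identically on `X`, which has multiplicity at least `e` at all points
of `X` over `F = 0`.  Then `X` is pseudo-Brody hyperbolic: all entire curves in `X` lie in `R = 0`.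
If moreover `R` vanishes only at points over `F = 0`, then `X` contains no entire curve at all.

Examples (all of the second kind): `R = F ∘ f` and `e = 2` for all `X` for which `F ∘ f` lies in the
square of the maximal ideal at all points over `F = 0` (for smooth `X`: all components of the
divisor `f* (F = 0)` have multiplicity at least `2`); `R = z` and `e = 1` for the cyclic covers
`z ^ s = F` (`2 ≤ s`, `s ∣ k`, in particular the double covers) of all projective varieties in `ℙⁿ`
not contained in `F = 0`; `R = z A` and `e = 1` for the hypersurfaces `z ^ s A = F` of degree `k` in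
`ℙⁿ⁺¹`, `s ≥ 1 + ε k`, `A` any form in the coordinates of `ℙⁿ` and `z` which is monic in `z`. -/
theorem result (n : ℕ) (hn : 1 ≤ n) (ε : ℝ) (hε : 0 < ε) (hε1 : ε < 1) :
    ∃ k₀ : ℕ, ∀ k : ℕ, k₀ ≤ k → ForGenericForm n k fun F =>
      ∀ (m : ℕ) (w : Fin m → ℕ) (J : Ideal (MvPolynomial (Fin m) ℂ)) (D : ℕ)
        (f : Fin (n + 1) → MvPolynomial (Fin m) ℂ), IsWeightedProjective w J →
        IsFiniteMorphism w J D f →
        ∀ (e d : ℕ) (R : MvPolynomial (Fin m) ℂ), 1 ≤ e → R.IsWeightedHomogeneous w d → R ∉ J →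
          (∀ x ∈ cone J, eval (fun j => eval x (f j)) F = 0 → MultiplicityAtLeast J x e R) →
          (d : ℝ) ≤ e * ((1 - ε) * k * D) →
          (∀ u, IsEntireCurve w (cone J) u → ∀ z, eval (u z) R = 0) ∧
            PseudoBrody w (cone J) ∧
            ((∀ x ∈ cone J, eval x R = 0 → eval (fun j => eval x (f j)) F = 0) →
              ¬ ∃ u, IsEntireCurve w (cone J) u) := by
  obtain ⟨k₀, hk₀⟩ := Pool.Agent.H89T.t3 n hn hε hε1.le
  obtain ⟨k₁, hk₁⟩ := Pool.Agent.H49B.hyp_generic n hn
  refine ⟨max k₀ k₁, fun k hk => ?_⟩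
  obtain ⟨Θ, hΘ, hΘ'⟩ := hk₀ k ((le_max_left _ _).trans hk)
  obtain ⟨Θ₁, hΘ₁, hhyp⟩ := hk₁ k ((le_max_right _ _).trans hk)
  refine ⟨Θ * Θ₁, Pool.Agent.H49B.nonTriv_mul hΘ hΘ₁, fun F hF hF0 => ?_⟩
  rw [map_mul] at hF0
  have hFa := left_ne_zero_of_mul hF0
  have hFb := right_ne_zero_of_mul hF0
  intro m w J D f hJ hf e d R he hR hRJ hmult hd
  obtain ⟨⟨x, hx, hxJ, hxR⟩, h⟩ := hΘ' F hF hFa m w J D f hJ.weights hJ.prime hJ.homogeneous
    hJ.nonempty hf.pos hf.homogeneous (fun x hx hxJ => hf.base_point_free x ⟨hx, hxJ⟩) e d R he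
    hR hRJ (fun x hx hxJ h0 => hmult x ⟨hx, hxJ⟩ h0) hd
  have hmain : ∀ u, IsEntireCurve w (cone J) u → ∀ z, eval (u z) R = 0 := fun u hu =>
    h u ⟨hu.holomorphic, fun z => (hu.mem z).1⟩ (fun z => (hu.mem z).2) hu.nonconstant
  refine ⟨hmain, ⟨{R}, ?_, ⟨x, ⟨hx, hxJ⟩, R, rfl, hxR⟩, ?_⟩, ?_⟩
  · rintro _ rfl
    exact ⟨d, hR⟩
  · rintro u hu z _ rfl
    exact hmain u hu z
  · rintro hR0 ⟨u, hu⟩
    exact Pool.Agent.H49B.no_curve (hhyp F hF hFb) hJ.weights hJ.homogeneous hf.pos hf.homogeneous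
      (fun x hx hxJ => hf.base_point_free x ⟨hx, hxJ⟩)
      ⟨hu.holomorphic, fun z => (hu.mem z).1⟩ (fun z => (hu.mem z).2) hu.nonconstant
      fun z => hR0 _ (hu.mem z) (hmain u hu z)

end Pool.Agent.Results.MP_2a5ae2_ag.GenericBranching
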