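import Pool.Agent.Lib.H79G.F1
import Pool.Agent.Lib.H79G.P2
import Pool.Agent.Lib.HopfSix.Defs
import Pool.Agent.Lib.H87.HopfKC.Main

/-!
# Hopf conjecture for closed six-manifolds of nonpositive complex sectional curvature

A closed smooth manifold is `H79G.Closed d`, a Riemannian metric on it is a compatible family of
smooth positive definite matrices `g.mat p` in the charts (`H31R.Ch.Metric`), `H79G.riem` is its
curvature tensor in coordinates (`R i j i j` is the sectional curvature for orthonormal
coordinate vectors).  `H79G.IsEulerCharacteristic d M χ` is the Poincaré-Hopf description of the Euler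
characteristic: smooth vector fields with only nondegenerate zeros exist, and `χ` is the sum of the
indices of the zeros of each of them.

The Gauss-Bonnet-Chern theorem and the index formula are proved in `Pool/Agent/Lib/H79G`
(`H79G.gbc`), the existence of such vector fields in `Pool/Agent/Lib/H79G/E4.lean`, the pointwise
theorem in `Pool/Agent/Lib/H87/HopfKC`.
-/

open H31R H79G

namespace Pool.Agent.Results.MP_5a30bb_gt.ComplexSectional

/-- **Closed Riemannian six-manifolds of nonpositive complex sectional curvature**: if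
`R(z, w, z̄, w̄) ≤ 0` for all complex tangent vectors `z`, `w` at all points, then `χ(M) ≤ 0`; if moreover
all real sectional curvatures at some point are negative, then `χ(M) < 0`. -/
theorem result (M : Closed 6) (g : Ch.Metric 6 M.carrier)
    (hK : ∀ p : M.carrier, ∀ y ∈ (chartAt (EE 6) p).target, ∀ z w : Fin 6 → ℂ,
      complexCurv (riem (g.mat p) y) z w ≤ 0) :
    ∃ χ : ℤ, IsEulerCharacteristic 6 M.carrier χ ∧ χ ≤ 0 ∧
      ((∃ m : M.carrier, ∀ x v : Fin 6 → ℝ, LinearIndependent ℝ ![x, v] →
        realCurv (riem (g.mat m) (chartAt (EE 6) m m)) x v < 0) → χ < 0) := by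
  have key : ∀ p : M.carrier, ∀ y ∈ (chartAt (EE 6) p).target, ∀ E : Mt 6,
      E.transpose * g.mat p y * E = 1 →
      Pool.Agent.H69Hopf.gaussBonnet 3 (frameR (riem (g.mat p) y) E) ≤ 0 ∧
      ((∀ x v : Fin 6 → ℝ, LinearIndependent ℝ ![x, v] →
        realCurv (riem (g.mat p) y) x v < 0) →
        Pool.Agent.H69Hopf.gaussBonnet 3 (frameR (riem (g.mat p) y) E) < 0) := by
    intro p y hy E hE
    have hR := frame_algCurv (riem_algCurv (metOn g p) hy) E
    have h6 : HopfSix.IsAlgCurv (frameR (riem (g.mat p) y) E) := ⟨hR.skew, hR.pair, hR.bianchi⟩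
    have h1 := HopfKC.gb_nonpos ⟨h6.skew, h6.pair, h6.bianchi⟩ (R := frameR (riem (g.mat p) y) E)
      (fun z w => by
        have h2 := complex_frame (riem (g.mat p) y) E z w
        have h3 := hK p y hy (fun a => ∑ i, (E a i : ℂ) * z i) (fun a => ∑ i, (E a i : ℂ) * w i)
        rw [← h2] at h3
        exact h3)
    rw [gb_three]
    refine ⟨h1.1, fun hneg => h1.2 fun x v hxv => ?_⟩
    have h4 := hneg _ _ (indep_frame hE hxv)
    rw [← real_frame] at h4
    exact h4
  obtain ⟨χ, h1, h2, h3⟩ := sign_principle 3 M g (-1) (fun p y hy E hE => by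
    have := (key p y hy E hE).1
    linarith)
  refine ⟨χ, h1, ?_, fun h => ?_⟩
  · have h4 : (χ : ℝ) ≤ 0 := by linarith
    exact_mod_cast h4
  · obtain ⟨m, hm⟩ := h
    have h4 := h3 ⟨m, fun E hE => by
      have := (key m _ (mem_chart_target (EE 6) m) E hE).2 hm
      linarith⟩
    have h5 : (χ : ℝ) < 0 := by linarith
    exact_mod_cast h5

end Pool.Agent.Results.MP_5a30bb_gt.ComplexSectional
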