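import Pool.Agent.Lib.H11S.ClosedFrame
import Pool.Agent.Lib.H79G.F1
import Pool.Agent.Lib.H72S.Small

/-!
# MP_5a30bb_gt: sums of the two curvature operator conditions, closed manifolds of even dimension

For an algebraic curvature tensor `R` on `ℝ^(2 n)` put
`firstKind R w = ∑ R i j k l * w i j * w k l` (the quadratic form of the curvature operator on
bivectors) and `act R A B = ∑ R i j k l * A i k * B j l` (the quadratic form of minus the curvature
operator of the second kind, on traceless symmetric matrices).  `SphereNonpos R` says that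
`act R S S ≤ ∑ k, act R (B k) (B k)` whenever `S` is positive semidefinite, the `B k` are symmetric
and `∑ k, B k (x, x) ^ 2 = S (x, x) ^ 2` for all `x`.  These conditions do not depend on the basis;
the components below are those in the charts, `G` is the matrix of the metric and
`kn G i j k l = G i k * G j l - G i l * G j k` is the tensor of constant curvature one.

`result`: a closed Riemannian manifold of dimension `2 n` whose curvature tensor is at each point a
sum `R₁ + R₂`, where the curvature operator of `R₁` is nonpositive and `R₂` satisfies `SphereNonpos`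
or has nonpositive curvature operator of the second kind, satisfies `(-1) ^ n * χ ≥ 0`; if moreover
at some point one can choose `R₁`, `R₂` such that `R₂ + h • kn G` satisfies `SphereNonpos` or the
curvature operator of the second kind of `R₂` is at most `-h`, with `h > 0`, then
`(-1) ^ n * χ > 0`.

`pointwise`: in an orthonormal frame, `(-1) ^ n` times the Gauss-Bonnet-Chern integrand is at least
its value for constant curvature `-h`.

`gauss`: closed manifolds whose curvature tensor is given by Gauss equations.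

`separable`: closed manifolds whose curvature operator is bounded above by `∑ b, (P b - kn (L b))`, where
`L b` is positive semidefinite and `P b` is a sum of squares of simple bivectors whose value on the
bivector `u ∧ v` is at most `L b (u, u) * L b (v, v) / 2` (for instance by `-h • kn G + P`, with `P`
a sum of squares of simple bivectors whose sectional curvatures are at most `h / 2`).
-/

open scoped Manifold ContDiff
open Set H31R MeasureTheory

namespace Pool.Agent.Results.MP_5a30bb_gt.CurvatureSum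

open Pool.Agent.H69Hopf Pool.Agent.H88S Pool.Agent.H11S Pool.Agent.H11S.Closed Pool.Agent.H72S H79G

/-- The pointwise theorem. -/
theorem pointwise (n : ℕ) (G E : Mat (2 * n)) (hE : E.transpose * G * E = 1) (R : Arr (2 * n))
    (h : ℝ) (hh : 0 ≤ h) (hR : SumNonpos G h R) :
    (2 * h) ^ n * (2 * n).factorial ≤ (-1) ^ n * gaussBonnet n (frameR R E) :=
  sumNonpos_frame hh hE hR

theorem result (n : ℕ) (M : Closed (2 * n)) (g : Ch.Metric (2 * n) M.carrier)
    (hK : ∀ p : M.carrier, ∀ y ∈ (chartAt (EE (2 * n)) p).target,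
      SumNonpos (g.mat p y) 0 (riem (g.mat p) y)) :
    ∃ χ : ℤ, IsEulerCharacteristic (2 * n) M.carrier χ ∧ 0 ≤ (-1) ^ n * χ ∧
      ((∃ m : M.carrier, ∃ h : ℝ, 0 < h ∧
        SumNonpos (g.mat m (chartAt (EE (2 * n)) m m)) h
          (riem (g.mat m) (chartAt (EE (2 * n)) m m))) → 0 < (-1) ^ n * χ) := by
  obtain ⟨χ, h1, h2, h3⟩ := sign_principle n M g ((-1) ^ n) fun p y hy E hE => by
    have h4 := sumNonpos_frame le_rfl hE (hK p y hy)
    refine le_trans ?_ h4
    positivity
  refine ⟨χ, h1, by exact_mod_cast h2, fun ⟨m, h, hh, hm⟩ => ?_⟩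
  have h4 : (0 : ℝ) < (-1) ^ n * χ := h3 ⟨m, fun E hE =>
    lt_of_lt_of_le (by positivity) (sumNonpos_frame hh.le hE hm)⟩
  exact_mod_cast h4

/-- Gauss equations: `R = -h • kn G + R₁ + ∑ a, (∑ j, kn (A a j) - kn (L a))` with
`∑ j, A a j (x, x) ^ 2 ≤ L a (x, x) ^ 2` and `R₁` of nonpositive curvature operator. -/
def GaussEq {N : ℕ} (G : Mat N) (h : ℝ) (R : Arr N) : Prop :=
  ∃ (R₁ : Arr N) (p q : ℕ) (L : Fin p → Mat N) (A : Fin p → Fin q → Mat N),
    IsAlgCurv R₁ ∧ (∀ w : Mat N, w.transpose = -w → firstKind R₁ w ≤ 0) ∧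
    (∀ a, (L a).PosSemidef) ∧ (∀ a j, (A a j).IsSymm) ∧
    (∀ a x, ∑ j, bilin (A a j) x x ^ 2 ≤ bilin (L a) x x ^ 2) ∧
    R + h • kn G = R₁ + ∑ a, (∑ j, kn (A a j) - kn (L a))

theorem GaussEq.sumNonpos {N : ℕ} {G : Mat N} {h : ℝ} {R : Arr N} (hg : GaussEq G h R)
    (hR : IsAlgCurv R) : SumNonpos G h R := by
  obtain ⟨R₁, p, q, L, A, hR₁, hyp₁, hL, hA, hLA, he⟩ := hg
  have hR₂ : IsAlgCurv (R - R₁) := by
    refine ⟨fun i j k l => ?_, fun i j k l => ?_, fun i j k l => ?_⟩
    · simp only [Pi.sub_apply]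
      rw [hR.skew i j k l, hR₁.skew i j k l]
      ring
    · simp only [Pi.sub_apply]
      rw [hR.pair i j k l, hR₁.pair i j k l]
    · simp only [Pi.sub_apply]
      linear_combination hR.bianchi i j k l - hR₁.bianchi i j k l
  refine ⟨R₁, R - R₁, hR₁, hR₂, by abel, hyp₁, Or.inl ?_⟩
  have he' : R - R₁ + h • kn G = ∑ a, (∑ j, kn (A a j) - kn (L a)) := by
    rw [← sub_eq_zero] at he ⊢
    rw [← he]
    abel
  rw [he']
  have hb : ∀ a x, 0 ≤ bilin (L a) x x := fun a x => by
    have h1 := (hL a).dotProduct_mulVec_nonneg x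
    have h2 : bilin (L a) x x = star x ⬝ᵥ (L a).mulVec x := by
      unfold bilin
      simp only [dotProduct, Matrix.mulVec, Finset.mul_sum, Pi.star_apply, star_trivial, mul_assoc]
    rw [h2]
    exact h1
  have hs : ∀ a, SphereNonpos (∑ j, kn (A a j) - kn (L a)) := fun a =>
    sphereNonpos_kn (by
      have h1 := (hL a).isHermitian
      rw [Matrix.IsHermitian, Matrix.conjTranspose_eq_transpose_of_trivial] at h1
      exact h1) (hb a) (hA a) (hLA a)
  have h0 : SphereNonpos (0 : Arr N) := fun p S B _ => by simp [act]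
  exact Finset.sum_induction _ SphereNonpos (fun a b => sphereNonpos_add) h0 fun a _ => hs a

theorem gauss (n : ℕ) (M : Closed (2 * n)) (g : Ch.Metric (2 * n) M.carrier)
    (hK : ∀ p : M.carrier, ∀ y ∈ (chartAt (EE (2 * n)) p).target,
      GaussEq (g.mat p y) 0 (riem (g.mat p) y)) :
    ∃ χ : ℤ, IsEulerCharacteristic (2 * n) M.carrier χ ∧ 0 ≤ (-1) ^ n * χ ∧
      ((∃ m : M.carrier, ∃ h : ℝ, 0 < h ∧
        GaussEq (g.mat m (chartAt (EE (2 * n)) m m)) h
          (riem (g.mat m) (chartAt (EE (2 * n)) m m))) → 0 < (-1) ^ n * χ) := by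
  obtain ⟨χ, h1, h2, h3⟩ := result n M g fun p y hy =>
    (hK p y hy).sumNonpos (riem_algCurv (metOn g p) hy)
  exact ⟨χ, h1, h2, fun ⟨m, h, hh, hm⟩ =>
    h3 ⟨m, h, hh, hm.sumNonpos (riem_algCurv (metOn g m) (mem_chart_target _ m))⟩⟩

/-- The curvature operator of `R + t • kn G` is at most that of `∑ b, (P b - kn (L b))`, where `L b` is
positive semidefinite, `P b = ∑ a, (x b a ∧ y b a) ⊗ (x b a ∧ y b a)` and
`P b (u, v, u, v) ≤ L b (u, u) * L b (v, v) / 2` for all `u`, `v`. -/
def SepBound {N : ℕ} (G : Mat N) (t : ℝ) (R : Arr N) : Prop :=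
  ∃ (m q : ℕ) (L : Fin m → Mat N) (x y : Fin m → Fin q → Fin N → ℝ),
    (∀ b, (L b).PosSemidef) ∧
    (∀ b u v, sec (sepT (x b) (y b)) u v ≤ 1 / 2 * bilin (L b) u u * bilin (L b) v v) ∧
    ∀ w : Mat N, w.transpose = -w →
      firstKind (R + t • kn G) w ≤ firstKind (∑ b, (sepT (x b) (y b) - kn (L b))) w

theorem SepBound.sumNonpos {N : ℕ} {G : Mat N} (hG : G.IsSymm) {t : ℝ} {R : Arr N}
    (hs : SepBound G t R) (hR : IsAlgCurv R) : SumNonpos G t R := by
  obtain ⟨m, q, L, x, y, hL, hsec, hle⟩ := hs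
  have hsum : SphereNonpos (∑ b, (sepT (x b) (y b) - kn (L b))) := by
    have h0 : SphereNonpos (0 : Arr N) := fun p S B _ => by simp [act]
    refine Finset.sum_induction _ SphereNonpos (fun a b => sphereNonpos_add) h0 fun b _ => ?_
    have h1 := sphereNonpos_sep (isSymm_of_psd (hL b)) (bilin_nonneg (hL b)) (x b) (y b) (h := 1)
      (hsec b)
    have h2 : sepT (x b) (y b) + (-1 : ℝ) • kn (L b) = sepT (x b) (y b) - kn (L b) := by
      rw [neg_one_smul, sub_eq_add_neg]
    rwa [h2] at h1
  have hcurv : IsAlgCurv (∑ b, (sepT (x b) (y b) - kn (L b))) :=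
    Finset.sum_induction _ IsAlgCurv (fun _ _ => SECOND_algCurv_add) algCurv_zero fun b _ =>
      algCurv_sub (sepT_algCurv _ _) (algCurv_kn (isSymm_of_psd (hL b)))
  have hG' : IsAlgCurv (t • kn G) := SECOND_algCurv_smul (algCurv_kn hG) t
  set Q : Arr N := ∑ b, (sepT (x b) (y b) - kn (L b)) with hQ
  refine ⟨R - (Q - t • kn G), Q - t • kn G, algCurv_sub hR (algCurv_sub hcurv hG'),
    algCurv_sub hcurv hG', by abel, fun w hw => ?_, Or.inl ?_⟩
  · have h1 := hle w hw
    have h2 : firstKind (R - (Q - t • kn G)) w = firstKind (R + t • kn G) w - firstKind Q w := by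
      rw [← firstKind_sub]
      congr 1
      abel
    rw [h2]
    linarith
  · have h3 : Q - t • kn G + t • kn G = Q := by abel
    rw [h3]
    exact hsum

theorem separable (n : ℕ) (M : Closed (2 * n)) (g : Ch.Metric (2 * n) M.carrier)
    (hK : ∀ p : M.carrier, ∀ y ∈ (chartAt (EE (2 * n)) p).target,
      SepBound (g.mat p y) 0 (riem (g.mat p) y)) :
    ∃ χ : ℤ, IsEulerCharacteristic (2 * n) M.carrier χ ∧ 0 ≤ (-1) ^ n * χ ∧
      ((∃ m : M.carrier, ∃ t : ℝ, 0 < t ∧
        SepBound (g.mat m (chartAt (EE (2 * n)) m m)) t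
          (riem (g.mat m) (chartAt (EE (2 * n)) m m))) → 0 < (-1) ^ n * χ) := by
  obtain ⟨χ, h1, h2, h3⟩ := result n M g fun p y hy =>
    (hK p y hy).sumNonpos (Matrix.IsSymm.ext fun i j => (metOn g p).symm y hy j i)
      (riem_algCurv (metOn g p) hy)
  exact ⟨χ, h1, h2, fun ⟨m, t, ht, hm⟩ =>
    h3 ⟨m, t, ht, hm.sumNonpos
      (Matrix.IsSymm.ext fun i j => (metOn g m).symm _ (mem_chart_target _ m) j i)
      (riem_algCurv (metOn g m) (mem_chart_target _ m))⟩⟩

end Pool.Agent.Results.MP_5a30bb_gt.CurvatureSum
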