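import Pool.Agent.Lib.H69.Hopf.Strict
import Pool.Agent.Lib.Frob61.FrobeniusPinching
import Pool.Agent.Lib.H79G.F1
import Pool.Agent.Lib.H79G.P3
import Pool.Agent.Lib.H46P.H9

/-!
# Hopf conjecture for closed manifolds with pointwise pinched sectional curvature

A closed smooth manifold is `H79G.Closed d`, a Riemannian metric on it is a compatible family of
smooth positive definite matrices `g.mat p` in the charts (`H31R.Ch.Metric`), `H79G.riem` is its
curvature tensor in coordinates.  `H79G.IsEulerCharacteristic d M χ` is the Poincaré-Hopf description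
of the Euler characteristic: smooth vector fields with only nondegenerate zeros exist, and `χ` is
the sum of the indices of the zeros of each of them.

The Gauss-Bonnet-Chern theorem and the index formula are proved in `Pool/Agent/Lib/H79G`
(`H79G.gbc`), the existence of such vector fields in `Pool/Agent/Lib/H79G/E4.lean`; the pointwise
theorem is `pointwise` below.
-/

namespace Pool.Agent.Results.MP_5a30bb_gt.Pinching

open Pool.Agent.H69Hopf

/-- The pinching constant: the smallest of `(4 n ^ 2 - 27) / (4 n ^ 2 + 12 n - 27)`,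
`1 - 1 / (37 √(2 n + 2))` and `1 - 1 / (10 ^ 13 (1 + log n) ^ 3)`. -/
noncomputable def pinchConst (n : ℕ) : ℝ :=
  min (min ((4 * (n : ℝ) ^ 2 - 27) / (4 * (n : ℝ) ^ 2 + 12 * n - 27)) (1 - 1 / (37 * √(2 * n + 2))))
    (1 - 1 / (10 ^ 13 * (1 + Real.log n) ^ 3))

/-- Pointwise version: every algebraic curvature tensor on `ℝ^(2 n)`, `n ≥ 3`, with sectional
curvatures in `[-b, -a]`, `a ≥ δ b`, has Gauss–Bonnet–Chern integrand of sign `(-1) ^ n`. -/
theorem pointwise (n : ℕ) (hn : 3 ≤ n) (R : Arr (2 * n)) (hR : IsAlgCurv R) (a b : ℝ)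
    (hb : 0 < b) (hab : pinchConst n * b ≤ a) :
    ((∀ x y : Fin (2 * n) → ℝ,
        -b * area2 x y ≤ ev R x y x y ∧ ev R x y x y ≤ -a * area2 x y) →
      0 < (-1) ^ n * gaussBonnet n R) ∧
    ((∀ x y : Fin (2 * n) → ℝ,
        a * area2 x y ≤ ev R x y x y ∧ ev R x y x y ≤ b * area2 x y) →
      0 < gaussBonnet n R) := by
  unfold pinchConst at hab
  have key : ∀ S : Arr (2 * n), IsAlgCurv S → (∀ x y : Fin (2 * n) → ℝ,
      a * area2 x y ≤ ev S x y x y ∧ ev S x y x y ≤ b * area2 x y) → 0 < gaussBonnet n S := by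
    intro S hS hsec
    rcases le_total (min ((4 * (n : ℝ) ^ 2 - 27) / (4 * (n : ℝ) ^ 2 + 12 * n - 27))
      (1 - 1 / (37 * √(2 * n + 2)))) (1 - 1 / (10 ^ 13 * (1 + Real.log n) ^ 3)) with h0 | h0
    swap
    · rw [min_eq_right h0] at hab
      have hneg := Pool.Agent.H46P.pointwise_neg n (by omega) (fun i j k l => -S i j k l)
        (algCurv_neg hS) a b hb hab (fun x y => by
          rw [ev_neg]
          obtain ⟨h1, h2⟩ := hsec x y
          constructor <;> linarith)
      rw [gb_neg, ← mul_assoc, ← mul_pow] at hneg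
      simpa using hneg
    rw [min_eq_left h0] at hab
    clear h0
    rcases le_total ((4 * (n : ℝ) ^ 2 - 27) / (4 * (n : ℝ) ^ 2 + 12 * n - 27))
      (1 - 1 / (37 * √(2 * n + 2))) with h | h
    · rw [min_eq_left h] at hab
      have hn2 : (3 : ℝ) ≤ n := by exact_mod_cast hn
      have hD : 4 * (n : ℝ) ^ 2 + 12 * n - 27 ≠ 0 := by nlinarith
      have he : dlc (27 / 4) n =
          (4 * (n : ℝ) ^ 2 - 27) / (4 * (n : ℝ) ^ 2 + 12 * n - 27) := by
        have hD' : (n : ℝ) ^ 2 + 3 * n - 27 / 4 ≠ 0 := by nlinarith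
        unfold dlc
        rw [eq_div_iff hD, sub_mul, one_mul]
        have h4 : 4 * (n : ℝ) ^ 2 + 12 * n - 27 = 4 * ((n : ℝ) ^ 2 + 3 * n - 27 / 4) := by ring
        rw [h4, mul_comm (4 : ℝ), ← mul_assoc, div_mul_cancel₀ _ hD']
        ring
      rw [← he] at hab
      refine pinch_strict n hn S hS b hb fun x y => ?_
      obtain ⟨h1, h2⟩ := hsec x y
      have h3 := mul_le_mul_of_nonneg_right hab (area2_nonneg x y)
      constructor <;> linarith
    · rw [min_eq_right h] at hab
      by_cases hba : b < a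
      · -- the interval is empty: `x = e_0`, `y = e_1`
        exfalso
        have h1 := hsec (Pi.single ⟨0, by omega⟩ 1) (Pi.single ⟨1, by omega⟩ 1)
        have h2 : area2 (Pi.single (⟨0, by omega⟩ : Fin (2 * n)) (1 : ℝ) : Fin (2 * n) → ℝ)
            (Pi.single (⟨1, by omega⟩ : Fin (2 * n)) (1 : ℝ)) = 1 := by
          simp [area2, Pi.single_apply]
        rw [h2] at h1
        linarith [h1.1, h1.2]
      · have hba' : a ≤ b := not_lt.mp hba
        set s : ℝ := √(2 * n + 2) with hs
        have hs1 : (1 : ℝ) ≤ s := by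
          rw [hs]
          refine Real.one_le_sqrt.mpr ?_
          have : (0 : ℝ) ≤ n := Nat.cast_nonneg n
          linarith
        have hq : (1 - 1 / (37 * s)) * b = b - b / (37 * s) := by
          field_simp
        rw [hq] at hab
        have hlt : b / (37 * s) ≤ b / 37 := by
          apply div_le_div_of_nonneg_left hb.le (by norm_num)
          linarith
        have ha : 0 < a := by
          have : b / 37 < b := by linarith
          linarith
        have hbs : b - a ≤ b / (37 * s) := by linarith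
        have hmain : 72 * s * ((b - a) / 2) ≤ (a + b) / 2 := by
          have h1 : 72 * s * ((b - a) / 2) ≤ 72 * s * ((b / (37 * s)) / 2) := by
            apply mul_le_mul_of_nonneg_left _ (by positivity)
            linarith
          have h2 : 72 * s * ((b / (37 * s)) / 2) = 36 / 37 * b := by
            field_simp
            ring
          have h3 : b - b / 37 ≤ a := by linarith
          linarith
        have hneg := Pool.Agent.Lib.Frob61.FrobeniusPinching.sectional n (by omega)
          (fun i j k l => -S i j k l) (algCurv_neg hS) ((a + b) / 2) ((b - a) / 2)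
          (by linarith) (by linarith) hmain (fun x y => by
            rw [ev_neg]
            obtain ⟨h1, h2⟩ := hsec x y
            have e1 : -((a + b) / 2 + (b - a) / 2) * area2 x y = -(b * area2 x y) := by ring
            have e2 : -((a + b) / 2 - (b - a) / 2) * area2 x y = -(a * area2 x y) := by ring
            rw [e1, e2]
            constructor <;> linarith)
        rw [gb_neg, ← mul_assoc, ← mul_pow] at hneg
        simpa using hneg
  constructor
  · intro hp
    rw [← gb_neg]
    refine key _ (algCurv_neg hR) fun x y => ?_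
    rw [ev_neg]
    obtain ⟨h1, h2⟩ := hp x y
    constructor <;> linarith
  · intro hp
    exact key R hR hp

/-! ### Vanishing sectional curvatures -/

theorem ev_add1 {N : ℕ} (R : Arr N) (x x' y z w : Fin N → ℝ) :
    ev R (x + x') y z w = ev R x y z w + ev R x' y z w := by
  simp only [ev, Pi.add_apply, mul_add, add_mul, Finset.sum_add_distrib]

theorem ev_add2 {N : ℕ} (R : Arr N) (x y y' z w : Fin N → ℝ) :
    ev R x (y + y') z w = ev R x y z w + ev R x y' z w := by
  simp only [ev, Pi.add_apply, mul_add, add_mul, Finset.sum_add_distrib]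

theorem ev_add3 {N : ℕ} (R : Arr N) (x y z z' w : Fin N → ℝ) :
    ev R x y (z + z') w = ev R x y z w + ev R x y z' w := by
  simp only [ev, Pi.add_apply, mul_add, add_mul, Finset.sum_add_distrib]

theorem ev_add4 {N : ℕ} (R : Arr N) (x y z w w' : Fin N → ℝ) :
    ev R x y z (w + w') = ev R x y z w + ev R x y z w' := by
  simp only [ev, Pi.add_apply, mul_add, Finset.sum_add_distrib]

theorem ev_basis {N : ℕ} (R : Arr N) (i j k l : Fin N) :
    ev R (Pi.single i 1) (Pi.single j 1) (Pi.single k 1) (Pi.single l 1) = R i j k l := by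
  simp [ev, Pi.single_apply]

/-- An algebraic curvature tensor whose sectional curvatures all vanish is zero. -/
theorem eq_zero_of_sec {N : ℕ} {R : Arr N} (hR : IsAlgCurv R)
    (h : ∀ x y : Fin N → ℝ, ev R x y x y = 0) (i j k l : Fin N) : R i j k l = 0 := by
  have h1 : ∀ i j : Fin N, R i j i j = 0 := fun i j => by
    rw [← ev_basis R i j i j]
    exact h _ _
  have h2 : ∀ i j k : Fin N, R i j k j = 0 := fun i j k => by
    have h3 := h (Pi.single i 1 + Pi.single k 1) (Pi.single j 1)
    simp only [ev_add1, ev_add3, ev_basis] at h3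
    have h4 := hR.pair k j i j
    linarith [h1 i j, h1 k j]
  have h3 : ∀ i j l : Fin N, R i j i l = 0 := fun i j l => by
    have h4 := h2 j i l
    have h5 := hR.skew i j i l
    have h6 := hR.pair j i i l
    have h7 := hR.skew i l j i
    have h8 := hR.pair l i j i
    linarith
  have h4 : ∀ i j k l : Fin N, R i j k l = - R i l k j := fun i j k l => by
    have h5 := h (Pi.single i 1 + Pi.single k 1) (Pi.single j 1 + Pi.single l 1)
    simp only [ev_add1, ev_add2, ev_add3, ev_add4, ev_basis] at h5
    have h6 := hR.pair k j i l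
    have h7 := hR.pair k l i j
    linarith [h1 i j, h1 k j, h1 i l, h1 k l, h2 i j k, h2 k j i, h2 i l k, h2 k l i, h3 i j l,
      h3 i l j, h3 k j l, h3 k l j]
  have h5 : ∀ i j k l : Fin N, R i j k l = R j k i l := fun i j k l => by
    have h6 := h4 i j k l
    have h7 := hR.pair i l k j
    have h8 := hR.skew k j i l
    linarith
  have h6 := hR.bianchi i j k l
  have h7 := h5 i j k l
  have h8 := h5 j k i l
  linarith

/-- The Gauss–Bonnet–Chern integrand vanishes where all sectional curvatures vanish. -/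
theorem gb_eq_zero (n : ℕ) (hn : 1 ≤ n) {R : Arr (2 * n)} (hR : IsAlgCurv R)
    (h : ∀ x y : Fin (2 * n) → ℝ, ev R x y x y = 0) : gaussBonnet n R = 0 := by
  unfold gaussBonnet
  refine Finset.sum_eq_zero fun σ _ => Finset.sum_eq_zero fun τ _ => ?_
  have h1 : ∏ i : Fin n, R (σ (fst i)) (σ (snd i)) (τ (fst i)) (τ (snd i)) = 0 :=
    Finset.prod_eq_zero (Finset.mem_univ (⟨0, hn⟩ : Fin n)) (eq_zero_of_sec hR h _ _ _ _)
  rw [h1, mul_zero]

open H31R H79G in
/-- **Closed Riemannian manifolds with pointwise pinched sectional curvature.** Let `M` be a closed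
Riemannian manifold of dimension `2 n ≥ 6`, `δ = pinchConst n`. If at every point `p` there is
`b ≥ 0` with all sectional curvatures at `p` in `[-b, -δ b]`, then `0 ≤ (-1)^n χ(M)`, and
`0 < (-1)^n χ(M)` unless `M` is flat. If at every point they lie in `[δ b, b]` for some `b ≥ 0`, then
`0 ≤ χ(M)`, and `0 < χ(M)` unless `M` is flat. -/
theorem result (n : ℕ) (hn : 3 ≤ n) (M : Closed (2 * n)) (g : Ch.Metric (2 * n) M.carrier) :
    ((∀ p : M.carrier, ∀ y ∈ (chartAt (EE (2 * n)) p).target, ∃ b : ℝ, 0 ≤ b ∧
        ∀ u v : Fin (2 * n) → ℝ,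
          -b * areaG (g.mat p y) u v ≤ ev (riem (g.mat p) y) u v u v ∧
            ev (riem (g.mat p) y) u v u v ≤ -(pinchConst n * b) * areaG (g.mat p y) u v) →
      ∃ χ : ℤ, IsEulerCharacteristic (2 * n) M.carrier χ ∧ 0 ≤ (-1) ^ n * χ ∧
        ((∃ m : M.carrier, ∃ u v : Fin (2 * n) → ℝ,
          ev (riem (g.mat m) (chartAt (EE (2 * n)) m m)) u v u v ≠ 0) → 0 < (-1) ^ n * χ)) ∧
    ((∀ p : M.carrier, ∀ y ∈ (chartAt (EE (2 * n)) p).target, ∃ b : ℝ, 0 ≤ b ∧
        ∀ u v : Fin (2 * n) → ℝ,
          pinchConst n * b * areaG (g.mat p y) u v ≤ ev (riem (g.mat p) y) u v u v ∧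
            ev (riem (g.mat p) y) u v u v ≤ b * areaG (g.mat p y) u v) →
      ∃ χ : ℤ, IsEulerCharacteristic (2 * n) M.carrier χ ∧ 0 ≤ χ ∧
        ((∃ m : M.carrier, ∃ u v : Fin (2 * n) → ℝ,
          ev (riem (g.mat m) (chartAt (EE (2 * n)) m m)) u v u v ≠ 0) → 0 < χ)) := by
  constructor
  · intro hK
    have key : ∀ p : M.carrier, ∀ y ∈ (chartAt (EE (2 * n)) p).target, ∀ E : Mt (2 * n),
        E.transpose * g.mat p y * E = 1 →
          0 ≤ (-1) ^ n * gaussBonnet n (frameR (riem (g.mat p) y) E) ∧
          ((∃ u v : Fin (2 * n) → ℝ, ev (riem (g.mat p) y) u v u v ≠ 0) →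
            0 < (-1) ^ n * gaussBonnet n (frameR (riem (g.mat p) y) E)) := by
      intro p y hy E hE
      obtain ⟨b, hb, hbK⟩ := hK p y hy
      have hA := frame_algCurv (riem_algCurv (metOn g p) hy) E
      rcases hb.eq_or_lt with rfl | hb0
      · have h0 : ∀ u v : Fin (2 * n) → ℝ, ev (riem (g.mat p) y) u v u v = 0 := fun u v => by
          obtain ⟨h1, h2⟩ := hbK u v
          simp only [neg_zero, mul_zero, zero_mul] at h1 h2
          exact le_antisymm h2 h1
        refine ⟨?_, fun ⟨u, v, huv⟩ => absurd (h0 u v) huv⟩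
        rw [gb_eq_zero n (by omega) hA fun u v => by rw [sec_frame]; exact h0 _ _, mul_zero]
      · have h1 : 0 < (-1) ^ n * gaussBonnet n (frameR (riem (g.mat p) y) E) := by
          refine (pointwise n hn _ hA (pinchConst n * b) b hb0 le_rfl).1 ?_
          intro u v
          rw [sec_frame, ← area_frame hE]
          exact hbK _ _
        exact ⟨h1.le, fun _ => h1⟩
    obtain ⟨χ, h1, h2, h3⟩ := sign_principle n M g ((-1) ^ n) fun p y hy E hE =>
      (key p y hy E hE).1
    refine ⟨χ, h1, by exact_mod_cast h2, ?_⟩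
    rintro ⟨m, hm⟩
    have h4 := h3 ⟨m, fun E hE => (key m _ (mem_chart_target (EE (2 * n)) m) E hE).2 hm⟩
    exact_mod_cast h4
  · intro hK
    have key : ∀ p : M.carrier, ∀ y ∈ (chartAt (EE (2 * n)) p).target, ∀ E : Mt (2 * n),
        E.transpose * g.mat p y * E = 1 →
          0 ≤ 1 * gaussBonnet n (frameR (riem (g.mat p) y) E) ∧
          ((∃ u v : Fin (2 * n) → ℝ, ev (riem (g.mat p) y) u v u v ≠ 0) →
            0 < 1 * gaussBonnet n (frameR (riem (g.mat p) y) E)) := by
      intro p y hy E hE
      rw [one_mul]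
      obtain ⟨b, hb, hbK⟩ := hK p y hy
      have hA := frame_algCurv (riem_algCurv (metOn g p) hy) E
      rcases hb.eq_or_lt with rfl | hb0
      · have h0 : ∀ u v : Fin (2 * n) → ℝ, ev (riem (g.mat p) y) u v u v = 0 := fun u v => by
          obtain ⟨h1, h2⟩ := hbK u v
          simp only [mul_zero, zero_mul] at h1 h2
          exact le_antisymm h2 h1
        refine ⟨?_, fun ⟨u, v, huv⟩ => absurd (h0 u v) huv⟩
        rw [gb_eq_zero n (by omega) hA fun u v => by rw [sec_frame]; exact h0 _ _]
      · have h1 : 0 < gaussBonnet n (frameR (riem (g.mat p) y) E) := by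
          refine (pointwise n hn _ hA (pinchConst n * b) b hb0 le_rfl).2 ?_
          intro u v
          rw [sec_frame, ← area_frame hE]
          exact hbK _ _
        exact ⟨h1.le, fun _ => h1⟩
    obtain ⟨χ, h1, h2, h3⟩ := sign_principle n M g 1 fun p y hy E hE => (key p y hy E hE).1
    rw [one_mul] at h2
    refine ⟨χ, h1, by exact_mod_cast h2, ?_⟩
    rintro ⟨m, hm⟩
    have h4 := h3 ⟨m, fun E hE => (key m _ (mem_chart_target (EE (2 * n)) m) E hE).2 hm⟩
    rw [one_mul] at h4
    exact_mod_cast h4

end Pool.Agent.Results.MP_5a30bb_gt.Pinching
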