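import Mathlib
import Pool.Agent.Lib.H2D.Final

set_option autoImplicit false

/-!
# The inhomogeneous Duffin–Schaeffer statement under comparability

For every rational `γ ≠ 0` without further condition, and for every irrational `γ` under a growth dichotomy that only
excludes linear growth of a minorant `g` of `ψ` along resonant pairs over long ranges.
Proof: see `Pool/Agent/Lib/H2D/PROOF.md` and `Pool/Agent/DSRat`.
-/

namespace Pool.Agent.Results.MP_9f8062_nt.GrowthDichotomy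

open MeasureTheory Filter

theorem result :
    ∀ γ : ℝ, γ ≠ 0 → ∀ ψ g : ℕ → ℝ, (∀ q : ℕ, 0 ≤ g q) → (∀ q : ℕ, g q ≤ ψ q) →
      ¬ Summable (fun q : ℕ => (Nat.totient q : ℝ) * g q / (q : ℝ)) →
      (∃ c : ℝ, 0 < c ∧ ∃ᶠ Q : ℕ in atTop,
          c * (∑ q ∈ Finset.Icc 1 Q, g q) ≤
            ∑ q ∈ Finset.Icc 1 Q, (Nat.totient q : ℝ) * g q / (q : ℝ)) →
      (Irrational γ → ∃ K τ Λ : ℝ, 0 < τ ∧ τ < 1 ∧
        ∀ q r : ℕ, 0 < q → q < r → Λ * (q : ℝ) ≤ (r : ℝ) → 0 < g q → 0 < g r →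
          (r : ℝ) * g q + (q : ℝ) * g r < (Nat.gcd q r : ℝ) →
          (∃ n : ℤ, |(Nat.gcd q r : ℝ) * (n : ℝ) + ((r : ℝ) - (q : ℝ)) * γ| <
            (r : ℝ) * g q + (q : ℝ) * g r) →
          g r ≤ K * ((r : ℝ) / q) ^ τ * g q ∨ ((r : ℝ) / q) ^ (1 / τ) * g q ≤ K * g r) →
      volume {x : ℝ | x ∈ Set.Icc (0 : ℝ) 1 ∧
          ∃ᶠ q : ℕ in atTop, ∃ p : ℤ, Int.gcd p (q : ℤ) = 1 ∧
            |(q : ℝ) * x - (p : ℝ) - γ| < ψ q} = 1 :=
  Pool.Agent.H2D.final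

end Pool.Agent.Results.MP_9f8062_nt.GrowthDichotomy
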