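import Mathlib
import Pool.Agent.Lib.H52K.M4

namespace Pool.Agent.Lib.Retired.HashingCasesA7dd6b

/-- The statement of Q1 with error `O(log n) + O(s)` for ALL pairs `x, y` and ALL strings `z` (no bound on
their complexity) with `min (I(x : y) - I(x : y | z), KS(y | x, z), KS(x | y, z)) ≤ s`. As in the
problem, `K x z` is the plain conditional complexity `KS(x | z)` (least value of `2 |c| + |w| + 1` over
all programs `c` and strings `w` with `c (w, z) = x`). -/
theorem result :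
    ∀ K : ℕ → ℕ → ℕ,
      (∀ x z : ℕ, K x z = sInf {k : ℕ | ∃ (c : Nat.Partrec.Code) (w : ℕ),
          c.eval (Nat.pair w z) = Part.some x ∧
          2 * Nat.size (Encodable.encode c) + Nat.size w + 1 ≤ k}) →
      ∃ C : ℕ, ∀ n s x y z : ℕ, K x 0 ≤ n → K y 0 ≤ n →
        (K x 0 + K y 0 + K (Nat.pair x y) z ≤ K x z + K y z + K (Nat.pair x y) 0 + s ∨
          K y (Nat.pair x z) ≤ s ∨ K x (Nat.pair y z) ≤ s) →
        ∃ z' : ℕ,
          |(K x z : ℤ) - (K x z' : ℤ)| ≤ ((C * Nat.log 2 n + C * s + C : ℕ) : ℤ) ∧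
          |(K y z : ℤ) - (K y z' : ℤ)| ≤ ((C * Nat.log 2 n + C * s + C : ℕ) : ℤ) ∧
          |(K (Nat.pair x y) z : ℤ) - (K (Nat.pair x y) z' : ℤ)|
              ≤ ((C * Nat.log 2 n + C * s + C : ℕ) : ℤ) ∧
          K z' (Nat.pair x y) ≤ C * Nat.log 2 n + C * s + C := by
  intro K hK
  have hKS : K = Pool.Agent.Lib.H52K.KS := by
    funext x z
    exact hK x z
  subst hKS
  exact Pool.Agent.Lib.H52K.main_easy

end Pool.Agent.Lib.Retired.HashingCasesA7dd6b
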