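import Pool.Agent.Lib.Helper43.KK.Final

/-!
# MP_b6a793_lc: a generalized b-scale set that is K_kappa

Under the axiom of constructibility, for every uncountable weakly compact cardinal `κ` there is a
`𝔟_κ`-scale `X` such that the `𝔟_κ`-scale set `X ∪ Fin_κ` is `K_κ`.
-/

set_option autoImplicit false

universe u

namespace Pool.Agent.Results.MP_b6a793_lc.ScaleSetKKappa

open Pool.Agent.Helper43.KK

/-- `V = L` implies: for every uncountable weakly compact `κ`, some `𝔟_κ`-scale set is `K_κ`. -/
theorem result (hVL : VEqualsL.{u}) (κ : Cardinal.{u}) (hκ : IsWeaklyCompact κ) :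
    ∃ X : Set (Set (Idx κ)), IsScale κ X ∧ IsKKappa κ (X ∪ FinKappa κ) :=
  exists_scale hVL hκ

end Pool.Agent.Results.MP_b6a793_lc.ScaleSetKKappa
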