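import Pool.Agent.Lib.IncompactC.OmegaTwo

/-!
# Graphs on `ω₂²` with chromatic number `ℵ₁` (MP_d06690_lc, Q1): compactness of fineness

Let `C 0 ⊇ C 1 ⊇ ...` be a decreasing sequence of graphs on a set `S`.  A subset of `S` is *fine* if it is
covered by sets `B d` (`d < ω`) such that `C d` is countably chromatic on `B d`.  In ZFC, Q1 has a negative
answer if and only if fineness is compact at `ℵ₂`: a set `S` of size at most `ℵ₂` with a decreasing
sequence of graphs is fine as soon as its subsets of size at most `ℵ₁` are.

The point is that fineness of `S` is countable chromaticity of one graph on `S × ω₁`: join `(a, i)` and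
`(b, j)` if `a, b` are joined in `C d` for the first place `d` at which the reals `z i, z j` differ.
-/

open Cardinal Ordinal Set

namespace Pool.Agent.Results.MP_d06690_lc.Fineness

open Pool.Agent.Lib.IncompactC Pool.Agent.Results.MP_d06690_lc.Reduction

/-- **Theorem** (ZFC).  Q1 has a negative answer if and only if fineness is compact at `ℵ₂`. -/
theorem result : ¬ Q1 ↔ FineCompact := by
  have h1 : Q1 ↔ Incompact := Reduction.result.out 0 2
  rw [h1]
  exact ⟨fineCompact_of_not_incompact, not_incompact_of_fineCompact⟩

end Pool.Agent.Results.MP_d06690_lc.Fineness
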