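import Pool.Agent.Lib.IncompactC.OmegaTwo
import Pool.Agent.Lib.IncompactC.Weak

/-!
# Graphs on `ω₂²` with chromatic number `ℵ₁` (MP_d06690_lc, Q1): a negative answer implies reflection

In ZFC: if Q1 has a negative answer, then every stationary set of at most `ℵ₂` countable subsets of `ω₂`
reflects to some uncountable `γ < ω₂`, and so does every weakly stationary (semistationary) one.

The graph.  Let `C 0 ⊇ C 1 ⊇ ...` be graphs on a set `S`, and let `z i` (`i < ω₁`) be distinct reals.
Join `(a, i)` and `(b, j)` in `S × ω₁` if `a, b` are joined in `C d` for the first place `d` at which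
`z i, z j` differ.  If a part of `S` is covered by sets `B d` on which `C d` is countably chromatic, then
the graph is countably chromatic over this part: colour `(a, i)`, `a ∈ B d`, by `d`, by `z i` below `d`,
and by the colour of `a` for `C d`.  Conversely let `f` be a countable colouring of the whole graph.
For a finite `0-1` sequence `s` of length `d + 1` and a colour `n` let `L s n` be the set of the `a` with
`f (a, i) = n` for some real `z i` extending `s`.  For every `a` there are `i ≠ j` with
`f (a, i) = f (a, j) = n`; if `z i, z j` differ first at `d`, and `s = z j` below `d + 1`, then `a ∈ L s n`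
is not joined in `C d` to any element of `L s n`.  So `S` is covered by sets `B d` as above.

Reflection.  Let `X` be a stationary set of at most `ℵ₂` countable subsets of `ω₂` which does not reflect.
To `a ∈ X` (closed under suitable functions) attach an enumeration `p a` and the label
`δ a = a ∩ ω₁`, and let `C d` join `a, b` if `δ a ≠ δ b` and `p a, p b` agree below `d`.  Stationarity shows
that `X` is not covered by sets `B d` as above.  Below any `x < ω₂`, with an injection `ι` of `x` into `ω₁`,
such sets exist: one of countably many functions into `ω₁` takes a value `≥ δ a` at some finite subset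
of `a`, since otherwise `a` would be equal to `{β < γ : ι γ β < δ a}` for some `γ ≤ x` and closed under
the function which witnesses that `X` does not reflect to `γ`.
-/

open Cardinal Ordinal Set

namespace Pool.Agent.Results.MP_d06690_lc.Reflection

open Pool.Agent.Lib.IncompactC Pool.Agent.Results.MP_d06690_lc.Reduction

/-- **Theorem** (ZFC).  Q1 has a positive answer, or every stationary, and every weakly stationary, set
of at most `ℵ₂` countable subsets of `ω₂` reflects to an uncountable initial segment of `ω₂`. -/
theorem result :
    Q1 ∨
      ((∀ X : Set (Set w2.ToType), #X ≤ Cardinal.aleph 2 → Stat X univ →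
        ∃ γ : w2.ToType, ¬ (Iio γ).Countable ∧ Stat X (Iio γ)) ∧
      (∀ X : Set (Set w2.ToType), #X ≤ Cardinal.aleph 2 → WStat pt X univ →
        ∃ γ : w2.ToType, ¬ (Iio γ).Countable ∧ WStat pt X (Iio γ))) := by
  by_cases hQ : Q1
  · exact Or.inl hQ
  · have h1 : Q1 ↔ Incompact := Reduction.result.out 0 2
    have hF : FineCompact := by
      rw [h1] at hQ
      exact fineCompact_of_not_incompact hQ
    refine Or.inr ⟨?_, ?_⟩
    · intro X hX hst
      exact reflect_w2 hF X hX hst
    · intro X hX hst
      exact reflect_weak setting bound_w2
        (fun P hP hloc => covered_of_compact hF ⊤ P hP hloc) X hX hst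

end Pool.Agent.Results.MP_d06690_lc.Reflection
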