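import Pool.Agent.Lib.H98A.Final

set_option autoImplicit false

/-!
# MP_d8119f_gt: for almost all coverings of a surface the lower bound for the thick embedding radius is not attained

For every triangulated closed orientable surface `K` of genus `g ≥ 2` and every `n ≥ 5`, consider the `d`-sheeted coverings of `K` with the
lifted triangulations, realized on the vertex set `V × {1, ..., d}` over the vertex set `V` of `K` (every `d`-sheeted covering is isomorphic
to one of these). There is `h > 0` such that, for every `M`, all the coverings except a proportion `exp (- a d)` of the number of the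
coverings that are connected, with expansion at least `h`, have a combinatorially-thick embedding radius larger than `M G ^ (1 / (n - 1))`,
`G = d (g - 1) + 1`.
-/

open H32D

namespace Pool.Agent.Results.MP_d8119f_gt.AlmostAllCovers

/-- The `d`-sheeted coverings of `K` on the vertex set `V × Fin d` (with the lifted triangulation) that are closed connected orientable
surfaces and whose `1`-skeleton has edge expansion at least `h`. It is a finite set. -/
def Covers {V : Type} [Fintype V] [DecidableEq V] (K : Cpx V) (d : ℕ) (h : ℝ) : Set (Cpx (V × Fin d)) :=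
  {L | IsCovering Prod.fst L K ∧ IsSurface L ∧ Expands L.graph h}

/-- The genus of the connected `d`-sheeted coverings of a surface of genus `g`. -/
def genus (g d : ℕ) : ℕ := d * (g - 1) + 1

theorem result {V : Type} [Fintype V] [DecidableEq V] (K : Cpx V) (hK : IsSurface K) (g : ℕ) (hg : 2 ≤ g)
    (hχ : K.euler = 2 - 2 * (g : ℤ)) (n : ℕ) (hn : 5 ≤ n) :
    ∃ h : ℝ, 0 < h ∧
      (∀ (d : ℕ) (L : Cpx (V × Fin d)), IsCovering Prod.fst L K → L.euler = 2 - 2 * (genus g d : ℤ)) ∧
      (∃ d₁ : ℕ, ∀ d : ℕ, d₁ ≤ d → (Covers K d h).Nonempty) ∧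
      (∀ M : ℝ, ∃ (a : ℝ) (d₀ : ℕ), 0 < a ∧ ∀ d : ℕ, d₀ ≤ d →
        (Set.ncard {L : Cpx (V × Fin d) | IsCovering Prod.fst L K ∧
            thickRadius n L ≤ ENNReal.ofReal (M * (genus g d : ℝ) ^ (1 / ((n : ℝ) - 1)))} : ℝ) ≤
          Real.exp (-(a * d)) * (Set.ncard (Covers K d h) : ℝ)) := by
  obtain ⟨c, C, h, hc, hC, hh, h1, ⟨d1, h2⟩, h3⟩ := H98A.coverings K hK g hg hχ n hn
  refine ⟨h, hh, h1, ⟨d1, fun d hd => ?_⟩, h3⟩
  obtain ⟨L, hL1, hL2, hL3, hL4⟩ := (h2 d hd).2
  exact ⟨L, hL1, hL2, hL3⟩

end Pool.Agent.Results.MP_d8119f_gt.AlmostAllCovers
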