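import Pool.Agent.Lib.H32N.Final

set_option autoImplicit false

/-!
# MP_d8119f_gt: the growth rate of the thick embedding radius of expander coverings is not a function of the genus

For every triangulated closed orientable surface `K` of genus at least two and every `n ≥ 5` there are two sequences of finite coverings of `K`,
with the lifted triangulations, of the same genera `G i → ∞`, all with uniformly expanding `1`-skeletons, such that the
combinatorially-thick embedding radius in dimension `n` lies between two constant multiples of `(G i) ^ (1 / (n - 1))` for the first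
sequence and grows strictly faster than `(G i) ^ (1 / (n - 1))` for the second sequence.
-/

open H32D

namespace Pool.Agent.Results.MP_d8119f_gt.BothRates

theorem result {V : Type} [Fintype V] [DecidableEq V] (K : Cpx V) (hK : IsSurface K) (g : ℕ) (hg : 2 ≤ g)
    (hχ : K.euler = 2 - 2 * (g : ℤ)) (n : ℕ) (hn : 5 ≤ n) :
    ∃ c C h : ℝ, 0 < c ∧ 0 < C ∧ 0 < h ∧ ∃ G : ℕ → ℕ, Filter.Tendsto G Filter.atTop Filter.atTop ∧
      (∃ (W : ℕ → Type) (_ : ∀ i, Fintype (W i)) (_ : ∀ i, DecidableEq (W i)) (L : ∀ i, Cpx (W i)) (p : ∀ i, W i → V),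
        ∀ i, IsSurface (L i) ∧ IsCovering (p i) (L i) K ∧ (L i).euler = 2 - 2 * (G i : ℤ) ∧ Expands (L i).graph h ∧
          ENNReal.ofReal (c * (G i : ℝ) ^ (1 / ((n : ℝ) - 1))) ≤ thickRadius n (L i) ∧
          thickRadius n (L i) ≤ ENNReal.ofReal (C * (G i : ℝ) ^ (1 / ((n : ℝ) - 1)))) ∧
      (∃ (W : ℕ → Type) (_ : ∀ i, Fintype (W i)) (_ : ∀ i, DecidableEq (W i)) (L : ∀ i, Cpx (W i)) (p : ∀ i, W i → V),
        (∀ i, IsSurface (L i) ∧ IsCovering (p i) (L i) K ∧ (L i).euler = 2 - 2 * (G i : ℤ) ∧ Expands (L i).graph h) ∧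
          ∀ M : ℝ, ∀ᶠ i in Filter.atTop, ENNReal.ofReal (M * (G i : ℝ) ^ (1 / ((n : ℝ) - 1))) ≤ thickRadius n (L i)) := by
  obtain ⟨c, C, h, hc, hC, hh, ⟨G, hG, hA, hB⟩, -⟩ := H32N.both_rates K hK g hg hχ n hn
  exact ⟨c, C, h, hc, hC, hh, G, hG, hA, hB⟩

end Pool.Agent.Results.MP_d8119f_gt.BothRates
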