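import Pool.Agent.Lib.H98A.S4

set_option autoImplicit false

/-!
# MP_d8119f_gt: expander coverings of a surface which attain the lower bound for the thick embedding radius

For every triangulated closed orientable surface `K` of genus `g ≥ 2` and every `n ≥ 5`, and for every sufficiently large degree `d`, the surface
has a `d`-sheeted covering `L`, with the lifted triangulation, whose `1`-skeleton is an expander (uniformly in `d`) and whose
combinatorially-thick embedding radius in dimension `n` lies between two constant multiples of `G ^ (1 / (n - 1))`, where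
`G = d (g - 1) + 1` is the genus of `L`.
-/

open H32D

namespace Pool.Agent.Results.MP_d8119f_gt.ExpanderCovers

/-- The genus of the connected `d`-sheeted coverings of a surface of genus `g`. -/
def genus (g d : ℕ) : ℕ := d * (g - 1) + 1

theorem result {V : Type} [Fintype V] [DecidableEq V] (K : Cpx V) (hK : IsSurface K) (g : ℕ) (hg : 2 ≤ g)
    (hχ : K.euler = 2 - 2 * (g : ℤ)) (n : ℕ) (hn : 5 ≤ n) :
    ∃ c C h : ℝ, 0 < c ∧ 0 < C ∧ 0 < h ∧ ∃ d₁ : ℕ, ∀ d : ℕ, d₁ ≤ d →
      ∃ L : Cpx (V × Fin d), IsCovering Prod.fst L K ∧ IsSurface L ∧ L.euler = 2 - 2 * (genus g d : ℤ) ∧ Expands L.graph h ∧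
        ENNReal.ofReal (c * (genus g d : ℝ) ^ (1 / ((n : ℝ) - 1))) ≤ thickRadius n L ∧
        thickRadius n L ≤ ENNReal.ofReal (C * (genus g d : ℝ) ^ (1 / ((n : ℝ) - 1))) := by
  obtain ⟨C, h, hC, hh, d1, hup⟩ := H98A.up_all K hK g hg hχ n hn
  obtain ⟨c, hc, d2, hlow⟩ := H98A.low_all K hK g hg n hn h hh
  refine ⟨c, C, h, hc, hC, hh, max d1 d2, fun d hd => ?_⟩
  obtain ⟨L, hL1, hL2, hL3, hL4⟩ := hup d ((le_max_left _ _).trans hd)
  exact ⟨L, hL1, hL2, H98A.euler_all hg hχ d L hL1, hL3, hlow d ((le_max_right _ _).trans hd) L hL1 hL3, hL4⟩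

end Pool.Agent.Results.MP_d8119f_gt.ExpanderCovers
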