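import Pool.Agent.Lib.H32N.Final

set_option autoImplicit false

/-!
# MP_d8119f_gt: expander coverings of a surface for which the lower bound for the thick embedding radius is not attained

For every triangulated closed orientable surface `K` of genus at least two and every `n ≥ 5` there is `h > 0` such that, for every `M` and
every sufficiently large degree `d`, the surface has a covering `L` of degree `d`, with the lifted triangulation, whose `1`-skeleton has edge
expansion at least `h` and whose combinatorially-thick embedding radius in dimension `n` is at least `M G ^ (1 / (n - 1))`, where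
`G = d (g - 1) + 1` is the genus of `L`.
-/

open H32D

namespace Pool.Agent.Results.MP_d8119f_gt.GenericCovers

theorem result {V : Type} [Fintype V] [DecidableEq V] (K : Cpx V) (hK : IsSurface K) (g : ℕ) (hg : 2 ≤ g)
    (hχ : K.euler = 2 - 2 * (g : ℤ)) (n : ℕ) (hn : 5 ≤ n) :
    ∃ h : ℝ, 0 < h ∧ ∀ M : ℝ, ∃ d0 : ℕ, ∀ d : ℕ, d0 ≤ d →
      ∃ (W : Type) (_ : Fintype W) (_ : DecidableEq W) (L : Cpx W) (p : W → V),
        IsSurface L ∧ IsCovering p L K ∧ L.euler = 2 - 2 * ((d * (g - 1) + 1 : ℕ) : ℤ) ∧ Expands L.graph h ∧
          ENNReal.ofReal (M * ((d * (g - 1) + 1 : ℕ) : ℝ) ^ (1 / ((n : ℝ) - 1))) ≤ thickRadius n L :=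
  H32N.generic_covers K hK g hg hχ n hn

end Pool.Agent.Results.MP_d8119f_gt.GenericCovers
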