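import Pool.Agent.Lib.H31X.Fin

/-!
# Almost all terms of `π(n^2)/n^2` are smaller than all earlier and larger than all later terms

Let `r n = π(n^2)/n^2`. We prove: for all large `N`, all but at most `N exp (-(log N)^(1/11))` of the
`n ≤ N` satisfy `r m > r n` for all `2 ≤ m < n` and `r n > r l` for all `l > n`.

Method (`Pool/Agent/Lib/H31V`, `H31X`, `H31W`, with `PROOF.md` in each): Vinogradov's mean value theorem,
zeta sums and the zero-free region of Vinogradov and Korobov; with it the mean square of `Λ` over
intervals of length `√X`, by Vaughan's identity and Plancherel's theorem; the passage from averages to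
every pair `m, n` uses only monotonicity and the prime number theorem with error term.
-/

namespace Pool.Agent.Results.MP_da1588_nt.AlmostAllDecreasing

/-- `r n = π(n^2)/n^2`, where `π(k)` is the number of primes `p ≤ k`. -/
noncomputable def r (n : ℕ) : ℝ := (Nat.primeCounting (n ^ 2) : ℝ) / (n : ℝ) ^ 2

/-- `n` is good: `r m > r n` for all `m` with `2 ≤ m < n`, and `r n > r l` for all `l > n`. -/
def Good (n : ℕ) : Prop := (∀ m : ℕ, 2 ≤ m → m < n → r n < r m) ∧ ∀ l : ℕ, n < l → r l < r n

open Classical in
/-- For all large `N` at most `N exp (-(log N)^(1/11))` of the `n` with `1 ≤ n ≤ N` are not good. -/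
theorem result : ∃ N₀ : ℕ, ∀ N : ℕ, N₀ ≤ N →
    (((Finset.Icc 1 N).filter (fun n => ¬ Good n)).card : ℝ) ≤
      N * Real.exp (-(Real.log N) ^ (1 / 11 : ℝ)) :=
  Pool.Agent.Lib.H31X.final_thm

end Pool.Agent.Results.MP_da1588_nt.AlmostAllDecreasing
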