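import Mathlib
import Pool.Agent.Lib.H3E.Half

/-!
# MP_e5893c_co: the second neighbourhood sum of an Eulerian oriented graph is at least half of the number of arcs
-/

set_option autoImplicit false

namespace Pool.Agent.Results.MP_e5893c_co.HalfForAll

open Finset H3E

/-- For every finite oriented graph in which each vertex has equal in- and out-degree, twice the number of
pairs at distance exactly two is at least the number of arcs plus the number of non-isolated vertices. -/
theorem result (V : Type) [Fintype V] (G : Digraph V) (hloop : ∀ v, ¬ G.Adj v v)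
    (hdigon : ∀ u v, G.Adj u v → ¬ G.Adj v u)
    (heuler : ∀ v, {w | G.Adj v w}.ncard = {w | G.Adj w v}.ncard) :
    ∑ v, {w | G.Adj v w}.ncard + {v | ∃ w, G.Adj v w}.ncard ≤
      2 * ∑ v, {w | w ≠ v ∧ ¬ G.Adj v w ∧ ∃ u, G.Adj v u ∧ G.Adj u w}.ncard := by
  classical
  have hA : ∀ v, (A G.Adj v).card = {w | G.Adj v w}.ncard := by
    intro v
    rw [← Set.ncard_coe_finset]
    congr 1
    ext w
    simp only [Finset.mem_coe, mem_A, Set.mem_setOf_eq]
  have hI : ∀ v, (A (flip G.Adj) v).card = {w | G.Adj w v}.ncard := by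
    intro v
    rw [← Set.ncard_coe_finset]
    congr 1
    ext w
    simp only [Finset.mem_coe, mem_A, Set.mem_setOf_eq, flip]
  have hB : ∀ v, (B G.Adj v).card = {w | w ≠ v ∧ ¬ G.Adj v w ∧ ∃ u, G.Adj v u ∧ G.Adj u w}.ncard := by
    intro v
    rw [← Set.ncard_coe_finset]
    congr 1
    ext w
    simp only [Finset.mem_coe, mem_B, Set.mem_setOf_eq]
  have h1 := half hloop hdigon (fun v => by rw [hA, hI, heuler])
  have h2 : (univ.filter fun v : V => (A G.Adj v).Nonempty).card = {v | ∃ w, G.Adj v w}.ncard := by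
    rw [← Set.ncard_coe_finset]
    congr 1
    ext v
    simp only [Finset.coe_filter, mem_univ, true_and, Set.mem_setOf_eq]
    exact ⟨fun ⟨w, hw⟩ => ⟨w, mem_A.1 hw⟩, fun ⟨w, hw⟩ => ⟨w, mem_A.2 hw⟩⟩
  simp only [hA, hB, h2] at h1
  exact h1

end Pool.Agent.Results.MP_e5893c_co.HalfForAll
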