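import Mathlib
import Pool.Agent.Lib.H3E.Reg

/-!
# MP_e5893c_co: regular oriented graphs, constant five eighths
-/

set_option autoImplicit false

namespace Pool.Agent.Results.MP_e5893c_co.RegularFiveEighths

open Finset H3E

/-- For every finite oriented graph on n vertices in which all in- and out-degrees are d ≥ 1, the number S of
pairs at distance exactly two satisfies 8 d S ≥ n (5 d ^ 2 + 4 d - 1), so S is more than five eighths of the
number n d of arcs. -/
theorem result (V : Type) [Fintype V] (G : Digraph V) (d : ℕ) (hd : 1 ≤ d)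
    (hdigon : ∀ u v, G.Adj u v → ¬ G.Adj v u)
    (hout : ∀ v, {w | G.Adj v w}.ncard = d) (hin : ∀ v, {w | G.Adj w v}.ncard = d) :
    Fintype.card V * (5 * d ^ 2 + 4 * d - 1) ≤
      8 * d * ∑ v, {w | w ≠ v ∧ ¬ G.Adj v w ∧ ∃ u, G.Adj v u ∧ G.Adj u w}.ncard := by
  classical
  have hloop : ∀ v, ¬ G.Adj v v := fun v h => hdigon v v h h
  have hA : ∀ v, (A G.Adj v).card = d := by
    intro v
    rw [← hout v, ← Set.ncard_coe_finset]
    congr 1
    ext w
    simp only [Finset.mem_coe, mem_A, Set.mem_setOf_eq]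
  have hI : ∀ v, (A (flip G.Adj) v).card = d := by
    intro v
    rw [← hin v, ← Set.ncard_coe_finset]
    congr 1
    ext w
    simp only [Finset.mem_coe, mem_A, Set.mem_setOf_eq, flip]
  have hB : ∀ v, (B G.Adj v).card = {w | w ≠ v ∧ ¬ G.Adj v w ∧ ∃ u, G.Adj v u ∧ G.Adj u w}.ncard := by
    intro v
    rw [← Set.ncard_coe_finset]
    congr 1
    ext w
    simp only [Finset.mem_coe, mem_B, Set.mem_setOf_eq]
  have h1 := five_eighths hloop hdigon hA hI hd
  simp only [hB] at h1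
  have h2 : ((5 * d ^ 2 + 4 * d - 1 : ℕ) : ℤ) = 5 * (d : ℤ) ^ 2 + 4 * d - 1 := by
    rw [Nat.cast_sub (by nlinarith)]
    push_cast
    ring
  have h3 : ((Fintype.card V * (5 * d ^ 2 + 4 * d - 1) : ℕ) : ℤ) ≤
      ((8 * d * ∑ v, {w | w ≠ v ∧ ¬ G.Adj v w ∧ ∃ u, G.Adj v u ∧ G.Adj u w}.ncard : ℕ) : ℤ) := by
    rw [Nat.cast_mul, h2]
    push_cast
    exact h1
  exact_mod_cast h3

end Pool.Agent.Results.MP_e5893c_co.RegularFiveEighths
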