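import Pool.Agent.Lib.Helper67.Twist

/-!
# Genericity of compactly induced representations of covering groups: a disproof

Problem MP_eb52a2_al, Q1, is answered in the negative for `G = Sp_4(ℚ_3)`.

Let `P` be the Siegel parahoric subgroup, `P⁺` its pro-unipotent radical, and `K = {±1} P⁺`.
The quotient of `P⁺` by the next group in its filtration consists of pairs `(B, C)` of symmetric
`2 × 2` matrices over `𝔽_3`, so two binary quadratic forms `X, Y` over `𝔽_3` give a cubic character
`χ_{X,Y}` of `K`.

* If `Y` is anisotropic, `X` is nondegenerate and only `± 1` preserves both forms, then no element
  outside `K` intertwines `χ_{X,Y}`, and `ind_K^G χ_{X,Y}` is irreducible supercuspidal.  The proof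
  tests an intertwining element on transvections and uses duality of lattices.
* If both forms are anisotropic then `χ_{X,Y}` is nontrivial on the intersection of `K` with the
  centre of the unipotent radical of every Borel subgroup; this centre lies in the derived group,
  so the representation is not generic.
* If `X` is isotropic, then `χ_{X,Y}` extends from `K ∩ N` to a non-degenerate character of `N` for a
  suitable `N`, and the representation is generic.

The characters `ρ₁ = χ_{X₁,Y}` and `ρ₂ = χ_{X₂,Y}` with `X₁ = x² + y²`, `X₂ = 2xy`,
`Y = x² + 2xy - y²` differ by a cubic character of `K`.  Changing the splitting over `K` by that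
character turns the genuine representation attached to `ρ₁` into the one attached to `ρ₂`.
-/

set_option autoImplicit false

namespace Pool.Agent.Results.MP_eb52a2_al.SplittingTwist

open Pool.Agent.Lib.Helper67

/-- **Negative answer to Q1 for `G = Sp_4(ℚ_3)`.**

(a) For the trivial cover `G × μ₃ → G` of degree three both implications in the question fail: there
are instances `I` and `J` of the question such that for `I` the representation `Π` is not generic
and `Π̃` is generic, and for `J` the representation `Π` is generic and `Π̃` is not generic; in both
cases `Π̃` is irreducible supercuspidal as well.

(b) For every finite cover of `G` with cyclic kernel `Z` of order divisible by `3` which splits over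
`K = {±1} P⁺`, and every faithful character `ε` of `Z`, there is an instance of the question with
this `K` for which exactly one of `Π` and `Π̃` is generic. -/
theorem result :
    (∃ I J : Inst trivCov,
      (I.SupercuspidalTilde ∧ ¬ I.Generic ∧ I.GenericTilde) ∧
      (J.SupercuspidalTilde ∧ J.Generic ∧ ¬ J.GenericTilde)) ∧
    ∀ C : Cov, 3 ∣ Nat.card C.p.ker → (∃ s, IsSplitting C.p KK s) →
      ∃ I : Inst C, I.K = KK ∧ ¬ (I.GenericTilde ↔ I.Generic) :=
  ⟨partA, partB⟩

end Pool.Agent.Results.MP_eb52a2_al.SplittingTwist
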