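import Mathlib
import Pool.Agent.Lib.H13E.Final

/-!
# The Birch and Swinnerton-Dyer conjecture (rank part and 3-part) for y^2 = x^3 - 1 over pure cubic
# fields and other number fields which do not contain the cube roots of unity

F is the third cyclotomic field, O its ring of integers, E144 the elliptic curve y^2 = x^3 - 1
over the rationals (conductor 144). A prime v of O is good if it does not divide 6 and -1 is not a square
modulo v. BSD3 K₀ says: the L-series of E144 over the number field K₀ (Mathlib:
WeierstrassCurve.LSeries) converges absolutely for Re s > 3/2, continues analytically to Re s > 1/2,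
does not vanish at s = 1, the analytic order of the Tate-Shafarevich group (the number shaAn which the refined
conjecture predicts, with the real period for the real places, the complex period for the complex
places, the discriminant, the Tamagawa numbers and the order of the group of points) is a 3-adic unit;
the Selmer groups of the two isogenies of degree 3 between y^2 = x^3 - 1 and y^2 = x^3 + 27 over K₀ are
trivial (so the Tate-Shafarevich group has no 3-torsion), and E144(K₀) is finite of order prime to 3.

(1) The period lattice exists.
(2) BSD3 K₀ holds for every number field K₀ of degree a power of 3 contained in a field generated by m-th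
    roots of unity and cube roots of integers congruent to 1 or -1 modulo 9, m squarefree, all prime factors
    of m and of these integers being 7 modulo 12 (Fam K₀). These fields do not contain F.
(3) Examples: for every prime p = 19 mod 36 the pure cubic field generated by a cube root of p.
(4) There are such fields of arbitrarily large degree, not Galois over the rationals.
(5) More generally BSD3 K₀ holds for every K₀ not containing F such that K = K₀ F is an abelian extension
    of F of 3-power degree with a modulus of good primes (IsModulus: the congruence condition of class
    field theory; nothing of class field theory is assumed).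
(6) The algebraic part (SelThree) holds for every subfield K₀ of every Galois extension of F of 3-power
    degree, abelian or not, which is unramified outside good primes.
-/

open NumberField IsDedekindDomain H13E
open H55B (O F)

namespace Pool.Agent.Results.MP_f50388_nt.CubicFields

theorem result :
    (∃ L : PeriodPair, L.g₂ = 0 ∧ L.g₃ = 4) ∧
    (∀ (K₀ : Type) [Field K₀] [NumberField K₀], Fam K₀ → BSD3 K₀) ∧
    (∀ B : ℕ, ∃ (K₀ : Type) (_ : Field K₀) (_ : NumberField K₀) (p : ℕ) (t : K₀),
      p.Prime ∧ B < p ∧ p % 36 = 19 ∧ t ^ 3 = (p : K₀) ∧ Module.finrank ℚ K₀ = 3 ∧
        ¬ IsGalois ℚ K₀ ∧ Fam K₀) ∧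
    (∀ n : ℕ, ∃ (K₀ : Type) (_ : Field K₀) (_ : NumberField K₀),
      n ≤ Module.finrank ℚ K₀ ∧ ¬ IsGalois ℚ K₀ ∧ Fam K₀) ∧
    (∀ (K₀ K : Type) [Field K₀] [NumberField K₀] [Field K] [NumberField K] [Algebra F K]
      [Algebra K₀ K], Quad K₀ K → AbMod K → BSD3 K₀) ∧
    (∀ (K₀ : Type) [Field K₀] [NumberField K₀], Sub3 K₀ → SelThree K₀) :=
  H13E.final

end Pool.Agent.Results.MP_f50388_nt.CubicFields
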