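import Mathlib
import Pool.Agent.Lib.H35T.Final

/-!
# The 3-part of the Birch and Swinnerton-Dyer conjecture over 3-extensions of the field of cube
# roots of unity, for the curve y^2 = x^3 - 1

F is the third cyclotomic field, O its ring of integers, E144 the elliptic curve y^2 = x^3 - 1
over the rationals (conductor 144). A prime v of O is good (Good v) if it does not divide 6 and
-1 is not a square modulo v. BSDThree K says: the Selmer group of E144 over K for the endomorphism
multiplication by the square root of -3 is trivial (so the Tate-Shafarevich group has no 3-torsion),
E144(K) is finite of order prime to 3, the L-series of E144 over K (Mathlib: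
WeierstrassCurve.LSeries) converges absolutely for Re s > 3/2, continues analytically to
Re s > 1/2, does not vanish at s = 1, and the analytic order of the Tate-Shafarevich group (the
number which the refined conjecture predicts: shaAn) is a 3-adic unit.

(1) BSDThree K holds for every abelian extension K/F of 3-power degree with a modulus of good primes
    (IsModulus: the congruence condition of class field theory; no theorem of class field theory is
    used or assumed).
(2) This applies to every field K of 3-power degree over F inside a field generated over F by cube
    roots of admissible elements (Adm) and m-th roots of unity, m a squarefree product of primes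
    l = 7 mod 12 (Explicit K).
(3) Every finite abelian 3-group is the Galois group of such a K/F, with all ramified primes of norm
    greater than any given bound (so there are infinitely many K).
(4) Such K of arbitrarily large degree which are not Galois over the rationals exist.
(5) For every Galois extension K/F of 3-power degree, abelian or not, which is unramified outside good
    primes, the Selmer group of E144 over K is trivial and E144(K) is finite of order prime to 3.
(6) Nonabelian K as in (5) exist.
-/

open NumberField IsDedekindDomain H35T
open H55B (O F)

namespace Pool.Agent.Results.MP_f50388_nt.ThreeAdicBSD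

theorem result :
    (∀ (K : Type) [Field K] [NumberField K] [Algebra F K], ThreeExt K → AbMod K → BSDThree K) ∧
    (∀ (K : Type) [Field K] [NumberField K] [Algebra F K], Explicit K →
      (∃ k : ℕ, Module.finrank F K = 3 ^ k) → ThreeExt K ∧ AbMod K) ∧
    (∀ (A : Type) [CommGroup A] [Finite A] (k : ℕ), Nat.card A = 3 ^ k → ∀ B : ℕ,
      ∃ (K : Type) (_ : Field K) (_ : NumberField K) (_ : Algebra F K), ThreeExt K ∧ AbMod K ∧
        Nonempty ((K ≃ₐ[F] K) ≃* A) ∧
        ∀ w : HeightOneSpectrum (𝓞 K), w.asIdeal.ramificationIdx O ≠ 1 →
          B < Ideal.absNorm w.asIdeal) ∧
    (∀ n : ℕ, ∃ (K : Type) (_ : Field K) (_ : NumberField K) (_ : Algebra F K),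
      ThreeExt K ∧ AbMod K ∧ n ≤ Module.finrank ℚ K ∧ ¬ IsGalois ℚ K) ∧
    (∀ (K : Type) [Field K] [NumberField K] [Algebra F K], ThreeExt K → UnrOut K → SelThree K) ∧
    (∃ (K : Type) (_ : Field K) (_ : NumberField K) (_ : Algebra F K), ThreeExt K ∧ UnrOut K ∧
      ∃ g h : K ≃ₐ[F] K, g * h ≠ h * g) :=
  H35T.final

end Pool.Agent.Results.MP_f50388_nt.ThreeAdicBSD
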