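import Pool.Agent.Lib.H96U.Final
import Pool.Agent.Lib.HUK.FIN

/-!
# Linear families of tuples: power-saving exceptional sets

The tuple `b_1 + ψ_1(t), …, b_k + ψ_k(t)`, `ψ_i` fixed different integral linear forms in `t = (t_1, …, t_d)` (for example
`0, t, 2 t, …, (k - 1) t`), the `b_i` arbitrary. For all but `T^(d-η)` of the `t ∈ [0, T]^d` either the tuple is not admissible,
or at least `T^(1-ε)` integers `n ≤ T` make all the `n + b_i + ψ_i(t)` prime.
-/

open Finset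

namespace Pool.Agent.Results.MP_f686a1_nt.AllLinearFamilies

/-- A finite set of non-negative integers is admissible if for every prime `p` some residue class
modulo `p` contains none of its elements. -/
def Admissible (A : Finset ℕ) : Prop :=
  ∀ p : ℕ, p.Prime → ∃ r : ZMod p, ∀ a ∈ A, (a : ZMod p) ≠ r

/-- The number of the positive integers `n ≤ T` for which all `n + a`, `a ∈ A`, are prime. -/
noncomputable def primeTranslates (T : ℕ) (A : Finset ℕ) : ℕ :=
  {n : ℕ | 1 ≤ n ∧ n ≤ T ∧ ∀ a ∈ A, (n + a).Prime}.ncard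

/-- The shift `b_i + ∑_j c_ij t_j`. -/
def shift {k d : ℕ} (c : Fin k → Fin d → ℤ) (b : Fin k → ℤ) (t : Fin d → ℕ) (i : Fin k) : ℤ :=
  b i + ∑ j, c i j * t j

/-- The set of the shifts (used when they are all non-negative). -/
def shifts {k d : ℕ} (c : Fin k → Fin d → ℤ) (b : Fin k → ℤ) (t : Fin d → ℕ) : Finset ℕ :=
  univ.image fun i => (shift c b t i).toNat

/-- The `t ∈ [0, T]^d` with non-negative shifts, admissible, with fewer than `T^(1-ε)` prime translates up to `T`. -/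
def exceptional {k d : ℕ} (c : Fin k → Fin d → ℤ) (b : Fin k → ℤ) (T : ℕ) (ε : ℝ) : Set (Fin d → ℕ) :=
  {t | (∀ j, t j ≤ T) ∧ (∀ i, 0 ≤ shift c b t i) ∧ Admissible (shifts c b t) ∧
    (primeTranslates T (shifts c b t) : ℝ) < (T : ℝ) ^ (1 - ε)}

/-- **The main theorem.** -/
theorem result {k d : ℕ} (hk : 1 ≤ k) (hd : 1 ≤ d) (c : Fin k → Fin d → ℤ)
    (hc : Function.Injective c) (C : ℕ) (ε : ℝ) (hε : 0 < ε) :
    ∃ η : ℝ, 0 < η ∧ ∃ T₀ : ℕ, ∀ T : ℕ, T₀ ≤ T → ∀ b : Fin k → ℤ, (∀ i, |b i| ≤ C * T) →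
      ((exceptional c b T ε).ncard : ℝ) ≤ (T : ℝ) ^ (d - η) := by
  classical
  obtain ⟨η, hη, T₀, h⟩ := Pool.Agent.H96U.F4_main hd c (Pool.Agent.HUK.FIN_all k d _ hk hd (Pool.Agent.H96U.fin_fsys c hc)) C ε hε
  refine ⟨η, hη, T₀, fun T hT b hb => ?_⟩
  refine le_trans (Nat.cast_le.2 ?_) (h T hT b fun i => by push_cast; exact hb i)
  rw [← Set.ncard_coe_finset]
  refine Set.ncard_le_ncard ?_ (Finset.finite_toSet _)
  rintro t ⟨h1, h2, h3, h4⟩
  refine mem_coe.2 (mem_filter.2 ⟨?_, h2, ?_, ?_⟩)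
  · unfold Pool.Agent.Lib.H59P.bx
    rw [Fintype.mem_piFinset]
    intro j
    rw [mem_range]
    have := h1 j
    omega
  · intro l hl
    obtain ⟨r, hr⟩ := h3 l hl
    have : NeZero l := ⟨hl.ne_zero⟩
    refine ⟨-(r.val : ℤ), fun i hi => ?_⟩
    have h5 := hr _ (mem_image_of_mem (fun i => (shift c b t i).toNat) (mem_univ i))
    apply h5
    have h6 : (Pool.Agent.H96U.fsys c).val b (-(r.val : ℤ)) (Pool.Agent.H9U.iv t) i = shift c b t i - r.val := by
      show (1 * (-(r.val : ℤ)) + ∑ j, c i j * (t j : ℤ)) + b i = (b i + ∑ j, c i j * (t j : ℤ)) - r.val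
      ring
    rw [h6, ← ZMod.intCast_zmod_eq_zero_iff_dvd] at hi
    have h7 : ((shift c b t i).toNat : ℤ) = shift c b t i := Int.toNat_of_nonneg (h2 i)
    have h8 : (((shift c b t i).toNat : ℤ) : ZMod l) = ((shift c b t i : ℤ) : ZMod l) := by rw [h7]
    rw [Int.cast_natCast] at h8
    show (((shift c b t i).toNat : ℕ) : ZMod l) = r
    rw [h8]
    push_cast at hi
    rw [ZMod.natCast_zmod_val] at hi
    exact sub_eq_zero.1 hi
  · refine lt_of_le_of_lt (Nat.cast_le.2 ?_) h4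
    unfold primeTranslates
    rw [← Set.ncard_coe_finset]
    refine Set.ncard_le_ncard ?_ (Set.Finite.subset (Finset.finite_toSet (Icc 1 T)) ?_)
    · intro n hn
      rw [mem_coe, mem_filter, mem_Icc] at hn
      refine ⟨hn.1.1, hn.1.2, fun a ha => ?_⟩
      obtain ⟨i, -, rfl⟩ := mem_image.1 ha
      exact hn.2 i
    · rintro n ⟨h5, h6, -⟩
      exact mem_coe.2 (mem_Icc.2 ⟨h5, h6⟩)

end Pool.Agent.Results.MP_f686a1_nt.AllLinearFamilies
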