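import Pool.Agent.Lib.H68T.FIN

/-!
The uniform prime `k`-tuples statement for almost all admissible sets, in the whole range
`k ≤ (log x)^(1-δ)`, `a ≤ x^(1-δ)`, for arbitrarily large `x`.
-/

open Finset

namespace Pool.Agent.Results.MP_f686a1_nt.AlmostAllTuples

/-- A finite set of non-negative integers is admissible if for every prime `p` some residue class
modulo `p` contains none of its elements. -/
def Admissible (A : Finset ℕ) : Prop :=
  ∀ p : ℕ, p.Prime → ∃ r : ZMod p, ∀ a ∈ A, (a : ZMod p) ≠ r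

/-- Some positive integer `n ≤ x` makes all `n + a`, `a ∈ A`, prime. -/
def HasPrimeTranslate (x : ℝ) (A : Finset ℕ) : Prop :=
  ∃ n : ℕ, 1 ≤ n ∧ (n : ℝ) ≤ x ∧ ∀ a ∈ A, (n + a).Prime

/-- The admissible sets with `k` elements, all at most `x ^ (1 - δ)`. -/
def admissibleSets (x δ : ℝ) (k : ℕ) : Set (Finset ℕ) :=
  {A | A.card = k ∧ Admissible A ∧ ∀ a ∈ A, (a : ℝ) ≤ x ^ (1 - δ)}

/-- Multiples of the primorial of `k` form an admissible set. -/
lemma exists_adm (k N : ℕ) (hN : k * primorial k ≤ N) :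
    ∃ A : Finset ℕ, A.card = k ∧ Admissible A ∧ ∀ a ∈ A, a ≤ N := by
  have hpos := primorial_pos k
  refine ⟨(range k).image (fun j => j * primorial k), ?_, ?_, ?_⟩
  · rw [card_image_of_injective, card_range]
    intro a b hab
    exact Nat.eq_of_mul_eq_mul_right hpos hab
  · intro p hp
    have : Fact p.Prime := ⟨hp⟩
    rcases le_or_gt p k with hpk | hpk
    · refine ⟨1, fun a ha h => ?_⟩
      rw [mem_image] at ha
      obtain ⟨j, -, rfl⟩ := ha
      have h1 : ((j * primorial k : ℕ) : ZMod p) = 0 := by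
        rw [ZMod.natCast_eq_zero_iff]
        exact Dvd.dvd.mul_left (hp.dvd_primorial_iff.mpr hpk) j
      rw [h1] at h
      exact zero_ne_one h
    · by_contra hcon
      push Not at hcon
      have h1 : (univ : Finset (ZMod p)) ⊆
          ((range k).image (fun j => j * primorial k)).image (fun a : ℕ => (a : ZMod p)) := by
        intro r _
        obtain ⟨a, ha, har⟩ := hcon r
        exact mem_image.mpr ⟨a, ha, har⟩
      have h2 := card_le_card h1
      rw [card_univ, ZMod.card] at h2
      have h3 := h2.trans (card_image_le.trans card_image_le)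
      rw [card_range] at h3
      omega
  · intro a ha
    rw [mem_image] at ha
    obtain ⟨j, hj, rfl⟩ := ha
    rw [mem_range] at hj
    exact (Nat.mul_le_mul_right _ hj.le).trans hN

/-- **Almost all admissible sets.** For every `0 < δ < 1` there are arbitrarily large `x` such that
for all `k` with `1 ≤ k ≤ (log x)^(1-δ)` there are admissible `k`-element sets in `[0, x^(1-δ)]`, and
all but a proportion `(log x)^(-δ/5)` of them have a translate by some positive integer `n ≤ x`
consisting of primes. -/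
theorem result (δ : ℝ) (hδ : 0 < δ) (hδ1 : δ < 1) (x₀ : ℝ) : ∃ x : ℝ, x₀ ≤ x ∧
    ∀ k : ℕ, 1 ≤ k → (k : ℝ) ≤ (Real.log x) ^ (1 - δ) →
      0 < (admissibleSets x δ k).ncard ∧
      (({A ∈ admissibleSets x δ k | ¬ HasPrimeTranslate x A}.ncard : ℕ) : ℝ) ≤
        (Real.log x) ^ (-(δ / 5)) * ((admissibleSets x δ k).ncard : ℝ) := by
  classical
  have hev : ∀ᶠ L : ℝ in Filter.atTop,
      L ^ (1 - δ) * 2 + Real.log L ≤ (1 - δ) * L ∧ 1 ≤ L := by
    filter_upwards [Pool.Agent.Lib.H68T.ev_rpow (4 / (1 - δ)) (1 - δ) 1 (by linarith),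
      Pool.Agent.Lib.H68T.ev_log (2 / (1 - δ)) 1 one_pos, Filter.eventually_ge_atTop (1:ℝ)]
      with L h1 h2 h3
    have ha : 0 < 1 - δ := by linarith
    rw [Real.rpow_one] at h1 h2
    refine ⟨?_, h3⟩
    have h4 : L ^ (1 - δ) * 2 ≤ (1 - δ) * L / 2 := by
      have := mul_le_mul_of_nonneg_left h1 (show 0 ≤ (1 - δ) / 2 by positivity)
      have e : (1 - δ) / 2 * (4 / (1 - δ) * L ^ (1 - δ)) = L ^ (1 - δ) * 2 := by
        field_simp; ring
      rw [e] at this; linarith
    have h5 : Real.log L ≤ (1 - δ) * L / 2 := by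
      have := mul_le_mul_of_nonneg_left h2 (show 0 ≤ (1 - δ) / 2 by positivity)
      have e : (1 - δ) / 2 * (2 / (1 - δ) * Real.log L) = Real.log L := by
        field_simp
      rw [e] at this; linarith
    linarith
  obtain ⟨L₀, hL₀⟩ := Filter.eventually_atTop.mp hev
  obtain ⟨x, hx, hfin⟩ := Pool.Agent.Lib.H68T.final δ hδ hδ1 (max x₀ (Real.exp (max L₀ 1)))
  refine ⟨x, (le_max_left _ _).trans hx, fun k hk1 hk => ?_⟩
  have hxexp : Real.exp (max L₀ 1) ≤ x := (le_max_right _ _).trans hx
  have hx0 : 0 < x := lt_of_lt_of_le (Real.exp_pos _) hxexp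
  have hL : max L₀ 1 ≤ Real.log x := (Real.le_log_iff_exp_le hx0).mpr hxexp
  obtain ⟨hL1, hL2⟩ := hL₀ (Real.log x) ((le_max_left _ _).trans hL)
  set L := Real.log x with hLdef
  set Y := ⌊x ^ (1 - δ)⌋₊ with hY
  have hpow : 0 ≤ x ^ (1 - δ) := by positivity
  have hmem : ∀ A : Finset ℕ, (∀ a ∈ A, (a : ℝ) ≤ x ^ (1 - δ)) ↔ A ⊆ range (Y + 1) := by
    intro A
    constructor
    · intro h a ha
      rw [mem_range, Nat.lt_add_one_iff, hY]
      exact Nat.le_floor (h a ha)
    · intro h a ha
      have h5 := h ha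
      rw [mem_range, Nat.lt_add_one_iff] at h5
      calc (a : ℝ) ≤ Y := by exact_mod_cast h5
        _ ≤ _ := Nat.floor_le hpow
  have hadm : admissibleSets x δ k =
      ↑(((range (Y + 1)).powersetCard k).filter
        (fun A => Pool.Agent.Lib.H68T.Admissible A)) := by
    ext A
    rw [Finset.mem_coe, mem_filter, mem_powersetCard]
    show A.card = k ∧ Admissible A ∧ (∀ a ∈ A, (a : ℝ) ≤ x ^ (1 - δ)) ↔ _
    rw [hmem]
    have : Admissible A ↔ Pool.Agent.Lib.H68T.Admissible A := Iff.rfl
    rw [this]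
    tauto
  have hbad : {A ∈ admissibleSets x δ k | ¬ HasPrimeTranslate x A} =
      ↑(((range (Y + 1)).powersetCard k).filter (fun A => Pool.Agent.Lib.H68T.Admissible A ∧
        ¬ Pool.Agent.Lib.H68T.HasPrimeTranslate x A)) := by
    ext A
    rw [Set.mem_sep_iff, hadm, Finset.mem_coe, Finset.mem_coe, mem_filter, mem_filter]
    have : HasPrimeTranslate x A ↔ Pool.Agent.Lib.H68T.HasPrimeTranslate x A := Iff.rfl
    rw [this]
    tauto
  refine ⟨?_, ?_⟩
  · obtain ⟨A, hA1, hA2, hA3⟩ := exists_adm k Y (by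
      rw [hY]
      apply Nat.le_floor
      push_cast
      have h1 : (primorial k : ℝ) ≤ 4 ^ k := by exact_mod_cast primorial_le_four_pow k
      have hkL : (k : ℝ) ≤ L := by
        refine hk.trans ?_
        calc L ^ (1 - δ) ≤ L ^ (1:ℝ) := Real.rpow_le_rpow_of_exponent_le hL2 (by linarith)
          _ = L := Real.rpow_one L
      have hlog4 : Real.log 4 ≤ 2 := by
        have : (4:ℝ) = 2 ^ 2 := by norm_num
        rw [this, Real.log_pow]
        have := Real.log_two_lt_d9
        push_cast
        linarith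
      have h2 : (4:ℝ) ^ k = Real.exp (k * Real.log 4) := by
        rw [mul_comm, Real.exp_mul, Real.exp_log (by norm_num), Real.rpow_natCast]
      have hkpos : (0:ℝ) < k := by exact_mod_cast hk1
      have hLpos : 0 < L := by linarith
      calc (k : ℝ) * (primorial k : ℝ) ≤ L * Real.exp (k * Real.log 4) := by
            rw [← h2]
            exact mul_le_mul hkL h1 (by positivity) (by positivity)
        _ = Real.exp (Real.log L + k * Real.log 4) := by
            rw [Real.exp_add, Real.exp_log hLpos]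
        _ ≤ Real.exp ((1 - δ) * L) := by
            apply Real.exp_le_exp.mpr
            have h3 : (k:ℝ) * Real.log 4 ≤ L ^ (1 - δ) * 2 :=
              mul_le_mul hk hlog4 (Real.log_nonneg (by norm_num)) (by positivity)
            linarith
        _ = x ^ (1 - δ) := by
            rw [Real.rpow_def_of_pos hx0, mul_comm])
    rw [hadm, Set.ncard_coe_finset, card_pos]
    refine ⟨A, ?_⟩
    rw [mem_filter, mem_powersetCard]
    refine ⟨⟨fun a ha => ?_, hA1⟩, hA2⟩
    rw [mem_range, Nat.lt_add_one_iff]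
    exact hA3 a ha
  · have h := hfin k hk1 hk
    rw [hbad, hadm, Set.ncard_coe_finset, Set.ncard_coe_finset]
    exact h

end Pool.Agent.Results.MP_f686a1_nt.AlmostAllTuples
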