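import Mathlib
import Pool.Agent.Lib.Helper57.UniformCore

/-!
Uniform almost-prime `k`-tuples: the uniform prime `k`-tuples statement with primes replaced by
squarefree numbers with at most `C log (k + 1)` prime factors, all exceeding `x ^ (1 / (C k))`.
-/

open Finset Pool.Agent.Lib.Helper57

namespace Pool.Agent.Results.MP_f686a1_nt.AlmostPrimeTuples

/-- A finite set of non-negative integers is admissible if for every prime `p` some residue class
modulo `p` contains none of its elements. -/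
def Admissible (A : Finset ℕ) : Prop :=
  ∀ p : ℕ, p.Prime → ∃ r : ZMod p, ∀ a ∈ A, (a : ZMod p) ≠ r

lemma Admissible.exists_nat {A : Finset ℕ} (hA : Admissible A) {p : ℕ} (hp : p.Prime) :
    ∃ r : ℕ, ∀ a ∈ A, ¬ p ∣ r + a := by
  have : Fact p.Prime := ⟨hp⟩
  obtain ⟨r, hr⟩ := hA p hp
  refine ⟨(-r).val, fun a ha hdvd => hr a ha ?_⟩
  rw [← ZMod.natCast_eq_zero_iff] at hdvd
  push_cast at hdvd
  rw [ZMod.natCast_zmod_val] at hdvd
  linear_combination hdvd

/-- **Uniform almost-prime tuples.** There is an absolute constant `C` such that for every real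
`x ≥ 16` and every nonempty admissible set `A` of non-negative integers `≤ x` with
`C |A| log log x ≤ log x`, some positive integer `n ≤ x` makes every `n + a` (`a ∈ A`) a squarefree
number with at most `C log (|A| + 1)` prime factors, all of them larger than
`x ^ (1 / (C |A|))`. -/
theorem result : ∃ C : ℝ, 0 < C ∧ ∀ x : ℝ, 16 ≤ x → ∀ A : Finset ℕ, A.Nonempty → Admissible A →
    (∀ a ∈ A, (a : ℝ) ≤ x) → C * A.card * Real.log (Real.log x) ≤ Real.log x →
    ∃ n : ℕ, 1 ≤ n ∧ (n : ℝ) ≤ x ∧ ∀ a ∈ A,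
      Squarefree (n + a) ∧
      ((n + a).primeFactors.card : ℝ) ≤ C * Real.log (A.card + 1) ∧
      ∀ p : ℕ, p.Prime → p ∣ n + a → x ^ (1 / (C * A.card)) < p := by
  refine ⟨120000, by norm_num, fun x hx A hne hA hAx hC => ?_⟩
  have hx0 : 0 < x := by linarith
  set k := A.card with hk
  have hk1 : 1 ≤ k := Finset.card_pos.mpr hne
  have hk' : (1 : ℝ) ≤ k := by exact_mod_cast hk1
  set y := Real.log x with hy
  -- `log x ≥ e`
  have hlog16 : Real.exp 1 ≤ y := by
    rw [hy, Real.le_log_iff_exp_le hx0]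
    -- `e ^ e ≤ 16`
    have h1 : Real.exp 1 ≤ 2.7183 := by linarith [Real.exp_one_lt_d9]
    have h2 : Real.exp (Real.exp 1) ≤ Real.exp 2.7183 := Real.exp_le_exp.mpr h1
    have h3 : (2.7183 : ℝ) ≤ Real.log 16 := by
      have : Real.log 16 = 4 * Real.log 2 := by
        rw [show (16 : ℝ) = 2 ^ 4 by norm_num, Real.log_pow]; push_cast; ring
      rw [this]; linarith [Real.log_two_gt_d9]
    have h4 : Real.exp 2.7183 ≤ 16 := by
      rw [← Real.le_log_iff_exp_le (by norm_num)]; exact h3
    linarith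
  have hy1 : 1 ≤ y := by
    have := Real.add_one_le_exp (1 : ℝ)
    linarith
  have hy0 : 0 < y := by linarith
  have hloglog : 1 ≤ Real.log y := by
    rw [Real.le_log_iff_exp_le hy0]; exact hlog16
  have hexpy : Real.exp y = x := Real.exp_log hx0
  have h1 : 60000 * k * (Real.log y + 1) ≤ y := by
    have : 60000 * (k : ℝ) * (Real.log y + 1) ≤ 60000 * k * (2 * Real.log y) := by
      gcongr; linarith
    nlinarith
  obtain ⟨n, hn1, hnx, hn⟩ := core (L := 19408) (by norm_num) hk1 rfl
    (fun p hp => hA.exists_nat hp) hy1 h1 (fun a ha => by rw [hexpy]; exact hAx a ha)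
  rw [hexpy] at hnx
  refine ⟨n, hn1, hnx, fun a ha => ?_⟩
  obtain ⟨h2, h3, h4⟩ := hn a ha
  refine ⟨h2, ?_, ?_⟩
  · have h5 : ((n + a).primeFactors.card : ℝ) ≤ 200 * (Nat.log 2 k + 17) := by
      exact_mod_cast h3.le
    refine h5.trans ?_
    have hlog2 : (0.69 : ℝ) < Real.log 2 := by linarith [Real.log_two_gt_d9]
    have h6 : (2 : ℝ) ^ (Nat.log 2 k) ≤ k + 1 := by
      have : (2 : ℕ) ^ (Nat.log 2 k) ≤ k + 1 := (Nat.pow_log_le_self 2 (by omega)).trans (by omega)
      exact_mod_cast this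
    have h7 : (Nat.log 2 k : ℝ) * Real.log 2 ≤ Real.log (k + 1) := by
      rw [← Real.log_pow]; exact Real.log_le_log (by positivity) h6
    have h8 : Real.log 2 ≤ Real.log (k + 1) := Real.log_le_log (by norm_num) (by linarith)
    have h9 : (0 : ℝ) ≤ (Nat.log 2 k : ℕ) := Nat.cast_nonneg _
    nlinarith
  · intro p hp hdvd
    refine lt_of_le_of_lt ?_ (h4 p hp hdvd)
    rw [Real.rpow_def_of_pos hx0, ← hy]
    apply Real.exp_le_exp.mpr
    rw [mul_one_div]
    apply div_le_div_of_nonneg_left hy0.le (by positivity)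
    push_cast
    nlinarith

end Pool.Agent.Results.MP_f686a1_nt.AlmostPrimeTuples
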