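import Pool.Agent.Lib.H57T.Main

/-!
Chen's theorem combined with the Maynard-Tao theorem, for all admissible sets with at least `k` elements, all at
most `x / 100`, and for all large `x`.
-/

open Finset

namespace Pool.Agent.Results.MP_f686a1_nt.ChenTuples

/-- A finite set of non-negative integers is admissible if for every prime `p` some residue class
modulo `p` contains none of its elements. -/
def Admissible (A : Finset ℕ) : Prop :=
  ∀ p : ℕ, p.Prime → ∃ r : ZMod p, ∀ a ∈ A, (a : ZMod p) ≠ r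

/-- `v` is a prime or a product of two primes, and all its prime factors are at least `z`. -/
def PrimeOrProductOfTwo (z : ℝ) (v : ℕ) : Prop :=
  (v.Prime ∨ ∃ r s : ℕ, r.Prime ∧ s.Prime ∧ v = r * s) ∧ ∀ q : ℕ, q.Prime → q ∣ v → z ≤ q

/-- The number of `b ∈ A`, `b ≠ a`, for which `n + b` is prime. -/
def otherPrimes (A : Finset ℕ) (a n : ℕ) : ℕ := ((A.erase a).filter (fun b => (n + b).Prime)).card

/-- **Chen's theorem for Maynard-Tao tuples, uniformly in the admissible set.** There are `c > 0` and `k₀` such that for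
every `k ≥ k₀` there are `B` and `x₀` with: for every real `x ≥ x₀`, every admissible set `A` with at least `k` elements,
all at most `x / 100`, and every `a ∈ A` there are at least `x / (log x) ^ B` positive integers `n ≤ x` for which `n + a`
is a prime or a product of two primes, all prime factors of `n + a` are at least `x ^ (1 / 11)`, and at least `c log k` of
the numbers `n + b`, `b ∈ A`, `b ≠ a`, are prime. -/
theorem result : ∃ c : ℝ, 0 < c ∧ ∃ k₀ : ℕ, ∀ k : ℕ, k₀ ≤ k → ∃ (B : ℕ) (x₀ : ℝ),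
    ∀ x : ℝ, x₀ ≤ x → ∀ A : Finset ℕ, k ≤ A.card → Admissible A →
      (∀ b ∈ A, (b : ℝ) ≤ x / 100) → ∀ a ∈ A,
        x / (Real.log x) ^ B ≤
          (({n : ℕ | 1 ≤ n ∧ (n : ℝ) ≤ x ∧ PrimeOrProductOfTwo (x ^ (1 / 11 : ℝ)) (n + a) ∧
            c * Real.log k ≤ otherPrimes A a n}.ncard : ℕ) : ℝ) := by
  classical
  obtain ⟨c, hc, k₀, h⟩ := Pool.Agent.Lib.H57T.main
  refine ⟨c, hc, k₀, fun k hk => ?_⟩
  obtain ⟨B, x₀, h1⟩ := h k hk
  refine ⟨B, max x₀ 0, fun x hx A hA hadm hAx a ha => ?_⟩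
  have hx0 : 0 ≤ x := (le_max_right _ _).trans hx
  have h2 := h1 x ((le_max_left _ _).trans hx) A hA hadm hAx a ha
  have h3 : {n : ℕ | 1 ≤ n ∧ (n : ℝ) ≤ x ∧ PrimeOrProductOfTwo (x ^ (1 / 11 : ℝ)) (n + a) ∧
      c * Real.log k ≤ otherPrimes A a n} = (((Icc 1 ⌊x⌋₊).filter (fun n =>
        ((∀ q : ℕ, q.Prime → q ∣ n + a → x ^ (1 / 11 : ℝ) ≤ q) ∧
          ((n + a).Prime ∨ ∃ r s : ℕ, r.Prime ∧ s.Prime ∧ n + a = r * s)) ∧
        c * Real.log k ≤ (((A.erase a).filter (fun b => (n + b).Prime)).card : ℝ)) : Finset ℕ) : Set ℕ) := by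
    ext n
    unfold PrimeOrProductOfTwo otherPrimes
    rw [Set.mem_setOf_eq, Finset.mem_coe, Finset.mem_filter, Finset.mem_Icc, Nat.le_floor_iff hx0]
    tauto
  rw [h3, Set.ncard_coe_finset]
  exact h2

end Pool.Agent.Results.MP_f686a1_nt.ChenTuples
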