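import Pool.Agent.Lib.H59P.HLEnd

/-!
The half law for prime `k`-tuples: almost every admissible `k`-set, `k ≤ (log x)^(κ-δ)`, has a translate
`n ≤ x` with at least `θ k` primes if `θ < 1/2`, unconditionally; for `1/2 < θ ≤ 1` this (and even the same
for a tiny proportion of the sets) is equivalent to the absence of exceptional zeros.
-/

open Finset

namespace Pool.Agent.Results.MP_f686a1_nt.HalfLaw

/-- A finite set of non-negative integers is admissible if for every prime `p` some residue class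
modulo `p` contains none of its elements. -/
def Admissible (A : Finset ℕ) : Prop :=
  ∀ p : ℕ, p.Prime → ∃ r : ZMod p, ∀ a ∈ A, (a : ZMod p) ≠ r

/-- Some positive integer `n ≤ x` makes at least `θ |A|` of the numbers `n + a`, `a ∈ A`, prime. -/
def HasPrimes (x θ : ℝ) (A : Finset ℕ) : Prop :=
  ∃ n : ℕ, 1 ≤ n ∧ (n : ℝ) ≤ x ∧ θ * A.card ≤ ((A.filter (fun a => (n + a).Prime)).card : ℝ)

/-- The admissible sets with `k` elements, all at most `x ^ (1 - δ)`. -/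
def admissibleSets (x δ : ℝ) (k : ℕ) : Set (Finset ℕ) :=
  {A | A.card = k ∧ Admissible A ∧ ∀ a ∈ A, (a : ℝ) ≤ x ^ (1 - δ)}

/-- For all large `x` and all `k ≤ (log x)^(κ-δ)`, all but a proportion `exp (-(log x)^((κ-δ)/2))` of the
admissible `k`-sets (of which there are some) have a translate with at least `θ k` primes. -/
def AlmostAllHave (κ θ : ℝ) : Prop :=
  ∀ δ : ℝ, 0 < δ → δ < κ → ∃ x₀ : ℝ, ∀ x : ℝ, x₀ ≤ x → ∀ k : ℕ, 1 ≤ k →
    (k : ℝ) ≤ (Real.log x) ^ (κ - δ) → 0 < (admissibleSets x δ k).ncard ∧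
    (({A ∈ admissibleSets x δ k | ¬ HasPrimes x θ A}.ncard : ℕ) : ℝ) ≤
      Real.exp (-(Real.log x) ^ ((κ - δ) / 2)) * ((admissibleSets x δ k).ncard : ℝ)

/-- For all large `x` and all `k₀ ≤ k ≤ (log x)^(κ-δ)` (`k₀` depends on `δ`), at least the proportion
`exp (-(θ-1/2)² k)` of the admissible `k`-sets has a translate with at least `θ k` primes. -/
def SomeHave (κ θ : ℝ) : Prop :=
  ∀ δ : ℝ, 0 < δ → δ < κ → ∃ (x₀ : ℝ) (k₀ : ℕ), ∀ x : ℝ, x₀ ≤ x → ∀ k : ℕ, 1 ≤ k → k₀ ≤ k →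
    (k : ℝ) ≤ (Real.log x) ^ (κ - δ) →
    Real.exp (-((θ - 1 / 2) ^ 2 * k)) * ((admissibleSets x δ k).ncard : ℝ) ≤
      (({A ∈ admissibleSets x δ k | HasPrimes x θ A}.ncard : ℕ) : ℝ)

/-- For every `ε > 0` and all large `r`, no real primitive non-trivial character `ψ` modulo `r` has
a real zero of `L(s, ψ)` in `[1 - exp (-(log r)^(1/κ-1+ε)), 1]`. -/
def NoExceptionalZeros (κ : ℝ) : Prop :=
  ∀ ε : ℝ, 0 < ε → ∃ r₀ : ℕ, ∀ r : ℕ, r₀ ≤ r → ∀ [NeZero r], ∀ ψ : DirichletCharacter ℂ r,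
    ψ.IsPrimitive → ψ ≠ 1 → ψ ^ 2 = 1 → ∀ σ : ℝ,
    1 - Real.exp (-(Real.log r) ^ (1 / κ - 1 + ε)) ≤ σ → σ ≤ 1 → ψ.LFunction (σ : ℂ) ≠ 0

theorem result (κ θ : ℝ) (hκ : 0 < κ) (hκ1 : κ ≤ 1) (hθ1 : θ ≤ 1) (hθ : θ ≠ 1 / 2) :
    (AlmostAllHave κ θ ↔ (θ < 1 / 2 ∨ NoExceptionalZeros κ)) ∧
    (SomeHave κ θ ↔ (θ < 1 / 2 ∨ NoExceptionalZeros κ)) :=
  Pool.Agent.Lib.H59P.HLE_result κ θ hκ hκ1 hθ1 hθ

end Pool.Agent.Results.MP_f686a1_nt.HalfLaw
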