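import Pool.Agent.Lib.H51D.VTH
import Pool.Agent.Lib.H68X.XSET

/-!
The almost-all version of the uniform prime `k`-tuples statement, for all large `x`: for every
`0 < κ ≤ 1`, its validity for all `k ≤ (log x)^(κ-δ)` is equivalent to a zero-free interval for real
characters. For `κ ≤ 1/2` it holds unconditionally.
-/

open Finset

namespace Pool.Agent.Results.MP_f686a1_nt.SharpTuples

/-- A finite set of non-negative integers is admissible if for every prime `p` some residue class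
modulo `p` contains none of its elements. -/
def Admissible (A : Finset ℕ) : Prop :=
  ∀ p : ℕ, p.Prime → ∃ r : ZMod p, ∀ a ∈ A, (a : ZMod p) ≠ r

/-- Some positive integer `n ≤ x` makes all `n + a`, `a ∈ A`, prime. -/
def HasPrimeTranslate (x : ℝ) (A : Finset ℕ) : Prop :=
  ∃ n : ℕ, 1 ≤ n ∧ (n : ℝ) ≤ x ∧ ∀ a ∈ A, (n + a).Prime

/-- The admissible sets with `k` elements, all at most `x ^ (1 - δ)`. -/
def admissibleSets (x δ : ℝ) (k : ℕ) : Set (Finset ℕ) :=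
  {A | A.card = k ∧ Admissible A ∧ ∀ a ∈ A, (a : ℝ) ≤ x ^ (1 - δ)}

/-- The statement Q1 of the problem. -/
def UniformTuples : Prop :=
  ∀ δ : ℝ, 0 < δ → ∃ x₀ : ℝ, ∀ x : ℝ, x₀ ≤ x → ∀ A : Finset ℕ, Admissible A →
    (A.card : ℝ) ≤ (Real.log x) ^ (1 - δ) → (∀ a ∈ A, (a : ℝ) ≤ x ^ (1 - δ)) →
    HasPrimeTranslate x A

/-- Q1 for at least half of the admissible `k`-sets, for every `k ≤ (log x)^(κ-δ)`. -/
def HalfOfTuples (κ : ℝ) : Prop :=
  ∀ δ : ℝ, 0 < δ → δ < κ → ∃ x₀ : ℝ, ∀ x : ℝ, x₀ ≤ x → ∀ k : ℕ, 1 ≤ k →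
    (k : ℝ) ≤ (Real.log x) ^ (κ - δ) →
    (admissibleSets x δ k).ncard ≤ 2 * {A ∈ admissibleSets x δ k | HasPrimeTranslate x A}.ncard

/-- Q1 for all but a proportion `(log x)^(-δ/5)` of the admissible `k`-sets (of which there are
some), for every `k ≤ (log x)^(κ-δ)`. -/
def AlmostAllTuples (κ : ℝ) : Prop :=
  ∀ δ : ℝ, 0 < δ → δ < κ → ∃ x₀ : ℝ, ∀ x : ℝ, x₀ ≤ x → ∀ k : ℕ, 1 ≤ k →
    (k : ℝ) ≤ (Real.log x) ^ (κ - δ) →
    0 < (admissibleSets x δ k).ncard ∧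
    (({A ∈ admissibleSets x δ k | ¬ HasPrimeTranslate x A}.ncard : ℕ) : ℝ) ≤
      (Real.log x) ^ (-(δ / 5)) * ((admissibleSets x δ k).ncard : ℝ)

/-- For every `ε > 0` and all large `r`, no real primitive non-trivial character `ψ` modulo `r` has
a real zero of `L(s, ψ)` in `[1 - exp (-(log r)^(1/κ-1+ε)), 1]`. -/
def NoExceptionalZeros (κ : ℝ) : Prop :=
  ∀ ε : ℝ, 0 < ε → ∃ r₀ : ℕ, ∀ r : ℕ, r₀ ≤ r → ∀ [NeZero r], ∀ ψ : DirichletCharacter ℂ r,
    ψ.IsPrimitive → ψ ≠ 1 → ψ ^ 2 = 1 → ∀ σ : ℝ,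
    1 - Real.exp (-(Real.log r) ^ (1 / κ - 1 + ε)) ≤ σ → σ ≤ 1 → ψ.LFunction (σ : ℂ) ≠ 0

theorem split_card (S : Set (Finset ℕ)) (hS : S.Finite) (P : Finset ℕ → Prop) :
    {A ∈ S | P A}.ncard + {A ∈ S | ¬ P A}.ncard = S.ncard := by
  have hd : Disjoint {A ∈ S | P A} {A ∈ S | ¬ P A} := by
    rw [Set.disjoint_left]
    rintro A ⟨-, h2⟩ ⟨-, h3⟩
    exact h3 h2
  rw [← Set.ncard_union_eq hd (hS.subset (Set.sep_subset _ _))
    (hS.subset (Set.sep_subset _ _))]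
  congr 1
  ext A
  rw [Set.mem_union, Set.mem_sep_iff, Set.mem_sep_iff]
  tauto

theorem half_to (κ : ℝ) (h : HalfOfTuples κ) : Pool.Agent.Lib.H68T.MostHaveK κ := by
  classical
  intro δ hδ hδ1
  obtain ⟨x₀, hx₀⟩ := h δ hδ hδ1
  refine ⟨max x₀ 0, fun x hx k hk1 hk => ?_⟩
  have h0 : 0 ≤ x := (le_max_right _ _).trans hx
  have h1 := hx₀ x ((le_max_left _ _).trans hx) k hk1 hk
  have e1 : (admissibleSets x δ k).ncard = (Pool.Agent.Lib.H68T.XSET_adm x δ k).ncard := rfl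
  have hfin : (Pool.Agent.Lib.H68T.XSET_adm x δ k).Finite := by
    rw [Pool.Agent.Lib.H68T.XSET_conv x δ k h0]
    exact Finset.finite_toSet _
  have e2 : {A ∈ admissibleSets x δ k | HasPrimeTranslate x A}.ncard +
      {A ∈ Pool.Agent.Lib.H68T.XSET_adm x δ k |
        ¬ Pool.Agent.Lib.H68T.HasPrimeTranslate x A}.ncard =
      (Pool.Agent.Lib.H68T.XSET_adm x δ k).ncard := by
    exact split_card _ hfin _
  rw [Pool.Agent.Lib.H68T.XSET_badcard x δ k h0, Pool.Agent.Lib.H68T.XSET_card x δ k h0] at e2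
  rw [e1, Pool.Agent.Lib.H68T.XSET_card x δ k h0] at h1
  omega

theorem to_almost (κ : ℝ) (hκ1 : κ ≤ 1) (h : Pool.Agent.Lib.H68T.AlmostAllHaveK κ) :
    AlmostAllTuples κ := by
  classical
  intro δ hδ hδ1
  obtain ⟨x₀, hx₀⟩ := h δ hδ hδ1
  obtain ⟨x₁, -, hx₁⟩ := Pool.Agent.Lib.H68T.XSET_pos δ hδ (by linarith)
  refine ⟨max (max x₀ x₁) (Real.exp 1), fun x hx k hk1 hk => ?_⟩
  have hxe : Real.exp 1 ≤ x := (le_max_right _ _).trans hx
  have h0' : 0 < x := lt_of_lt_of_le (Real.exp_pos _) hxe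
  have h0 : 0 ≤ x := h0'.le
  have hL1 : 1 ≤ Real.log x := by
    rw [Real.le_log_iff_exp_le h0']; exact hxe
  have hm : max x₀ x₁ ≤ x := (le_max_left _ _).trans hx
  have h1 := hx₀ x ((le_max_left _ _).trans hm) k hk1 hk
  refine ⟨hx₁ x ((le_max_right _ _).trans hm) k hk1 (hk.trans ?_), ?_⟩
  · exact Real.rpow_le_rpow_of_exponent_le hL1 (by linarith)
  rw [← Pool.Agent.Lib.H68T.XSET_badcard x δ k h0, ← Pool.Agent.Lib.H68T.XSET_card x δ k h0] at h1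
  exact h1

theorem almost_to_half (κ : ℝ) (h : AlmostAllTuples κ) : HalfOfTuples κ := by
  classical
  intro δ hδ hδ1
  obtain ⟨x₀, hx₀⟩ := h δ hδ hδ1
  obtain ⟨L₁, hL₁⟩ := Filter.eventually_atTop.mp
    (Pool.Agent.Lib.H68T.ev_rpow 2 0 (δ / 5) (by linarith))
  refine ⟨max x₀ (Real.exp (max L₁ 1)), fun x hx k hk1 hk => ?_⟩
  obtain ⟨-, hx1⟩ := hx₀ x ((le_max_left _ _).trans hx) k hk1 hk
  have hxe : Real.exp (max L₁ 1) ≤ x := (le_max_right _ _).trans hx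
  have hx0 : 0 < x := lt_of_lt_of_le (Real.exp_pos _) hxe
  have hLge : max L₁ 1 ≤ Real.log x := by
    rw [Real.le_log_iff_exp_le hx0]; exact hxe
  have hL0 : 0 < Real.log x := lt_of_lt_of_le one_pos ((le_max_right _ _).trans hLge)
  have e1 := hL₁ _ ((le_max_left _ _).trans hLge)
  rw [Real.rpow_zero, mul_one] at e1
  have h2 : (Real.log x) ^ (-(δ / 5)) ≤ 1 / 2 := by
    rw [Real.rpow_neg hL0.le, ← one_div]
    exact one_div_le_one_div_of_le (by norm_num) e1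
  have hfin : (admissibleSets x δ k).Finite := by
    show (Pool.Agent.Lib.H68T.XSET_adm x δ k).Finite
    rw [Pool.Agent.Lib.H68T.XSET_conv x δ k hx0.le]
    exact Finset.finite_toSet _
  have e2 : {A ∈ admissibleSets x δ k | HasPrimeTranslate x A}.ncard +
      {A ∈ admissibleSets x δ k | ¬ HasPrimeTranslate x A}.ncard =
      (admissibleSets x δ k).ncard := by
    exact split_card _ hfin _
  have h3 : 2 * (({A ∈ admissibleSets x δ k | ¬ HasPrimeTranslate x A}.ncard : ℕ) : ℝ) ≤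
      ((admissibleSets x δ k).ncard : ℝ) := by
    have h4 := mul_le_mul_of_nonneg_right h2 (Nat.cast_nonneg (α := ℝ)
      (admissibleSets x δ k).ncard)
    linarith
  have h5 : 2 * {A ∈ admissibleSets x δ k | ¬ HasPrimeTranslate x A}.ncard ≤
      (admissibleSets x δ k).ncard := by exact_mod_cast h3
  omega

theorem q1_to_half (h : UniformTuples) : HalfOfTuples 1 := by
  intro δ hδ _
  obtain ⟨x₀, hx₀⟩ := h δ hδ
  refine ⟨x₀, fun x hx k _ hk => ?_⟩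
  have h1 : {A ∈ admissibleSets x δ k | HasPrimeTranslate x A} = admissibleSets x δ k := by
    ext A
    rw [Set.mem_sep_iff]
    constructor
    · exact fun h => h.1
    · intro hA
      refine ⟨hA, ?_⟩
      obtain ⟨hA1, hA2, hA3⟩ := hA
      exact hx₀ x hx A hA2 (by rw [hA1]; exact hk) hA3
  rw [h1]
  omega

/-- **Main theorem.** For every `0 < κ ≤ 1` the almost-all form of Q1 (or even Q1 for half of the
admissible sets), for all large `x` and all `k ≤ (log x)^(κ-δ)`, `a ≤ x^(1-δ)`, is equivalent to the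
absence of real zeros in `[1 - exp (-(log r)^(1/κ-1+ε)), 1]`. For `κ ≤ 1/2` it holds. Q1 implies the
absence of zeros for `κ = 1`. -/
theorem result : (∀ κ : ℝ, 0 < κ → κ ≤ 1 →
      (AlmostAllTuples κ ↔ NoExceptionalZeros κ) ∧ (HalfOfTuples κ ↔ NoExceptionalZeros κ)) ∧
    (∀ κ : ℝ, 0 < κ → κ ≤ 1 / 2 →
      AlmostAllTuples κ ∧ HalfOfTuples κ ∧ NoExceptionalZeros κ) ∧
    (UniformTuples → NoExceptionalZeros 1) := by
  have hb : ∀ κ : ℝ, 0 < κ → κ ≤ 1 → HalfOfTuples κ → NoExceptionalZeros κ :=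
    fun κ hκ hκ1 h => Pool.Agent.Lib.H68T.barrierK κ hκ hκ1 (half_to κ h)
  have hf : ∀ κ : ℝ, 0 < κ → κ ≤ 1 → NoExceptionalZeros κ → AlmostAllTuples κ :=
    fun κ hκ hκ1 h => to_almost κ hκ1 (Pool.Agent.Lib.H68T.forwardK κ hκ hκ1 h)
  have hu : ∀ κ : ℝ, 0 < κ → κ ≤ 1 / 2 → NoExceptionalZeros κ :=
    fun κ hκ hκ2 => Pool.Agent.Lib.H68T.noSiegelK_half κ hκ hκ2
  refine ⟨fun κ hκ hκ1 => ⟨⟨fun h => hb κ hκ hκ1 (almost_to_half κ h), hf κ hκ hκ1⟩,
    ⟨hb κ hκ hκ1, fun h => almost_to_half κ (hf κ hκ hκ1 h)⟩⟩, fun κ hκ hκ2 => ?_,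
    fun h => hb 1 one_pos le_rfl (q1_to_half h)⟩
  have h1 : AlmostAllTuples κ := hf κ hκ (by linarith) (hu κ hκ hκ2)
  exact ⟨h1, almost_to_half κ h1, hu κ hκ hκ2⟩

end Pool.Agent.Results.MP_f686a1_nt.SharpTuples
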