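import Mathlib

/-!
# Large induced `d`-degenerate subgraphs of `k`-degenerate graphs: a counterexample

We exhibit a graph on `7` vertices of degeneracy `3` in which every induced `2`-degenerate
subgraph has at most `5` vertices. Hence `α_2(3) ≤ 5/7 < 3/4`, which refutes the conjectured
formula `α_d(k) = (d+1)/(k+1)` for `k ≥ 3`.
-/

namespace Pool.Agent.Results.MP_f95752_co.Counterexample

/-- `G` is `d`-degenerate: every (nonempty) subgraph `H` of `G`, induced or not, has minimum
degree at most `d`, i.e. some vertex of `H` has at most `d` neighbours in `H`. -/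
def IsDegenerate {V : Type*} (G : SimpleGraph V) (d : ℕ) : Prop :=
  ∀ H : G.Subgraph, H.verts.Nonempty → ∃ v ∈ H.verts, (H.neighborSet v).ncard ≤ d

/-- The degeneracy of a (finite) graph: the least `d` such that `G` is `d`-degenerate. -/
noncomputable def degeneracy {V : Type*} (G : SimpleGraph V) : ℕ :=
  sInf {d : ℕ | IsDegenerate G d}

/-- `alpha d G = α_d(G)`: the largest number of vertices of an induced subgraph of the finite
graph `G` that is `d`-degenerate. -/
noncomputable def alpha {V : Type*} [Fintype V] (d : ℕ) (G : SimpleGraph V) : ℕ :=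
  sSup {a : ℕ | ∃ S : Finset V, IsDegenerate (G.induce (S : Set V)) d ∧ S.card = a}

/-- `alphaInf d k = α_d(k)`: the infimum of `α_d(G) / |V(G)|` over all finite nonempty graphs `G`
of degeneracy exactly `k`. -/
noncomputable def alphaInf (d k : ℕ) : ℝ :=
  sInf {x : ℝ | ∃ (n : ℕ) (G : SimpleGraph (Fin n)),
    0 < n ∧ degeneracy G = k ∧ x = (alpha d G : ℝ) / (n : ℝ)}

/-- If `T ⊆ S` is nonempty and every vertex of `T` has more than `d` neighbours in `T`, then the
subgraph induced by `S` is not `d`-degenerate. -/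
theorem not_isDegenerate_induce {V : Type*} [DecidableEq V] (G : SimpleGraph V)
    [DecidableRel G.Adj] {d : ℕ} {S T : Finset V} (hTS : T ⊆ S) (hT : T.Nonempty)
    (h : ∀ v ∈ T, d + 1 ≤ (T.filter (fun w => G.Adj v w)).card) :
    ¬ IsDegenerate (G.induce (S : Set V)) d := by
  intro hdeg
  obtain ⟨t, ht⟩ := hT
  let H : (G.induce (S : Set V)).Subgraph :=
    (⊤ : (G.induce (S : Set V)).Subgraph).induce {x | (x : V) ∈ T}
  obtain ⟨v, hv, hcard⟩ := hdeg H ⟨⟨t, hTS ht⟩, ht⟩
  have hvT : (v : V) ∈ T := hv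
  have h1 := h v hvT
  have h2 : (Subtype.val '' (H.neighborSet v)) =
      ((T.filter (fun w => G.Adj (v : V) w) : Finset V) : Set V) := by
    ext w
    simp only [Set.mem_image, SimpleGraph.Subgraph.mem_neighborSet, Finset.coe_filter,
      Set.mem_ofPred_eq]
    constructor
    · rintro ⟨x, hx, rfl⟩
      have hx' : (v : V) ∈ T ∧ (x : V) ∈ T ∧ G.Adj v x := by
        simpa [H] using hx
      exact ⟨hx'.2.1, hx'.2.2⟩
    · rintro ⟨hw, hvw⟩
      refine ⟨⟨w, hTS hw⟩, ?_, rfl⟩
      simpa [H] using ⟨hvT, hw, hvw⟩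
  have h3 : (Subtype.val '' (H.neighborSet v)).ncard = (H.neighborSet v).ncard :=
    Set.ncard_image_of_injective _ Subtype.val_injective
  rw [h2, Set.ncard_coe_finset] at h3
  omega

/-- If every nonempty set `T` of vertices contains a vertex with at most `d` neighbours in `T`,
then the graph is `d`-degenerate. -/
theorem isDegenerate_of {V : Type*} [Fintype V] [DecidableEq V] (G : SimpleGraph V)
    [DecidableRel G.Adj] {d : ℕ}
    (h : ∀ T : Finset V, T.Nonempty → ∃ v ∈ T, (T.filter (fun w => G.Adj v w)).card ≤ d) :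
    IsDegenerate G d := by
  classical
  intro H hH
  obtain ⟨v, hv, hcard⟩ := h H.verts.toFinset (by simpa using hH)
  refine ⟨v, by simpa using hv, ?_⟩
  refine le_trans ?_ hcard
  rw [← Set.ncard_coe_finset]
  apply Set.ncard_le_ncard _ (Finset.finite_toSet _)
  intro w hw
  have hw' : H.Adj v w := hw
  simp only [Finset.coe_filter, Set.mem_toFinset, Set.mem_ofPred_eq]
  exact ⟨H.edge_vert hw'.symm, hw'.adj_sub⟩

/-- Adjacency relation (one direction) of the counterexample graph: the vertex set is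
`{0, ..., 6}` and the pairs listed here are its edges. -/
def edges : List (Fin 7 × Fin 7) :=
  [(1, 0), (2, 0), (2, 1), (3, 0), (3, 1), (3, 2), (4, 1), (4, 2), (4, 3), (5, 0), (5, 2), (5, 3),
    (6, 0), (6, 1), (6, 5)]

/-- The counterexample graph on seven vertices. -/
def G7 : SimpleGraph (Fin 7) where
  Adj i j := (i, j) ∈ edges ∨ (j, i) ∈ edges
  symm := ⟨fun _ _ h => Or.symm h⟩
  loopless := ⟨by decide⟩

instance : DecidableRel G7.Adj := fun i j =>
  inferInstanceAs (Decidable ((i, j) ∈ edges ∨ (j, i) ∈ edges))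

theorem G7_three : IsDegenerate G7 3 := by
  apply isDegenerate_of
  decide +kernel

theorem G7_large (S : Finset (Fin 7)) (hS : 6 ≤ S.card) :
    ¬ IsDegenerate (G7.induce (S : Set (Fin 7))) 2 := by
  have key : ∀ S : Finset (Fin 7), 6 ≤ S.card → ∃ T : Finset (Fin 7), T ⊆ S ∧ T.Nonempty ∧
      ∀ v ∈ T, 2 + 1 ≤ (T.filter (fun w => G7.Adj v w)).card := by
    decide +kernel
  obtain ⟨T, hTS, hT, h⟩ := key S hS
  exact not_isDegenerate_induce G7 hTS hT h

theorem isDegenerate_mono {V : Type*} {G : SimpleGraph V} {c d : ℕ} (hcd : c ≤ d)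
    (h : IsDegenerate G c) : IsDegenerate G d := fun H hH => by
  obtain ⟨v, hv, h1⟩ := h H hH
  exact ⟨v, hv, h1.trans hcd⟩

/-- `d`-degeneracy passes to induced subgraphs. -/
theorem isDegenerate_induce {V : Type*} {G : SimpleGraph V} {d : ℕ} (h : IsDegenerate G d)
    (s : Set V) : IsDegenerate (G.induce s) d := by
  intro H hH
  obtain ⟨v0, hv0⟩ := hH
  let H' : G.Subgraph :=
    { verts := Subtype.val '' H.verts
      Adj := fun a b => ∃ (ha : a ∈ s) (hb : b ∈ s), H.Adj ⟨a, ha⟩ ⟨b, hb⟩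
      adj_sub := by
        rintro a b ⟨ha, hb, hab⟩
        exact hab.adj_sub
      edge_vert := by
        rintro a b ⟨ha, hb, hab⟩
        exact ⟨⟨a, ha⟩, H.edge_vert hab, rfl⟩
      symm := ⟨by
        rintro a b ⟨ha, hb, hab⟩
        exact ⟨hb, ha, hab.symm⟩⟩ }
  obtain ⟨v, ⟨x, hx, rfl⟩, hcard⟩ := h H' ⟨v0, ⟨v0, hv0, rfl⟩⟩
  refine ⟨x, hx, ?_⟩
  have h1 : Subtype.val '' (H.neighborSet x) = H'.neighborSet x := by
    ext w
    constructor
    · rintro ⟨y, hy, rfl⟩
      exact ⟨x.2, y.2, hy⟩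
    · rintro ⟨_, hw, hadj⟩
      exact ⟨⟨w, hw⟩, hadj, rfl⟩
  rw [← Set.ncard_image_of_injective _ Subtype.val_injective, h1]
  exact hcard

theorem G7_not_two : ¬ IsDegenerate G7 2 := by
  intro h
  exact G7_large Finset.univ (by simp) (isDegenerate_induce h _)

/-- The graph `G7` has degeneracy exactly `3`. -/
theorem degeneracy_G7 : degeneracy G7 = 3 := by
  apply le_antisymm
  · exact Nat.sInf_le G7_three
  · apply le_csInf ⟨3, G7_three⟩
    intro d hd
    by_contra hlt
    exact G7_not_two (isDegenerate_mono (by omega) hd)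

/-- Every induced `2`-degenerate subgraph of `G7` has at most `5` vertices. -/
theorem alpha_G7 : alpha 2 G7 ≤ 5 := by
  apply csSup_le
  · refine ⟨0, ∅, ?_, rfl⟩
    rintro H ⟨v, -⟩
    exact absurd v.2 (by simp)
  · rintro a ⟨S, hS, rfl⟩
    by_contra hlt
    exact G7_large S (by omega) hS

/-- **Theorem.** `α_2(3) ≤ 5/7`, and so the formula `α_d(k) = (d+1)/(k+1)` does not hold for all
integers `k ≥ 3` and `0 ≤ d < k`. -/
theorem result : alphaInf 2 3 ≤ 5 / 7 ∧
    ¬ ∀ k d : ℕ, 3 ≤ k → d < k → alphaInf d k = ((d : ℝ) + 1) / ((k : ℝ) + 1) := by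
  have h1 : alphaInf 2 3 ≤ 5 / 7 := by
    have hmem : ((alpha 2 G7 : ℝ) / ((7 : ℕ) : ℝ)) ∈ {x : ℝ | ∃ (n : ℕ) (G : SimpleGraph (Fin n)),
        0 < n ∧ degeneracy G = 3 ∧ x = (alpha 2 G : ℝ) / (n : ℝ)} :=
      ⟨7, G7, by norm_num, degeneracy_G7, rfl⟩
    have hbdd : BddBelow {x : ℝ | ∃ (n : ℕ) (G : SimpleGraph (Fin n)),
        0 < n ∧ degeneracy G = 3 ∧ x = (alpha 2 G : ℝ) / (n : ℝ)} := by
      refine ⟨0, ?_⟩
      rintro x ⟨n, G, -, -, rfl⟩
      positivity
    refine (csInf_le hbdd hmem).trans ?_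
    have h2 : (alpha 2 G7 : ℝ) ≤ 5 := by exact_mod_cast alpha_G7
    push_cast
    linarith
  refine ⟨h1, fun hall => ?_⟩
  have h2 := hall 3 2 le_rfl (by norm_num)
  rw [h2] at h1
  norm_num at h1

end Pool.Agent.Results.MP_f95752_co.Counterexample
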