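import Mathlib
import Pool.Agent.Lib.Helper92.DepthTwo

set_option autoImplicit false
open CategoryTheory

namespace Pool.Agent.Results.MP_fa772a_ag.PerfectFree

universe u

/-- Let `S` be a Noetherian local ring and `I` a proper ideal which is perfect: `I` contains an
`S`-regular sequence `xs` and `pd_S (S/I)` is at most the length of `xs`.  If the normal module
`Hom(I/I², S/I)` is a free `S/I`-module, then `I` is generated by an `S`-regular sequence. -/
theorem result :
    ∀ (S : Type u) [CommRing S] [IsNoetherianRing S] [IsLocalRing S] (I : Ideal S),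
      I ≠ ⊤ →
      (∃ xs : List S, (∀ x ∈ xs, x ∈ I) ∧ RingTheory.Sequence.IsRegular S xs ∧
        HasProjectiveDimensionLT (ModuleCat.of S (S ⧸ I)) (xs.length + 1)) →
      Module.Free (S ⧸ I) (I.Cotangent →ₗ[S ⧸ I] (S ⧸ I)) →
      ∃ rs : List S, Ideal.span {r : S | r ∈ rs} = I ∧ RingTheory.Sequence.IsRegular S rs := by
  intro S _ _ _ I hI ⟨xs, hxsI, hxs, hpd⟩ hfree
  exact Pool.Agent.Lib.Helper92.perfect_free I hI xs hxsI hxs hpd hfree

end Pool.Agent.Results.MP_fa772a_ag.PerfectFree
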