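import Pool.Agent.Lib.StrongMax.FinEdges
import Pool.Agent.Lib.StrongMax.StarGood
import Pool.Agent.Lib.H70A.Z5

/-!
# Strongly maximal `H`-free edge sets for graphs `H` with finitely many edges: the classification

Let `H` be a graph with finitely many edges (for instance a finite graph). Every graph `G`, of any
cardinality, has a strongly maximal `H`-free edge set if and only if `H` has an edge and all the edges
of `H` have a common vertex, that is, `H` is a star `K_{1,n}` with `n ≥ 1` plus isolated vertices.

No hypothesis is assumed: the existence of strongly maximal matchings in all graphs (a theorem of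
Aharoni) is proved in `Pool.Agent.Lib.H70A`.
-/

namespace Pool.Agent.Results.MP_fc2b6d_co.FiniteClassification

open Pool.Agent.StrongMax

universe u

theorem result {W : Type u} (H : SimpleGraph W) (hfin : H.edgeSet.Finite) :
    (∀ (V : Type u) (G : SimpleGraph V), ∃ F : Set (Sym2 V), StronglyMaximal H G F) ↔
      H ≠ ⊥ ∧ ∃ z : W, ∀ a b : W, H.Adj a b → a = z ∨ b = z := by
  constructor
  · intro hprop
    constructor
    · intro hbot
      obtain ⟨V, G, hG⟩ := fails_of_eq_bot hbot
      obtain ⟨F, hF⟩ := hprop V G
      exact hG F hF
    · by_contra hcon
      obtain ⟨V, G, hG⟩ := fails_of_finEdges hfin hcon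
      obtain ⟨F, hF⟩ := hprop V G
      exact hG F hF
  · rintro ⟨hne, z, hz⟩ V G
    refine star_good (fun V' G' => Pool.Agent.H70A.exists_sm V' G') hfin hz ?_ V G
    by_contra hcon
    push Not at hcon
    refine hne ?_
    ext a b
    simp [hcon a b]

end Pool.Agent.Results.MP_fc2b6d_co.FiniteClassification
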