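import Pool.Agent.Lib.StrongMax.FinEdges
import Pool.Agent.Lib.StrongMax.StarGood

/-!
# Strongly maximal `H`-free edge sets for graphs `H` with finitely many edges

Let `H` be a graph with finitely many edges (for instance a finite graph).

* If every graph `G` has a strongly maximal `H`-free edge set, then `H` has an edge and all the
  edges of `H` have a common vertex: `H` is a star `K_{1,n}` with `n ≥ 1` plus isolated vertices.
* Conversely, if `H` is such a star plus isolated vertices, and if every graph has a strongly
  maximal matching, then every graph has a strongly maximal `H`-free edge set.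
-/

namespace Pool.Agent.Results.MP_fc2b6d_co.FinitelyManyEdges

open Pool.Agent.StrongMax

universe u

theorem result {W : Type u} (H : SimpleGraph W) (hfin : H.edgeSet.Finite) :
    ((∀ (V : Type u) (G : SimpleGraph V), ∃ F : Set (Sym2 V), StronglyMaximal H G F) →
      H ≠ ⊥ ∧ ∃ z : W, ∀ a b : W, H.Adj a b → a = z ∨ b = z) ∧
    (H ≠ ⊥ → (∃ z : W, ∀ a b : W, H.Adj a b → a = z ∨ b = z) →
      (∀ (V : Type u) (G : SimpleGraph V), ∃ F : Set (Sym2 V),
        StronglyMaximal (SimpleGraph.pathGraph 3) G F) →
      ∀ (V : Type u) (G : SimpleGraph V), ∃ F : Set (Sym2 V), StronglyMaximal H G F) := by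
  constructor
  · intro hprop
    constructor
    · intro hbot
      obtain ⟨V, G, hG⟩ := fails_of_eq_bot hbot
      obtain ⟨F, hF⟩ := hprop V G
      exact hG F hF
    · by_contra hcon
      obtain ⟨V, G, hG⟩ := fails_of_finEdges hfin hcon
      obtain ⟨F, hF⟩ := hprop V G
      exact hG F hF
  · rintro hne ⟨z, hz⟩ hM V G
    refine star_good hM hfin hz ?_ V G
    by_contra hcon
    push Not at hcon
    refine hne ?_
    ext a b
    simp [hcon a b]

end Pool.Agent.Results.MP_fc2b6d_co.FinitelyManyEdges
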