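import Pool.Agent.Lib.StrongMax.LocFin

/-!
# Locally finite graphs `H` with infinitely many edges

If every vertex of `H` has finite degree and `H` has infinitely many edges, then some host graph
has no strongly maximal `H`-free edge set.
-/

namespace Pool.Agent.Results.MP_fc2b6d_co.LocallyFinite

open Pool.Agent.StrongMax

universe u

theorem result {W : Type u} (H : SimpleGraph W) (hlf : ∀ x : W, (H.neighborSet x).Finite)
    (hinf : ¬ H.edgeSet.Finite) :
    ∃ (V : Type u) (G : SimpleGraph V), ∀ F : Set (Sym2 V), ¬ StronglyMaximal H G F :=
  fails_of_locFin hlf hinf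

end Pool.Agent.Results.MP_fc2b6d_co.LocallyFinite
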